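import Pool.Agent.Lib.MP_3615e3_an.Basic

/-! A length function on the group and the time a geodesic spends in a horocyclic strip. -/

open MeasureTheory Filter Topology Set
open scoped MatrixGroups

namespace Pool.Agent.Lib.MP_3615e3_an.Bar

open Pool.Agent.Lib.MP_3615e3_an

/-- The maximal row sum. -/
noncomputable def nrm (g : SL(2, ℝ)) : ℝ :=
  max (|g 0 0| + |g 0 1|) (|g 1 0| + |g 1 1|)

/-- The sup norm of the first column. -/
noncomputable def cn (g : SL(2, ℝ)) : ℝ := max |g 0 0| |g 1 0|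

/-- The length function. -/
noncomputable def len (g : SL(2, ℝ)) : ℝ := Real.log (max (nrm g) (nrm g⁻¹))

theorem mul_ent (g h : SL(2, ℝ)) (i j : Fin 2) : (g * h) i j = g i 0 * h 0 j + g i 1 * h 1 j := by
  simp [Matrix.mul_apply, Fin.sum_univ_two]

theorem row_le (g : SL(2, ℝ)) (i : Fin 2) : |g i 0| + |g i 1| ≤ nrm g := by
  fin_cases i
  · exact le_max_left _ _
  · exact le_max_right _ _

theorem nrm_nonneg (g : SL(2, ℝ)) : 0 ≤ nrm g :=
  le_trans (by positivity) (row_le g 0)

theorem row_mul_le (g h : SL(2, ℝ)) (i : Fin 2) :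
    |(g * h) i 0| + |(g * h) i 1| ≤ nrm g * nrm h := by
  rw [mul_ent, mul_ent]
  have a1 := abs_add_le (g i 0 * h 0 0) (g i 1 * h 1 0)
  have a2 := abs_add_le (g i 0 * h 0 1) (g i 1 * h 1 1)
  rw [abs_mul, abs_mul] at a1 a2
  have b0 := row_le h 0
  have b1 := row_le h 1
  have c := row_le g i
  have d0 := abs_nonneg (g i 0)
  have d1 := abs_nonneg (g i 1)
  have e := nrm_nonneg h
  nlinarith [mul_le_mul_of_nonneg_left b0 d0, mul_le_mul_of_nonneg_left b1 d1,
    mul_le_mul_of_nonneg_right c e]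

theorem nrm_mul (g h : SL(2, ℝ)) : nrm (g * h) ≤ nrm g * nrm h :=
  max_le (row_mul_le g h 0) (row_mul_le g h 1)

theorem nrm_one : nrm 1 = 1 := by
  simp [nrm]

theorem cn_nonneg (g : SL(2, ℝ)) : 0 ≤ cn g := le_trans (abs_nonneg _) (le_max_left _ _)

theorem col_mul_le (g h : SL(2, ℝ)) (i : Fin 2) : |(g * h) i 0| ≤ nrm g * cn h := by
  rw [mul_ent]
  have a1 := abs_add_le (g i 0 * h 0 0) (g i 1 * h 1 0)
  rw [abs_mul, abs_mul] at a1
  have b0 : |h 0 0| ≤ cn h := le_max_left _ _
  have b1 : |h 1 0| ≤ cn h := le_max_right _ _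
  have c := row_le g i
  have d0 := abs_nonneg (g i 0)
  have d1 := abs_nonneg (g i 1)
  have e := cn_nonneg h
  nlinarith [mul_le_mul_of_nonneg_left b0 d0, mul_le_mul_of_nonneg_left b1 d1,
    mul_le_mul_of_nonneg_right c e]

theorem cn_mul (g h : SL(2, ℝ)) : cn (g * h) ≤ nrm g * cn h :=
  max_le (col_mul_le g h 0) (col_mul_le g h 1)

theorem one_le_max (g : SL(2, ℝ)) : 1 ≤ max (nrm g) (nrm g⁻¹) := by
  have h := nrm_mul g g⁻¹
  rw [mul_inv_cancel, nrm_one] at h
  by_contra hc
  push Not at hc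
  have h1 := (le_max_left _ _).trans_lt hc
  have h2 := (le_max_right _ _).trans_lt hc
  nlinarith [nrm_nonneg g, nrm_nonneg g⁻¹]

theorem len_nonneg (g : SL(2, ℝ)) : 0 ≤ len g := Real.log_nonneg (one_le_max g)

theorem len_inv (g : SL(2, ℝ)) : len g⁻¹ = len g := by
  unfold len
  rw [inv_inv, max_comm]

theorem len_one : len 1 = 0 := by
  simp [len, nrm_one]

theorem len_mul (g h : SL(2, ℝ)) : len (g * h) ≤ len g + len h := by
  unfold len
  have a := one_le_max g
  have b := one_le_max h
  rw [← Real.log_mul (by linarith) (by linarith)]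
  apply Real.log_le_log (lt_of_lt_of_le one_pos (one_le_max _))
  apply max_le
  · exact (nrm_mul g h).trans
      (mul_le_mul (le_max_left _ _) (le_max_left _ _) (nrm_nonneg _) (by linarith))
  · rw [mul_inv_rev]
    refine (nrm_mul _ _).trans ?_
    rw [mul_comm]
    exact mul_le_mul (le_max_right _ _) (le_max_right _ _) (nrm_nonneg _) (by linarith)

theorem nrm_le_exp (g : SL(2, ℝ)) : nrm g ≤ Real.exp (len g) := by
  unfold len
  rw [Real.exp_log (lt_of_lt_of_le one_pos (one_le_max g))]
  exact le_max_left _ _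

theorem continuous_ent (i j : Fin 2) : Continuous fun g : SL(2, ℝ) => g i j :=
  (continuous_apply j).comp ((continuous_apply i).comp
    Matrix.SpecialLinearGroup.isClosedEmbedding_val.continuous)

theorem continuous_nrm : Continuous nrm :=
  ((continuous_ent 0 0).abs.add (continuous_ent 0 1).abs).max
    ((continuous_ent 1 0).abs.add (continuous_ent 1 1).abs)

theorem continuous_cn : Continuous cn :=
  (continuous_ent 0 0).abs.max (continuous_ent 1 0).abs

theorem continuous_len : Continuous len :=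
  (continuous_nrm.max (continuous_nrm.comp continuous_inv)).log fun g =>
    (lt_of_lt_of_le one_pos (one_le_max g)).ne'

/-- The ball of radius `R`. -/
def ball (R : ℝ) : Set SL(2, ℝ) := {g | len g ≤ R}

theorem isCompact_ball (R : ℝ) : IsCompact (ball R) := by
  have hK : IsCompact (Set.pi univ fun _ : Fin 2 => Set.pi univ fun _ : Fin 2 =>
      Icc (-Real.exp R) (Real.exp R)) :=
    isCompact_univ_pi fun _ => isCompact_univ_pi fun _ => isCompact_Icc
  have h2 := (Matrix.SpecialLinearGroup.isClosedEmbedding_val (n := Fin 2) (R := ℝ)).isCompact_preimage hK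
  refine h2.of_isClosed_subset (isClosed_le continuous_len continuous_const) ?_
  intro (g : SL(2, ℝ)) hg i _ j _
  have h1 : nrm g ≤ Real.exp R := (nrm_le_exp g).trans (Real.exp_le_exp.2 hg)
  have h3 := row_le g i
  have h4 : |g i j| ≤ Real.exp R := by
    fin_cases j
    · have := abs_nonneg (g i 1)
      simp only [Fin.zero_eta]
      linarith
    · have := abs_nonneg (g i 0)
      simp only [Fin.mk_one]
      linarith
  exact abs_le.1 h4

theorem geo_inv (t : ℝ) : (geo t)⁻¹ = geo (-t) := by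
  rw [inv_eq_iff_mul_eq_one, ← geo_add, add_neg_cancel, geo_zero]

theorem nrm_geo (t : ℝ) : nrm (geo t) ≤ Real.exp |t| := by
  unfold nrm
  simp only [geo, Matrix.SpecialLinearGroup.coe_mk, Matrix.of_apply, Matrix.cons_val', Matrix.cons_val_zero,
    Matrix.cons_val_one, Matrix.cons_val_fin_one, abs_zero, add_zero, zero_add, Real.abs_exp]
  exact max_le (Real.exp_le_exp.2 (le_abs_self t)) (Real.exp_le_exp.2 (neg_le_abs t))

theorem len_geo (t : ℝ) : len (geo t) ≤ |t| := by
  unfold len
  rw [Real.log_le_iff_le_exp (lt_of_lt_of_le one_pos (one_le_max _))]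
  refine max_le (nrm_geo t) ?_
  rw [geo_inv]
  simpa using nrm_geo (-t)

theorem cn_geo_mul (t : ℝ) (b : SL(2, ℝ)) :
    cn (geo t * b) = max (Real.exp t * |b 0 0|) (Real.exp (-t) * |b 1 0|) := by
  unfold cn
  rw [mul_ent, mul_ent]
  simp [geo, abs_mul, Real.abs_exp]

theorem cn_arc (t s s' : ℝ) (ε : SL(2, ℝ)) (hε : ε = 1 ∨ ε = -1) :
    cn (geo t * hor s' * ε * (geo t * hor s)⁻¹) = 1 := by
  have h1 : geo t * hor s' * (geo t * hor s)⁻¹ = hor (Real.exp (2 * t) * (s' - s)) := by
    rw [mul_inv_eq_iff_eq_mul, ← mul_assoc, hor_mul_geo, mul_assoc, ← hor_add]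
    congr 2
    rw [← mul_assoc, ← Real.exp_add]
    simp
  rcases hε with rfl | rfl
  · rw [mul_one, h1]
    simp [cn, hor]
  · rw [mul_neg, mul_one, neg_mul, h1]
    simp [cn, hor]

/-- The times at which the first column has bounded size lie in two intervals. -/
theorem strip (b : SL(2, ℝ)) (r : ℝ) :
    volume {t : ℝ | Real.exp (-r) ≤ cn (geo t * b) ∧ cn (geo t * b) ≤ Real.exp r} ≤
      ENNReal.ofReal (2 * r) + ENNReal.ofReal (2 * r) := by
  have key : ∀ (w τ : ℝ), 0 ≤ w → Real.exp (-r) ≤ Real.exp τ * w → Real.exp τ * w ≤ Real.exp r →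
      -r - Real.log w ≤ τ ∧ τ ≤ r - Real.log w := by
    intro w τ hw h1 h2
    have hw' : 0 < w := by
      rcases hw.eq_or_lt with h | h
      · rw [← h, mul_zero] at h1
        exact absurd h1 (not_le.2 (Real.exp_pos _))
      · exact h
    rw [← Real.exp_log hw', ← Real.exp_add, Real.exp_le_exp] at h1 h2
    constructor <;> linarith
  have hsub : {t : ℝ | Real.exp (-r) ≤ cn (geo t * b) ∧ cn (geo t * b) ≤ Real.exp r} ⊆
      Icc (-r - Real.log |b 0 0|) (r - Real.log |b 0 0|) ∪
        Icc (-r + Real.log |b 1 0|) (r + Real.log |b 1 0|) := by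
    rintro t ⟨h1, h2⟩
    rw [cn_geo_mul] at h1 h2
    rcases le_max_iff.1 h1 with h | h
    · left
      exact key _ _ (abs_nonneg _) h ((le_max_left _ _).trans h2)
    · right
      have := key _ _ (abs_nonneg _) h ((le_max_right _ _).trans h2)
      constructor <;> linarith [this.1, this.2]
  refine (measure_mono hsub).trans ((measure_union_le _ _).trans ?_)
  rw [Real.volume_Icc, Real.volume_Icc]
  apply le_of_eq
  congr 2 <;> ring

end Pool.Agent.Lib.MP_3615e3_an.Bar
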