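import Pool.Agent.Lib.MP_3615e3_an.Cover

open MeasureTheory Filter Topology Set
open scoped MatrixGroups CompactlySupported NNReal ENNReal symmDiff Pointwise

namespace Pool.Agent.Lib.MP_3615e3_an

variable {X : Type*} [TopologicalSpace X] [T2Space X] [LocallyCompactSpace X]
  [SecondCountableTopology X] [MeasurableSpace X] [BorelSpace X]
  [MulAction SL(2, ℝ) X] [ContinuousSMul SL(2, ℝ) X]
  (μ : Measure X) [IsProbabilityMeasure μ]

theorem exists_bound (f : C_c(X, ℝ)) : ∃ M : ℝ≥0, ∀ y, |f y| ≤ M :=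
  ⟨‖f.toBoundedContinuousFunction‖₊, fun y => f.toBoundedContinuousFunction.norm_coe_le_norm y⟩

theorem exists_bump {V : Set X} (hV : IsOpen V) {r : ℝ} (hr : r < μ.real V) :
    ∃ ψ : C_c(X, ℝ), (∀ y, 0 ≤ ψ y) ∧ (∀ y, ψ y ≤ 1) ∧ (∀ y, y ∉ V → ψ y = 0) ∧
      r < ∫ y, ψ y ∂μ := by
  by_cases h0 : r < 0
  · exact ⟨0, by simp, by simp, by simp, by simpa using h0⟩
  have h1 : ENNReal.ofReal r < μ V := by
    rw [ENNReal.ofReal_lt_iff_lt_toReal (not_lt.1 h0) (measure_ne_top _ _)]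
    exact hr
  obtain ⟨K, hKV, hK, hrK⟩ := hV.exists_lt_isCompact h1
  obtain ⟨f, hf1, hf2, hf3, hf4⟩ := exists_continuousMap_one_of_isCompact_subset_isOpen hK hV hKV
  refine ⟨⟨f, hasCompactSupport_def.mpr hf2⟩, fun y => (hf4 y).1, fun y => (hf4 y).2,
    fun y hy => image_eq_zero_of_notMem_tsupport fun h => hy (hf3 h), ?_⟩
  rw [ENNReal.ofReal_lt_iff_lt_toReal (not_lt.1 h0) (measure_ne_top _ _)] at hrK
  refine hrK.trans_le ?_
  have hint : Integrable f μ := f.continuous.integrable_of_hasCompactSupport hf2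
  calc (μ K).toReal = ∫ y, K.indicator 1 y ∂μ := (integral_indicator_one hK.measurableSet).symm
    _ ≤ ∫ y, f y ∂μ := by
      refine integral_mono ((integrable_const (1 : ℝ)).indicator hK.measurableSet) hint fun y => ?_
      by_cases hy : y ∈ K
      · simp [hy, hf1 hy]
      · simp [hy, (hf4 y).1]

theorem arc_sub_const {f : X → ℝ} (hf : Continuous f) (c : ℝ) (x : X) (t : ℝ) :
    arc x t (fun y => f y - c) = arc x t f - c := by
  unfold arc
  rw [intervalIntegral.integral_sub ((continuous_path hf x t).intervalIntegrable _ _)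
    (continuous_const.intervalIntegrable _ _)]
  simp

theorem arc_const_sub {f : X → ℝ} (hf : Continuous f) (c : ℝ) (x : X) (t : ℝ) :
    arc x t (fun y => c - f y) = c - arc x t f := by
  unfold arc
  rw [intervalIntegral.integral_sub (continuous_const.intervalIntegrable _ _)
    ((continuous_path hf x t).intervalIntegrable _ _)]
  simp

theorem arc_neg (f : X → ℝ) (x : X) (t : ℝ) : arc x t (fun y => - f y) = - arc x t f := by
  unfold arc
  rw [intervalIntegral.integral_neg]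

theorem abs_arc_le {f : X → ℝ} {M : ℝ} (hM : ∀ y, |f y| ≤ M) (x : X) (t : ℝ) :
    |arc x t f| ≤ M := by
  have := intervalIntegral.norm_integral_le_of_norm_le_const (a := 0) (b := 1)
    (f := fun s => f (geo t • hor s • x)) (C := M) fun r _ => hM _
  simpa [arc] using this

theorem abs_arc_sub_le {f g : X → ℝ} (hf : Continuous f) (hg : Continuous g) {M : ℝ}
    (hM : ∀ y, |f y - g y| ≤ M) (x : X) (t : ℝ) : |arc x t f - arc x t g| ≤ M := by
  have := abs_arc_le (f := fun y => f y - g y) hM x t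
  unfold arc at this ⊢
  rwa [intervalIntegral.integral_sub ((continuous_path hf x t).intervalIntegrable _ _)
    ((continuous_path hg x t).intervalIntegrable _ _)] at this

theorem integrable_arc (ρ : Measure X) [IsFiniteMeasure ρ] {f : X → ℝ} (hf : Continuous f) {M : ℝ}
    (hM : ∀ y, |f y| ≤ M) (t : ℝ) : Integrable (fun x => arc x t f) ρ :=
  Integrable.of_bound (continuous_arc hf t).aestronglyMeasurable M
    (Eventually.of_forall fun x => abs_arc_le hM x t)

theorem integral_arc_swap (ρ : Measure X) [IsFiniteMeasure ρ] {f : X → ℝ} (hf : Continuous f)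
    {M : ℝ} (hM : ∀ y, |f y| ≤ M) (t : ℝ) :
    ∫ x, arc x t f ∂ρ = ∫ s in Ioc (0 : ℝ) 1, ∫ x, f (geo t • hor s • x) ∂ρ := by
  unfold arc
  simp_rw [intervalIntegral.integral_of_le zero_le_one]
  refine integral_integral_swap ?_
  refine Integrable.of_bound (Continuous.aestronglyMeasurable ?_) M
    (Eventually.of_forall fun p => hM _)
  exact hf.comp (((continuous_hor.comp continuous_snd).smul continuous_fst).const_smul _)

theorem integral_arc [SMulInvariantMeasure SL(2, ℝ) X μ] {f : X → ℝ} (hf : Continuous f)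
    {M : ℝ} (hM : ∀ y, |f y| ≤ M) (t : ℝ) : ∫ x, arc x t f ∂μ = ∫ x, f x ∂μ := by
  rw [integral_arc_swap μ hf hM]
  have : ∀ s : ℝ, ∫ x, f (geo t • hor s • x) ∂μ = ∫ x, f x ∂μ := by
    intro s
    simp_rw [← mul_smul]
    exact integral_smul_eq_self f
  simp [this]

theorem core [ErgodicSMul SL(2, ℝ) X μ] [μ.IsOpenPosMeasure] {W : Set X} (hW : IsOpen W)
    (hne : W.Nonempty) (T : ℝ) {η : ℝ} (hη : 0 < η) :
    ∃ ψ : C_c(X, ℝ), (∀ y, 0 ≤ ψ y) ∧ (∀ y, ψ y ≤ 1) ∧ 1 - η < ∫ y, ψ y ∂μ ∧ ∃ T' : ℝ,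
      ∀ (φ : X → ℝ) (M : ℝ≥0), Continuous φ → (∀ y, |φ y| ≤ M) →
        (∀ y ∈ W, ∀ t, T ≤ t → arc y t φ ≤ 0) →
        ∀ (x : X) (τ t : ℝ), T' ≤ τ → τ + T' ≤ t → arc x t φ ≤ M * (1 - arc x τ ψ + η) := by
  obtain ⟨N, hN⟩ := exists_visit μ hW hne hη
  obtain ⟨ψ, h0, h1, h2, h3⟩ := exists_bump μ (isOpen_visit hW N) hN
  refine ⟨ψ, h0, h1, h3, max (N + T) (-Real.log η / 2), ?_⟩
  intro φ M hφ hM hφW x τ t hτ ht
  have h4 := cover hφ hM hφW (map_continuous ψ) h1 h2 x (τ := τ) (t := t)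
    (by have := le_max_left (N + T) (-Real.log η / 2); linarith)
  refine h4.trans (mul_le_mul_of_nonneg_left ?_ M.coe_nonneg)
  have h5 : Real.exp (-2 * τ) ≤ η := by
    rw [← Real.exp_log hη]
    refine Real.exp_le_exp.2 ?_
    have := le_max_right (N + T) (-Real.log η / 2)
    linarith
  change 1 - arc x τ ψ + Real.exp (-2 * τ) ≤ _
  linarith

theorem local_of_not_meagre
    (hG : ¬ IsMeagre {x : X | Equidistributes μ x}) (f : C_c(X, ℝ)) {ε : ℝ} (hε : 0 < ε) :
    ∃ W : Set X, IsOpen W ∧ W.Nonempty ∧ ∃ T : ℝ, ∀ y ∈ W, ∀ t : ℝ, T ≤ t →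
      |arc y t f - ∫ y, f y ∂μ| ≤ ε := by
  set c := ∫ y, f y ∂μ with hc
  let C : ℕ → Set X := fun n => {y | ∀ t : ℝ, (n : ℝ) ≤ t → |arc y t f - c| ≤ ε}
  have hCc : ∀ n, IsClosed (C n) := by
    intro n
    have : C n = ⋂ t : ℝ, ⋂ _ : (n : ℝ) ≤ t, {y | |arc y t f - c| ≤ ε} := by
      ext y; simp [C]
    rw [this]
    exact isClosed_iInter fun t => isClosed_iInter fun _ =>
      isClosed_le ((continuous_arc (map_continuous f) t).sub continuous_const).abs continuous_const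
  have hsub : {x : X | Equidistributes μ x} ⊆ ⋃ n, C n := by
    intro x hx
    have h1 := (Metric.tendsto_atTop.1 (hx f)) ε hε
    obtain ⟨T, hT⟩ := h1
    obtain ⟨n, hn⟩ := exists_nat_ge T
    exact mem_iUnion.2 ⟨n, fun t ht => (hT t (hn.trans ht)).le⟩
  obtain ⟨n, hn⟩ : ∃ n, (interior (C n)).Nonempty := by
    by_contra hcon
    push Not at hcon
    exact hG ((isMeagre_iUnion fun n =>
      ((hCc n).isNowhereDense_iff.2 (hcon n)).isMeagre).mono hsub)
  exact ⟨_, isOpen_interior, hn, n, fun y hy => interior_subset hy⟩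

theorem local_of_dense {S : Set X} (hS : Dense S) {f : X → ℝ} (hf : Continuous f) {c ε T : ℝ}
    {W : Set X} (hW : IsOpen W) (h : ∀ y ∈ W ∩ S, ∀ t : ℝ, T ≤ t → |arc y t f - c| ≤ ε) :
    ∀ y ∈ W, ∀ t : ℝ, T ≤ t → |arc y t f - c| ≤ ε := by
  intro y hy t ht
  have hcl : IsClosed {z : X | |arc z t f - c| ≤ ε} :=
    isClosed_le ((continuous_arc hf t).sub continuous_const).abs continuous_const
  exact hcl.closure_subset_iff.2 (fun z hz => h z hz t ht) (hS.open_subset_closure_inter hW hy)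

theorem stable_of_local [ErgodicSMul SL(2, ℝ) X μ] [μ.IsOpenPosMeasure]
    (f : C_c(X, ℝ)) {ε : ℝ} (hε : 0 < ε) {W : Set X} (hW : IsOpen W) (hn : W.Nonempty) {n : ℝ}
    (hWf : ∀ y ∈ W, ∀ t : ℝ, n ≤ t → |arc y t f - ∫ y, f y ∂μ| ≤ ε / 4) :
    ∃ ψ : C_c(X, ℝ), (∀ y, 0 ≤ ψ y) ∧ (∀ y, ψ y ≤ 1) ∧ ∃ M : ℝ, 0 ≤ M ∧
      M * (1 - ∫ y, ψ y ∂μ) ≤ ε / 4 ∧ ∃ T : ℝ, ∀ (x : X) (τ t : ℝ), T ≤ τ → τ + T ≤ t →
        |arc x t f - ∫ y, f y ∂μ| ≤ ε / 2 + M * (1 - arc x τ ψ) := by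
  set c := ∫ y, f y ∂μ with hc
  obtain ⟨B, hB⟩ := exists_bound f
  set M : ℝ≥0 := B + ‖c‖₊ + ‖ε / 4‖₊ with hM
  have hMe : (M : ℝ) = B + |c| + ε / 4 := by
    simp only [hM, NNReal.coe_add, coe_nnnorm, Real.norm_eq_abs]
    rw [abs_of_pos (by linarith : 0 < ε / 4)]
  have hMpos : (0 : ℝ) < M := by
    have := B.coe_nonneg
    have := abs_nonneg c
    linarith
  obtain ⟨ψ, h0, h1, h2, T', hT'⟩ := core μ hW hn n
    (η := ε / 4 / M) (by positivity)
  have hMη : (M : ℝ) * (ε / 4 / M) = ε / 4 := by field_simp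
  refine ⟨ψ, h0, h1, M, hMpos.le, ?_, T', fun x τ t hτ ht => ?_⟩
  · rw [← hMη]
    exact mul_le_mul_of_nonneg_left (by linarith) hMpos.le
  have ha := hT' (fun y => f y - (c + ε / 4)) M ((map_continuous f).sub continuous_const)
    (fun y => by
      have := hB y
      rw [hMe, abs_le] at *
      constructor <;> linarith [le_abs_self c, neg_abs_le c])
    (fun y hy t ht => by
      rw [arc_sub_const (map_continuous f)]
      have := (abs_le.1 (hWf y hy t ht)).2
      linarith) x τ t hτ ht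
  have hb := hT' (fun y => (c - ε / 4) - f y) M (continuous_const.sub (map_continuous f))
    (fun y => by
      have := hB y
      rw [hMe, abs_le] at *
      constructor <;> linarith [le_abs_self c, neg_abs_le c])
    (fun y hy t ht => by
      rw [arc_const_sub (map_continuous f)]
      have := (abs_le.1 (hWf y hy t ht)).1
      linarith) x τ t hτ ht
  rw [arc_sub_const (map_continuous f), mul_add, hMη] at ha
  rw [arc_const_sub (map_continuous f), mul_add, hMη] at hb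
  rw [abs_le]
  constructor <;> linarith

theorem stable_of_not_meagre [ErgodicSMul SL(2, ℝ) X μ] [μ.IsOpenPosMeasure]
    (hG : ¬ IsMeagre {x : X | Equidistributes μ x}) (f : C_c(X, ℝ)) {ε : ℝ} (hε : 0 < ε) :
    ∃ ψ : C_c(X, ℝ), (∀ y, 0 ≤ ψ y) ∧ (∀ y, ψ y ≤ 1) ∧ ∃ M : ℝ, 0 ≤ M ∧
      M * (1 - ∫ y, ψ y ∂μ) ≤ ε / 4 ∧ ∃ T : ℝ, ∀ (x : X) (τ t : ℝ), T ≤ τ → τ + T ≤ t →
        |arc x t f - ∫ y, f y ∂μ| ≤ ε / 2 + M * (1 - arc x τ ψ) := by
  obtain ⟨W, hW, hn, T, h⟩ := local_of_not_meagre μ hG f (ε := ε / 4) (by linarith)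
  exact stable_of_local μ f hε hW hn h

theorem dense_acc [ErgodicSMul SL(2, ℝ) X μ] [μ.IsOpenPosMeasure] (f : C_c(X, ℝ)) {δ : ℝ}
    (hδ : 0 < δ) (T : ℝ) :
    {x : X | ∃ τ : ℝ, T ≤ τ ∧ (∫ y, f y ∂μ) - δ < arc x τ f} ∈ residual X := by
  set c := ∫ y, f y ∂μ with hc
  refine residual_of_dense_open ?_ ?_
  · have : {x : X | ∃ τ : ℝ, T ≤ τ ∧ c - δ < arc x τ f}
        = ⋃ τ : ℝ, ⋃ _ : T ≤ τ, {x | c - δ < arc x τ f} := by
      ext x; simp
    rw [this]
    exact isOpen_iUnion fun τ => isOpen_iUnion fun _ =>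
      isOpen_lt continuous_const (continuous_arc (map_continuous f) τ)
  rw [dense_iff_inter_open]
  intro W hW hne
  by_contra hcon
  have hWle : ∀ y ∈ W, ∀ t, T ≤ t → arc y t f ≤ c - δ := by
    intro y hy t ht
    by_contra h
    exact hcon ⟨y, hy, t, ht, not_le.1 h⟩
  obtain ⟨B, hB⟩ := exists_bound f
  set M : ℝ≥0 := B + ‖c‖₊ + ‖δ‖₊ with hM
  have hMe : (M : ℝ) = B + |c| + δ := by
    simp only [hM, NNReal.coe_add, coe_nnnorm, Real.norm_eq_abs]
    rw [abs_of_pos hδ]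
  have hMpos : (0 : ℝ) < M := by
    have := B.coe_nonneg
    have := abs_nonneg c
    linarith
  obtain ⟨ψ, h0, h1, h2, T', hT'⟩ := core μ hW hne T (η := δ / 4 / M) (by positivity)
  have hMη : (M : ℝ) * (δ / 4 / M) = δ / 4 := by field_simp
  have hφM : ∀ y, |f y - (c - δ)| ≤ M := fun y => by
    have := hB y
    rw [hMe, abs_le] at *
    constructor <;> linarith [le_abs_self c, neg_abs_le c]
  have ha := fun x => hT' (fun y => f y - (c - δ)) M ((map_continuous f).sub continuous_const) hφM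
    (fun y hy t ht => by
      rw [arc_sub_const (map_continuous f)]
      have := hWle y hy t ht
      linarith) x T' (T' + T') le_rfl le_rfl
  have hψ1 : ∀ y, |ψ y| ≤ 1 := fun y => by rw [abs_of_nonneg (h0 y)]; exact h1 y
  have hφc : Continuous fun y => f y - (c - δ) := (map_continuous f).sub continuous_const
  have hi1 := integrable_arc μ (map_continuous ψ) hψ1 T'
  have hi2 : Integrable (fun x => 1 - arc x T' ψ) μ := (integrable_const (1 : ℝ)).sub hi1
  have hi3 : Integrable (fun x => 1 - arc x T' ψ + δ / 4 / M) μ := hi2.add (integrable_const _)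
  have hi := integral_mono (μ := μ) (integrable_arc μ hφc hφM (T' + T')) (hi3.const_mul (M : ℝ)) ha
  rw [integral_arc μ hφc hφM, integral_sub f.integrable (integrable_const _), integral_const_mul,
    integral_add hi2 (integrable_const _), integral_sub (integrable_const _) hi1,
    integral_arc μ (map_continuous ψ) hψ1] at hi
  simp only [integral_const, probReal_univ, one_smul] at hi
  have h3 : (M : ℝ) * (1 - ∫ y, ψ y ∂μ) ≤ M * (δ / 4 / M) :=
    mul_le_mul_of_nonneg_left (by linarith) hMpos.le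
  rw [mul_add] at hi
  linarith

theorem exists_countable_dense_cc :
    ∃ D : Set C_c(X, ℝ), D.Countable ∧ ∀ f : C_c(X, ℝ), ∀ ε : ℝ, 0 < ε →
      ∃ g ∈ D, ∀ y, |f y - g y| ≤ ε := by
  let K := CompactExhaustion.choice X
  have key : ∀ n : ℕ, ∃ D : Set C_c(X, ℝ), D.Countable ∧ ∀ f : C_c(X, ℝ), tsupport f ⊆ K n →
      ∀ ε : ℝ, 0 < ε → ∃ g ∈ D, ∀ y, |f y - g y| ≤ ε := by
    intro n
    have : CompactSpace (K n) := isCompact_iff_compactSpace.1 (K.isCompact n)
    let r : C_c(X, ℝ) → C(K n, ℝ) := fun f => f.toContinuousMap.restrict (K n)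
    let S : Set C_c(X, ℝ) := {f | tsupport f ⊆ K n}
    obtain ⟨t, hts, htc, hst⟩ :=
      (TopologicalSpace.IsSeparable.of_separableSpace (r '' S)).exists_countable_dense_subset
    have hts' : ∀ b ∈ t, ∃ g : C_c(X, ℝ), tsupport g ⊆ K n ∧ r g = b := fun b hb => hts hb
    choose! p hpS hpr using hts'
    refine ⟨p '' t, htc.image p, fun f hf ε hε => ?_⟩
    obtain ⟨b, hb, hd⟩ := Metric.mem_closure_iff.1 (hst ⟨f, hf, rfl⟩) ε hε
    refine ⟨p b, ⟨b, hb, rfl⟩, fun y => ?_⟩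
    by_cases hy : y ∈ K n
    · rw [← hpr b hb] at hd
      exact (ContinuousMap.dist_apply_le_dist (f := r f) (g := r (p b)) ⟨y, hy⟩).trans hd.le
    · rw [image_eq_zero_of_notMem_tsupport fun h => hy (hf h),
        image_eq_zero_of_notMem_tsupport fun h => hy (hpS b hb h)]
      simpa using hε.le
  choose D hD hD' using key
  refine ⟨⋃ n, D n, countable_iUnion hD, fun f ε hε => ?_⟩
  obtain ⟨n, hn⟩ := K.exists_superset_of_isCompact f.hasCompactSupport
  obtain ⟨g, hg, h⟩ := hD' n f hn ε hε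
  exact ⟨g, mem_iUnion.2 ⟨n, hg⟩, h⟩

theorem acc_residual [ErgodicSMul SL(2, ℝ) X μ] [μ.IsOpenPosMeasure] :
    {x : X | Accumulates μ x} ∈ residual X := by
  obtain ⟨D, hD, hD'⟩ := exists_countable_dense_cc (X := X)
  have h1 : ∀ᶠ x in residual X, ∀ g ∈ D, ∀ m : ℕ, ∀ T : ℕ,
      ∃ τ : ℝ, (T : ℝ) ≤ τ ∧ (∫ y, g y ∂μ) - 1 / ((m : ℝ) + 1) < arc x τ g := by
    refine (eventually_countable_ball hD).2 fun g _ => ?_
    refine eventually_countable_forall.2 fun m => eventually_countable_forall.2 fun T => ?_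
    exact dense_acc μ g (by positivity) T
  filter_upwards [h1] with x hx f δ hδ T
  obtain ⟨g, hg, hfg⟩ := hD' f (δ / 3) (by linarith)
  obtain ⟨m, hm⟩ := exists_nat_one_div_lt (by linarith : 0 < δ / 3)
  obtain ⟨n, hn⟩ := exists_nat_ge T
  obtain ⟨τ, hτ, h⟩ := hx g hg m n
  refine ⟨τ, hn.trans hτ, ?_⟩
  have h2 := abs_le.1 (abs_arc_sub_le (map_continuous f) (map_continuous g) hfg x τ)
  have h3 : |(∫ y, f y ∂μ) - ∫ y, g y ∂μ| ≤ δ / 3 := by
    rw [← integral_sub f.integrable g.integrable]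
    have := norm_integral_le_of_norm_le_const (μ := μ) (f := fun y => f y - g y) (C := δ / 3)
      (Eventually.of_forall hfg)
    simpa using this
  have h4 := abs_le.1 h3
  change _ < arc x τ f
  change -(δ / 3) ≤ arc x τ f - arc x τ g ∧ _ at h2
  linarith [h2.1, h4.2]

end Pool.Agent.Lib.MP_3615e3_an
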