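import Pool.Agent.Lib.MP_3615e3_an.Bar1
import Pool.Agent.Lib.MP_3615e3_an.Main

/-! Thin neighbourhoods of horocycle arcs and the bump functions along them. -/

open MeasureTheory Filter Topology Set
open scoped MatrixGroups CompactlySupported ENNReal

namespace Pool.Agent.Lib.MP_3615e3_an.Bar

open Pool.Agent.Lib.MP_3615e3_an

section alg

variable {S : Type*} [MulAction SL(2, ℝ) S]

/-- The points reached from `C` by group elements of length at most `ρ`. -/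
def nb (ρ : ℝ) (C : Set S) : Set S := {y | ∃ b c, len b ≤ ρ ∧ c ∈ C ∧ y = b • c}

/-- Short returns to `C` stay near the horocycle group. -/
def Sep (R : ℝ) (C : Set S) : Prop :=
  ∀ y ∈ C, ∀ g, len g ≤ R → g • y ∈ C → Real.exp (-1) ≤ cn g ∧ cn g ≤ Real.exp 1

/-- One-Lipschitz along the group. -/
def Lip (f : S → ℝ) : Prop := ∀ (h : SL(2, ℝ)) (y : S), f (h • y) ≤ f y + len h

theorem nb_mono {ρ ρ' : ℝ} (h : ρ ≤ ρ') (C : Set S) : nb ρ C ⊆ nb ρ' C := by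
  rintro y ⟨b, c, hb, hc, rfl⟩
  exact ⟨b, c, hb.trans h, hc, rfl⟩

theorem nb_of_smul {ρ ρ' : ℝ} {C : Set S} {h : SL(2, ℝ)} {y : S} (hh : len h ≤ ρ')
    (hy : h • y ∈ nb ρ C) : y ∈ nb (ρ' + ρ) C := by
  obtain ⟨b, c, hb, hc, e⟩ := hy
  refine ⟨h⁻¹ * b, c, (len_mul _ _).trans ?_, hc, ?_⟩
  · rw [len_inv]
    linarith
  · rw [mul_smul, ← e, inv_smul_smul]

theorem window {R L ρ : ℝ} {C : Set S} (hS : Sep R C) (hR : L + 2 * ρ ≤ R) (y : S) (τ : ℝ) :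
    volume {t : ℝ | t ∈ Icc τ (τ + L) ∧ geo t • y ∈ nb ρ C} ≤
      ENNReal.ofReal (2 * (ρ + 1)) + ENNReal.ofReal (2 * (ρ + 1)) := by
  rcases eq_empty_or_nonempty {t : ℝ | t ∈ Icc τ (τ + L) ∧ geo t • y ∈ nb ρ C} with h | h
  · rw [h]
    simp
  obtain ⟨t₀, ht₀, b₀, c₀, hb₀, hc₀, e₀⟩ := h
  refine le_trans (measure_mono ?_) (strip (geo (-t₀) * b₀) (ρ + 1))
  rintro t ⟨ht, b, c, hb, hc, e⟩
  have hy : y = geo (-t₀) • b₀ • c₀ := by rw [← e₀, ← geo_inv, inv_smul_smul]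
  have hg : (b⁻¹ * (geo t * (geo (-t₀) * b₀))) • c₀ = c := by
    rw [mul_smul, mul_smul, mul_smul, ← hy, e, inv_smul_smul]
  have hl : len (b⁻¹ * (geo t * (geo (-t₀) * b₀))) ≤ R := by
    rw [← mul_assoc (geo t), ← geo_add]
    have h1 := len_mul b⁻¹ (geo (t + -t₀) * b₀)
    have h2 := len_mul (geo (t + -t₀)) b₀
    have h3 := len_geo (t + -t₀)
    have h4 : |t + -t₀| ≤ L := abs_le.2 ⟨by linarith [ht.1, ht₀.2], by linarith [ht.2, ht₀.1]⟩
    rw [len_inv] at h1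
    linarith
  obtain ⟨h1, h2⟩ := hS c₀ hc₀ _ hl (hg ▸ hc)
  have nb1 : nrm b ≤ Real.exp ρ := (nrm_le_exp b).trans (Real.exp_le_exp.2 hb)
  have nb2 : nrm b⁻¹ ≤ Real.exp ρ :=
    (nrm_le_exp _).trans (Real.exp_le_exp.2 (by rwa [len_inv]))
  constructor
  · have h3 := h1.trans (cn_mul _ _)
    have h4 := h3.trans (mul_le_mul_of_nonneg_right nb2 (cn_nonneg _))
    have h5 : Real.exp (-(ρ + 1)) * Real.exp ρ = Real.exp (-1) := by
      rw [← Real.exp_add]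
      congr 1
      ring
    have h6 := Real.exp_pos ρ
    nlinarith
  · have h3 := cn_mul b (b⁻¹ * (geo t * (geo (-t₀) * b₀)))
    rw [mul_inv_cancel_left] at h3
    refine h3.trans ?_
    rw [Real.exp_add]
    exact mul_le_mul nb1 h2 (cn_nonneg _) (Real.exp_pos _).le

theorem windows {R L ρ : ℝ} {C : Set S} (hS : Sep R C) (hR : L + 2 * ρ ≤ R) (y : S) (k : ℕ) :
    volume {t : ℝ | t ∈ Ioc 0 (k * L) ∧ geo t • y ∈ nb ρ C} ≤
      k * (ENNReal.ofReal (2 * (ρ + 1)) + ENNReal.ofReal (2 * (ρ + 1))) := by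
  induction k with
  | zero => simp
  | succ k ih =>
    have hsub : {t : ℝ | t ∈ Ioc 0 (((k + 1 : ℕ) : ℝ) * L) ∧ geo t • y ∈ nb ρ C} ⊆
        {t : ℝ | t ∈ Ioc 0 (k * L) ∧ geo t • y ∈ nb ρ C} ∪
          {t : ℝ | t ∈ Icc (k * L) (k * L + L) ∧ geo t • y ∈ nb ρ C} := by
      rintro t ⟨⟨h1, h2⟩, h3⟩
      rcases le_total t (k * L) with h | h
      · exact Or.inl ⟨⟨h1, h⟩, h3⟩
      · refine Or.inr ⟨⟨h, ?_⟩, h3⟩
        push_cast at h2
        linarith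
    refine (measure_mono hsub).trans ((measure_union_le _ _).trans ?_)
    refine (add_le_add ih (window hS hR y _)).trans (le_of_eq ?_)
    push_cast
    ring

end alg

variable {S : Type*} [TopologicalSpace S] [MulAction SL(2, ℝ) S] [ContinuousSMul SL(2, ℝ) S]

theorem isCompact_nb (ρ : ℝ) {C : Set S} (hC : IsCompact C) : IsCompact (nb ρ C) := by
  have h := ((isCompact_ball ρ).prod hC).image
    (continuous_smul : Continuous fun p : SL(2, ℝ) × S => p.1 • p.2)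
  convert h using 1
  ext y
  constructor
  · rintro ⟨b, c, hb, hc, rfl⟩
    exact ⟨(b, c), ⟨hb, hc⟩, rfl⟩
  · rintro ⟨⟨b, c⟩, ⟨hb, hc⟩, rfl⟩
    exact ⟨b, c, hb, hc, rfl⟩

/-- Spreading a thin bump along the group. -/
theorem exists_spread (χ : C(S, ℝ)) (hχ : ∀ y, χ y ∈ Icc (0 : ℝ) 1) (C : Set S)
    (hC : ∀ y, χ y ≠ 0 → y ∈ C) :
    ∃ f : C(S, ℝ), (∀ y, f y ∈ Icc (0 : ℝ) 1) ∧ Lip f ∧ (∀ y, f y ≠ 0 → y ∈ nb 1 C) ∧
      ∀ y, χ y ≤ f y := by
  let F : S → SL(2, ℝ) → ℝ := fun y g => (1 - len g) * χ (g⁻¹ • y)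
  have hF : Continuous ↿F :=
    (continuous_const.sub (continuous_len.comp continuous_snd)).mul
      (χ.continuous.comp (continuous_snd.inv.smul continuous_fst))
  have h1 : (1 : SL(2, ℝ)) ∈ ball 1 := by
    show len 1 ≤ 1
    rw [len_one]
    exact zero_le_one
  have hle : ∀ y g, F y g ≤ 1 := by
    intro y g
    have a := hχ (g⁻¹ • y)
    have b := len_nonneg g
    show (1 - len g) * χ (g⁻¹ • y) ≤ 1
    nlinarith [a.1, a.2]
  have hbd : ∀ y, BddAbove (F y '' ball 1) := fun y => ⟨1, by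
    rintro _ ⟨g, -, rfl⟩
    exact hle y g⟩
  have hne : ∀ y, (F y '' ball 1).Nonempty := fun y => ⟨_, 1, h1, rfl⟩
  have hχle : ∀ y, χ y ≤ sSup (F y '' ball 1) := by
    intro y
    refine le_trans (le_of_eq ?_) (le_csSup (hbd y) ⟨1, h1, rfl⟩)
    show χ y = (1 - len 1) * χ ((1 : SL(2, ℝ))⁻¹ • y)
    rw [len_one, inv_one, one_smul]
    ring
  refine ⟨⟨fun y => sSup (F y '' ball 1), (isCompact_ball 1).continuous_sSup hF⟩, ?_, ?_, ?_, hχle⟩
  · intro y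
    refine ⟨(hχ y).1.trans (hχle y), csSup_le (hne y) ?_⟩
    rintro _ ⟨g, -, rfl⟩
    exact hle y g
  · intro h y
    refine csSup_le (hne _) ?_
    rintro _ ⟨g, hg, rfl⟩
    show (1 - len g) * χ (g⁻¹ • h • y) ≤ sSup (F y '' ball 1) + len h
    have e : g⁻¹ • h • y = (h⁻¹ * g)⁻¹ • y := by rw [mul_inv_rev, inv_inv, mul_smul]
    have a := hχ ((h⁻¹ * g)⁻¹ • y)
    have b := len_mul h⁻¹ g
    rw [len_inv] at b
    have c := len_nonneg h
    rw [e]
    by_cases hb : len (h⁻¹ * g) ≤ 1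
    · have d : (1 - len (h⁻¹ * g)) * χ ((h⁻¹ * g)⁻¹ • y) ≤ sSup (F y '' ball 1) :=
        le_csSup (hbd y) ⟨h⁻¹ * g, hb, rfl⟩
      nlinarith [a.1, a.2]
    · have d : 0 ≤ sSup (F y '' ball 1) := (hχ y).1.trans (hχle y)
      push Not at hb
      nlinarith [a.1, a.2]
  · intro y hy
    by_contra hn
    apply hy
    refine le_antisymm (csSup_le (hne y) ?_) ((hχ y).1.trans (hχle y))
    rintro _ ⟨g, hg, rfl⟩
    have : χ (g⁻¹ • y) = 0 := by
      by_contra h0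
      exact hn ⟨g, g⁻¹ • y, hg, hC _ h0, (smul_inv_smul g y).symm⟩
    show (1 - len g) * χ (g⁻¹ • y) ≤ 0
    rw [this, mul_zero]

theorem exists_sep [T2Space S] {s₀ : S} (hst : ∀ g : SL(2, ℝ), g • s₀ = s₀ → g = 1 ∨ g = -1)
    (t R : ℝ) {A : Set S} (hA : IsCompact A) (hA' : ∀ y ∈ A, ∃ s, y = geo t • hor s • s₀) :
    ∃ W, IsOpen W ∧ A ⊆ W ∧ Sep R W := by
  let B : Set SL(2, ℝ) := ball R ∩ {g | cn g ≤ Real.exp (-1) ∨ Real.exp 1 ≤ cn g}
  have hB : IsCompact B := (isCompact_ball R).inter_right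
    ((isClosed_le continuous_cn continuous_const).union (isClosed_le continuous_const continuous_cn))
  have hO : IsOpen {p : SL(2, ℝ) × (S × S) | p.1 • p.2.1 ≠ p.2.2} :=
    isOpen_ne_fun (continuous_fst.smul (continuous_fst.comp continuous_snd))
      (continuous_snd.comp continuous_snd)
  have hsub : B ×ˢ (A ×ˢ A) ⊆ {p : SL(2, ℝ) × (S × S) | p.1 • p.2.1 ≠ p.2.2} := by
    rintro ⟨g, y, y'⟩ ⟨hg, hy, hy'⟩ e
    obtain ⟨s, rfl⟩ := hA' y hy
    obtain ⟨s', e'⟩ := hA' y' hy'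
    dsimp only at e e'
    have h1 : ((geo t * hor s')⁻¹ * g * (geo t * hor s)) • s₀ = s₀ := by
      rw [mul_smul, mul_smul, mul_smul (geo t), e, e', ← mul_smul (geo t), inv_smul_smul]
    have h2 := cn_arc t s s' _ (hst _ h1)
    have h3 : geo t * hor s' * ((geo t * hor s')⁻¹ * g * (geo t * hor s)) * (geo t * hor s)⁻¹ = g := by
      group
    rw [h3] at h2
    have h4 : Real.exp (-1) < 1 := Real.exp_lt_one_iff.2 (by norm_num)
    have h5 : 1 < Real.exp 1 := Real.one_lt_exp_iff.2 one_pos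
    rcases hg.2 with h | h <;> linarith
  obtain ⟨u, v, -, hv, hBu, hAv, huv⟩ := generalized_tube_lemma hB (hA.prod hA) hO hsub
  obtain ⟨w₁, w₂, hw₁, hw₂, hA₁, hA₂, hw⟩ := generalized_tube_lemma hA hA hv hAv
  refine ⟨w₁ ∩ w₂, hw₁.inter hw₂, subset_inter hA₁ hA₂, fun y hy g hg hgy => ?_⟩
  by_contra hc
  have hgB : g ∈ B := by
    refine ⟨hg, ?_⟩
    by_contra h
    apply hc
    simp only [mem_setOf_eq, not_or, not_le] at h
    exact ⟨h.1.le, h.2.le⟩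
  exact huv (a := (g, y, g • y)) ⟨hBu hgB, hw ⟨hy.1, hgy.2⟩⟩ rfl

variable [T2Space S] [LocallyCompactSpace S] [SecondCountableTopology S] [MeasurableSpace S]
  [BorelSpace S]

theorem exists_thin (μ : Measure S) [IsFiniteMeasure μ] (R : ℝ) {A : Set S} (hA : IsCompact A)
    (h0 : μ (nb R A) = 0) {η : ℝ≥0∞} (hη : 0 < η) :
    ∃ W, IsOpen W ∧ A ⊆ W ∧ μ (nb R W) < η := by
  obtain ⟨U, hU, hUo, hUμ⟩ := (nb R A).exists_isOpen_lt_of_lt η (h0 ▸ hη)
  have hO : IsOpen {p : SL(2, ℝ) × S | p.1 • p.2 ∈ U} := hUo.preimage continuous_smul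
  obtain ⟨u, v, -, hv, hBu, hAv, huv⟩ := generalized_tube_lemma (isCompact_ball R) hA hO
    (fun p hp => hU ⟨p.1, p.2, hp.1, hp.2, rfl⟩)
  refine ⟨v, hv, hAv, lt_of_le_of_lt (measure_mono ?_) hUμ⟩
  rintro y ⟨b, c, hb, hc, rfl⟩
  exact huv (a := (b, c)) ⟨hBu hb, hc⟩

/-- One level of the construction. -/
theorem exists_level (μ : Measure S) [IsProbabilityMeasure μ] {s₀ : S}
    (hst : ∀ g : SL(2, ℝ), g • s₀ = s₀ → g = 1 ∨ g = -1)
    (hnull : μ (MulAction.orbit SL(2, ℝ) s₀) = 0) (hacc : Accumulates μ s₀)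
    (χ₀ : C_c(S, ℝ)) (hχ₀ : ∀ y, χ₀ y ∈ Icc (0 : ℝ) 1) (hχ₁ : 7 / 8 < ∫ y, χ₀ y ∂μ)
    {Z : Set S} (hZ : IsCompact Z) (hZμ : μ Z < 8⁻¹) {η : ℝ≥0∞} (hη : 0 < η) (R T : ℝ) :
    ∃ (t : ℝ) (C : Set S) (f : C(S, ℝ)), T ≤ t ∧ IsCompact C ∧ C ⊆ tsupport χ₀ ∧ Disjoint C Z ∧
      μ (nb R C) < η ∧ Sep R C ∧ (∀ y, f y ∈ Icc (0 : ℝ) 1) ∧ Lip f ∧
      (∀ y, f y ≠ 0 → y ∈ nb 1 C) ∧ 1 / 2 < arc s₀ t f := by
  obtain ⟨U, hU, hUo, hUμ⟩ := Z.exists_isOpen_lt_of_lt _ hZμ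
  obtain ⟨ζ, hζ1, hζ0, hζc, hζ⟩ := exists_continuous_one_zero_of_isCompact hZ
    hUo.isClosed_compl (disjoint_compl_right_iff_subset.2 hU)
  have hζi : ∫ y, ζ y ∂μ ≤ 1 / 8 := by
    have h1 : ∫ y, ζ y ∂μ ≤ ∫ y, U.indicator (fun _ => (1 : ℝ)) y ∂μ := by
      refine integral_mono (ζ.continuous.integrable_of_hasCompactSupport hζc)
        ((integrable_const _).indicator hUo.measurableSet) fun y => ?_
      by_cases hy : y ∈ U
      · rw [indicator_of_mem hy]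
        exact (hζ y).2
      · rw [indicator_of_notMem hy]
        exact (hζ0 hy).le
    rw [integral_indicator_const _ hUo.measurableSet, smul_eq_mul, mul_one] at h1
    refine h1.trans ?_
    have h2 := ENNReal.toReal_mono (by simp) hUμ.le
    simpa [Measure.real] using h2
  let φ : C_c(S, ℝ) := χ₀ - ⟨ζ, hζc⟩
  have hφ : ∀ y, φ y = χ₀ y - ζ y := fun y => rfl
  have hφi : 3 / 4 < ∫ y, φ y ∂μ := by
    simp only [hφ]
    rw [integral_sub χ₀.integrable (ζ.continuous.integrable_of_hasCompactSupport hζc)]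
    linarith
  obtain ⟨t, ht, hta⟩ := hacc φ _ (sub_pos.2 hφi) T
  have hp : Continuous fun s : ℝ => geo t • hor s • s₀ :=
    (continuous_hor.smul continuous_const).const_smul _
  let J : Set ℝ := Icc 0 1 ∩ {s | 1 / 4 ≤ φ (geo t • hor s • s₀)}
  have hJ : IsCompact J :=
    isCompact_Icc.inter_right (isClosed_le continuous_const ((map_continuous φ).comp hp))
  let A : Set S := (fun s : ℝ => geo t • hor s • s₀) '' J
  have hA : IsCompact A := hJ.image hp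
  obtain ⟨W₁, hW₁, hA₁, hW₁μ⟩ := exists_thin μ R hA (η := η) (by
    refine measure_mono_null ?_ hnull
    rintro _ ⟨b, _, -, ⟨s, -, rfl⟩, rfl⟩
    exact ⟨b * (geo t * hor s), by simp only [mul_smul]⟩) hη
  obtain ⟨W₂, hW₂, hA₂, hW₂s⟩ := exists_sep hst t R hA (by
    rintro _ ⟨s, -, rfl⟩
    exact ⟨s, rfl⟩)
  have hW₃ : IsOpen ({y | 0 < χ₀ y} ∩ Zᶜ) :=
    (isOpen_lt continuous_const (map_continuous χ₀)).inter hZ.isClosed.isOpen_compl
  have hA₃ : A ⊆ {y | 0 < χ₀ y} ∩ Zᶜ := by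
    rintro _ ⟨s, hs, rfl⟩
    have h1 : 1 / 4 ≤ φ (geo t • hor s • s₀) := hs.2
    rw [hφ] at h1
    refine ⟨?_, fun hz => ?_⟩
    · have := (hζ (geo t • hor s • s₀)).1
      show 0 < χ₀ (geo t • hor s • s₀)
      linarith
    · have h2 : ζ (geo t • hor s • s₀) = 1 := hζ1 hz
      have := (hχ₀ (geo t • hor s • s₀)).2
      linarith
  obtain ⟨C, hC, hAC, hCW⟩ := exists_compact_between hA ((hW₁.inter hW₂).inter hW₃)
    (subset_inter (subset_inter hA₁ hA₂) hA₃)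
  obtain ⟨χ, hχ1, hχ0, -, hχ⟩ := exists_continuous_one_zero_of_isCompact hA
    isOpen_interior.isClosed_compl (disjoint_compl_right_iff_subset.2 hAC)
  obtain ⟨f, hf, hfl, hfs, hfχ⟩ := exists_spread χ hχ C fun y hy => by
    by_contra hn
    exact hy (hχ0 fun h => hn (interior_subset h))
  refine ⟨t, C, f, ht, hC, fun y hy => subset_tsupport _ (hCW hy).2.1.ne', ?_, ?_, ?_, hf, hfl,
    hfs, ?_⟩
  · exact disjoint_left.2 fun y hy => (hCW hy).2.2
  · refine lt_of_le_of_lt (measure_mono ?_) hW₁μ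
    rintro y ⟨b, c, hb, hc, rfl⟩
    exact ⟨b, c, hb, (hCW hc).1.1, rfl⟩
  · exact fun y hy g hg hgy => hW₂s y (hCW hy).1.2 g hg (hCW hgy).1.2
  · have h1 : arc s₀ t (fun y => φ y - 1 / 4) ≤ arc s₀ t f := by
      unfold arc
      refine intervalIntegral.integral_mono_on zero_le_one
        ((((map_continuous φ).comp hp).sub continuous_const).intervalIntegrable _ _)
        ((f.continuous.comp hp).intervalIntegrable _ _) fun s hs => ?_
      show φ (geo t • hor s • s₀) - 1 / 4 ≤ f (geo t • hor s • s₀)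
      by_cases h : 1 / 4 ≤ φ (geo t • hor s • s₀)
      · have h2 : χ (geo t • hor s • s₀) = 1 := hχ1 ⟨s, ⟨hs, h⟩, rfl⟩
        have h3 := hfχ (geo t • hor s • s₀)
        have h4 := (hχ₀ (geo t • hor s • s₀)).2
        have h5 := (hζ (geo t • hor s • s₀)).1
        rw [hφ]
        linarith
      · have := (hf (geo t • hor s • s₀)).1
        push Not at h
        linarith
    rw [arc_sub_const (map_continuous φ)] at h1
    linarith

end Pool.Agent.Lib.MP_3615e3_an.Bar
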