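import Pool.Agent.Lib.MP_3615e3_an.Bar2

/-! The compact hull of one-Lipschitz functions on the group and the recursive construction. -/

open MeasureTheory Filter Topology Set
open scoped MatrixGroups CompactlySupported ENNReal

namespace Pool.Agent.Lib.MP_3615e3_an.Bar

open Pool.Agent.Lib.MP_3615e3_an

/-- One-Lipschitz functions on the group with values in the unit interval. -/
abbrev Y : Type :=
  {Φ : SL(2, ℝ) → ℝ // (∀ g, Φ g ∈ Icc (0 : ℝ) 1) ∧ ∀ h g, Φ (h * g) ≤ Φ g + len h}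

theorem Y.cont_ev (h : SL(2, ℝ)) : Continuous fun Φ : Y => Φ.1 h :=
  (continuous_apply h).comp continuous_subtype_val

instance : CompactSpace Y := by
  refine isCompact_iff_compactSpace.1 ?_
  have hK : IsCompact (Set.pi univ fun _ : SL(2, ℝ) => Icc (0 : ℝ) 1) :=
    isCompact_univ_pi fun _ => isCompact_Icc
  refine hK.of_isClosed_subset ?_ fun Φ hΦ g _ => hΦ.1 g
  have h1 : IsClosed {Φ : SL(2, ℝ) → ℝ | ∀ g, Φ g ∈ Icc (0 : ℝ) 1} := by
    rw [setOf_forall]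
    exact isClosed_iInter fun g => isClosed_Icc.preimage (continuous_apply g)
  have h2 : IsClosed {Φ : SL(2, ℝ) → ℝ | ∀ h g, Φ (h * g) ≤ Φ g + len h} := by
    simp only [setOf_forall]
    exact isClosed_iInter fun h => isClosed_iInter fun g =>
      isClosed_le (continuous_apply _) ((continuous_apply _).add continuous_const)
  exact h1.inter h2

theorem Y.abs_le (Φ : Y) (a b : SL(2, ℝ)) : |Φ.1 a - Φ.1 b| ≤ len (a * b⁻¹) := by
  have h1 := Φ.2.2 (a * b⁻¹) b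
  have h2 := Φ.2.2 (a * b⁻¹)⁻¹ a
  rw [inv_mul_cancel_right] at h1
  rw [len_inv, mul_inv_rev, inv_inv, inv_mul_cancel_right] at h2
  rw [_root_.abs_le]
  constructor <;> linarith

theorem Y.cont_ev2 : Continuous fun p : Y × SL(2, ℝ) => p.1.1 p.2 := by
  rw [continuous_iff_continuousAt]
  rintro ⟨Φ, a⟩
  have h1 : Tendsto (fun p : Y × SL(2, ℝ) => p.1.1 a) (𝓝 (Φ, a)) (𝓝 (Φ.1 a)) :=
    ((Y.cont_ev a).comp continuous_fst).tendsto (Φ, a)
  have h2 : Tendsto (fun p : Y × SL(2, ℝ) => len (p.2 * a⁻¹)) (𝓝 (Φ, a)) (𝓝 0) := by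
    have := (continuous_len.comp
      ((continuous_snd : Continuous fun p : Y × SL(2, ℝ) => p.2).mul
        (continuous_const (y := a⁻¹)))).tendsto (Φ, a)
    simpa [len_one, Function.comp_def] using this
  have h3 : Tendsto (fun p : Y × SL(2, ℝ) => p.1.1 p.2 - p.1.1 a) (𝓝 (Φ, a)) (𝓝 0) :=
    squeeze_zero_norm (fun p => Y.abs_le p.1 p.2 a) h2
  have h4 := h3.add h1
  simpa [ContinuousAt] using h4

instance slSC : SecondCountableTopology SL(2, ℝ) :=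
  haveI : SecondCountableTopology (Matrix (Fin 2) (Fin 2) ℝ) :=
    inferInstanceAs (SecondCountableTopology (Fin 2 → Fin 2 → ℝ))
  Matrix.SpecialLinearGroup.isClosedEmbedding_val.isEmbedding.secondCountableTopology

instance : SecondCountableTopology Y := by
  obtain ⟨D, hD, hd⟩ := TopologicalSpace.exists_countable_dense SL(2, ℝ)
  have := hD.to_subtype
  let e : Y → (D → ℝ) := fun Φ d => Φ.1 d
  have hc : Continuous e := continuous_pi fun d => Y.cont_ev _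
  have hi : Function.Injective e := by
    intro Φ Ψ h
    apply Subtype.ext
    exact Continuous.ext_on hd (Y.cont_ev2.comp (Continuous.prodMk_right Φ))
      (Y.cont_ev2.comp (Continuous.prodMk_right Ψ)) fun d hd' => congrFun h ⟨d, hd'⟩
  exact (hc.isClosedEmbedding hi).isEmbedding.secondCountableTopology

instance : MulAction SL(2, ℝ) Y where
  smul g Φ := ⟨fun h => Φ.1 (h * g), fun h => Φ.2.1 _, fun h k => by
    show Φ.1 (h * k * g) ≤ Φ.1 (k * g) + len h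
    rw [mul_assoc]
    exact Φ.2.2 h (k * g)⟩
  one_smul Φ := Subtype.ext (funext fun h => congrArg Φ.1 (mul_one h))
  mul_smul a b Φ := Subtype.ext (funext fun h => congrArg Φ.1 (mul_assoc h a b).symm)

theorem Y.smul_val (g : SL(2, ℝ)) (Φ : Y) (h : SL(2, ℝ)) : (g • Φ).1 h = Φ.1 (h * g) := rfl

instance : ContinuousSMul SL(2, ℝ) Y where
  continuous_smul := by
    refine Continuous.subtype_mk (continuous_pi fun h => ?_) _
    exact Y.cont_ev2.comp (continuous_snd.prodMk (continuous_const.mul continuous_fst))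

section alg

variable {S : Type*} [MulAction SL(2, ℝ) S]

/-- Functions on the base that are one-Lipschitz along the group. -/
abbrev Adm (S : Type*) [MulAction SL(2, ℝ) S] : Type _ :=
  {f : S → ℝ // (∀ y, f y ∈ Icc (0 : ℝ) 1) ∧ Lip f}

/-- The equivariant section attached to a function. -/
def sec (f : Adm S) (y : S) : S × Y :=
  (y, ⟨fun h => f.1 (h • y), fun _ => f.2.1 _, fun h g => by
    show f.1 ((h * g) • y) ≤ f.1 (g • y) + len h
    rw [mul_smul]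
    exact f.2.2 h _⟩)

theorem sec_smul (f : Adm S) (g : SL(2, ℝ)) (y : S) : sec f (g • y) = g • sec f y :=
  Prod.ext rfl (Subtype.ext (funext fun h => congrArg f.1 (mul_smul h g y).symm))

/-- The points whose section lies in `O` with a margin of radius `r`. -/
def Mg (f : Adm S) (O : Set (S × Y)) (r : ℝ) : Set S :=
  {y | ∀ Φ : Y, (∀ h, len h ≤ r → Φ.1 h = f.1 (h • y)) → (y, Φ) ∈ O}

theorem Mg_mono (f : Adm S) (O : Set (S × Y)) {r r' : ℝ} (h : r ≤ r') : Mg f O r ⊆ Mg f O r' :=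
  fun _ hy Φ hΦ => hy Φ fun g hg => hΦ g (hg.trans h)

/-- The larger of two admissible functions. -/
def Adm.sup (f g : Adm S) : Adm S :=
  ⟨fun y => max (f.1 y) (g.1 y), fun y =>
    ⟨le_max_of_le_left (f.2.1 y).1, max_le (f.2.1 y).2 (g.2.1 y).2⟩, fun h y =>
    max_le ((f.2.2 h y).trans (by linarith [le_max_left (f.1 y) (g.1 y)]))
      ((g.2.2 h y).trans (by linarith [le_max_right (f.1 y) (g.1 y)]))⟩

/-- The zero function. -/
def Adm.zero (S : Type*) [MulAction SL(2, ℝ) S] : Adm S :=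
  ⟨fun _ => 0, fun _ => ⟨le_rfl, zero_le_one⟩, fun h _ => by simpa using len_nonneg h⟩

end alg

theorem Y.tendsto_of {ι : Type*} {l : Filter ι} {Φ : ι → Y} {Ψ : Y}
    (h : ∀ g, ∀ᶠ i in l, (Φ i).1 g = Ψ.1 g) : Tendsto Φ l (𝓝 Ψ) :=
  tendsto_subtype_rng.2 (tendsto_pi_nhds.2 fun g =>
    tendsto_const_nhds.congr' ((h g).mono fun _ hi => hi.symm))

variable {S : Type*} [TopologicalSpace S] [MulAction SL(2, ℝ) S] [ContinuousSMul SL(2, ℝ) S]

theorem continuous_sec {f : Adm S} (hf : Continuous f.1) : Continuous (sec f) :=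
  continuous_id.prodMk (Continuous.subtype_mk
    (continuous_pi fun h => hf.comp (continuous_const_smul h)) _)

omit [ContinuousSMul SL(2, ℝ) S] in
theorem margin (f : Adm S) {O : Set (S × Y)} (hO : IsOpen O) {y : S} (hy : sec f y ∈ O) :
    ∃ r : ℕ, y ∈ Mg f O r := by
  by_contra hc
  push Not at hc
  simp only [Mg, mem_setOf_eq, not_forall] at hc
  choose Φ h1 h2 using hc
  have ht : Tendsto Φ atTop (𝓝 (sec f y).2) := Y.tendsto_of fun g =>
    (tendsto_natCast_atTop_atTop.eventually_ge_atTop (len g)).mono fun r hr => h1 r g hr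
  have ht2 : Tendsto (fun r => (y, Φ r)) atTop (𝓝 (sec f y)) := tendsto_const_nhds.prodMk_nhds ht
  obtain ⟨r, hr⟩ := (ht2.eventually (hO.mem_nhds hy)).exists
  exact h2 r hr

variable [T2Space S] [LocallyCompactSpace S] [SecondCountableTopology S] [MeasurableSpace S]
  [BorelSpace S]

theorem dense_orbit (μ : Measure S) [IsProbabilityMeasure μ] [μ.IsOpenPosMeasure] {s₀ : S}
    (hacc : Accumulates μ s₀) {U : Set S} (hU : IsOpen U) (hne : U.Nonempty) :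
    ∃ g : SL(2, ℝ), g • s₀ ∈ U := by
  have h0 : 0 < μ.real U :=
    ENNReal.toReal_pos (hU.measure_pos μ hne).ne' (measure_ne_top _ _)
  obtain ⟨ψ, -, -, h3, h4⟩ := exists_bump μ hU h0
  obtain ⟨τ, -, hτ⟩ := hacc ψ _ h4 0
  by_contra hc
  push Not at hc
  have : arc s₀ τ ψ = 0 := by
    unfold arc
    have : ∀ s : ℝ, ψ (geo τ • hor s • s₀) = 0 := fun s => h3 _ (by
      rw [← mul_smul]
      exact hc _)
    simp [this]
  linarith

theorem exists_hit (μ : Measure S) [IsProbabilityMeasure μ] [μ.IsOpenPosMeasure] {s₀ : S}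
    (hacc : Accumulates μ s₀) {f : Adm S} (hf : Continuous f.1) {O : Set (S × Y)} (hO : IsOpen O) :
    ∃ (g : SL(2, ℝ)) (r : ℝ) (e : ℝ≥0∞), 0 < e ∧
      ((∃ y, sec f y ∈ O) → g • s₀ ∈ Mg f O r ∧ e < μ (Mg f O r)) := by
  by_cases h : ∃ y, sec f y ∈ O
  swap
  · exact ⟨1, 0, 1, one_pos, fun h' => absurd h' h⟩
  have hU : IsOpen (sec f ⁻¹' O) := hO.preimage (continuous_sec hf)
  obtain ⟨g, hg⟩ := dense_orbit μ hacc hU h
  obtain ⟨r₁, hr₁⟩ := margin f hO hg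
  have h2 : ∃ r₂ : ℕ, μ (Mg f O r₂) ≠ 0 := by
    by_contra hc
    push Not at hc
    have h3 : μ (sec f ⁻¹' O) = 0 :=
      measure_mono_null (fun y hy => mem_iUnion.2 (margin f hO hy)) (measure_iUnion_null hc)
    exact (hU.measure_pos μ h).ne' h3
  obtain ⟨r₂, hr₂⟩ := h2
  obtain ⟨e, he0, he⟩ := exists_between (pos_iff_ne_zero.2 hr₂)
  exact ⟨g, max r₁ r₂, e, he0, fun _ => ⟨Mg_mono f O (le_max_left _ _) hr₁,
    he.trans_le (measure_mono (Mg_mono f O (le_max_right _ _)))⟩⟩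

/-- The state of the recursion. -/
structure St (S : Type*) [MulAction SL(2, ℝ) S] where
  H : Adm S
  Z : Set S
  η : ℝ≥0∞
  ρ : ℝ
  f : S → ℝ
  C : Set S
  R : ℝ
  t : ℝ

/-- The invariant of the recursion. -/
def St.Inv (μ : Measure S) (σ : St S) : Prop :=
  Continuous σ.H.1 ∧ IsCompact σ.Z ∧ μ σ.Z < 8⁻¹ ∧ 0 < σ.η

/-- One step of the recursion. -/
structure St.Step (μ : Measure S) (s₀ : S) (K : Set S) (O : Set (S × Y)) (n : ℕ) (σ σ' : St S) :
    Prop where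
  Hs : ∀ y, σ'.H.1 y = max (σ.H.1 y) (σ'.f y)
  fs : ∀ y, σ'.f y ≠ 0 → y ∈ nb 1 σ'.C
  Cc : IsCompact σ'.C
  CK : σ'.C ⊆ K
  CZ : Disjoint σ'.C σ.Z
  Zm : σ.Z ⊆ σ'.Z
  nbZ : nb σ'.R σ'.C ⊆ σ'.Z
  ηC : μ (nb σ'.R σ'.C) ≤ σ.η / 2
  ηm : σ'.η ≤ σ.η / 2
  ρR : σ.ρ ≤ σ'.R
  ρm : σ.ρ ≤ σ'.ρ
  R2 : 2 ^ n ≤ σ'.R
  sep : Sep σ'.R σ'.C
  tn : (n : ℝ) ≤ σ'.t
  arcH : 1 / 2 < arc s₀ σ'.t σ'.H.1
  hit : (∃ y, sec σ'.H y ∈ O) → ∃ (g : SL(2, ℝ)) (r : ℝ), r + 1 ≤ σ'.ρ ∧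
    nb (r + 1) {g • s₀} ⊆ σ'.Z ∧ g • s₀ ∈ Mg σ'.H O r ∧ σ'.η < μ (Mg σ'.H O r)

theorem exists_step (μ : Measure S) [IsProbabilityMeasure μ] [μ.IsOpenPosMeasure] {s₀ : S}
    (hst : ∀ g : SL(2, ℝ), g • s₀ = s₀ → g = 1 ∨ g = -1)
    (hnull : μ (MulAction.orbit SL(2, ℝ) s₀) = 0) (hacc : Accumulates μ s₀)
    (χ₀ : C_c(S, ℝ)) (hχ₀ : ∀ y, χ₀ y ∈ Icc (0 : ℝ) 1) (hχ₁ : 7 / 8 < ∫ y, χ₀ y ∂μ)
    {O : Set (S × Y)} (hO : IsOpen O) (n : ℕ) (σ : St S) (hσ : σ.Inv μ) :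
    ∃ σ' : St S, σ'.Inv μ ∧ St.Step μ s₀ (tsupport χ₀) O n σ σ' := by
  obtain ⟨hH, hZ, hZμ, hη⟩ := hσ
  have hη2 : 0 < σ.η / 2 := ENNReal.div_pos hη.ne' (by simp)
  obtain ⟨t, C, f, ht, hC, hCK, hCZ, hCμ, hsep, hf, hfl, hfs, harc⟩ :=
    exists_level μ hst hnull hacc χ₀ hχ₀ hχ₁ hZ hZμ (η := min (σ.η / 2) (8⁻¹ - μ σ.Z))
      (lt_min hη2 (tsub_pos_of_lt hZμ)) (max σ.ρ (2 ^ n)) n
  let H' : Adm S := σ.H.sup ⟨f, hf, hfl⟩
  have hH' : Continuous H'.1 := hH.max f.continuous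
  obtain ⟨g, r, e, he0, he⟩ := exists_hit μ hacc hH' hO
  have hnull' : μ (nb (r + 1) {g • s₀}) = 0 := by
    refine measure_mono_null ?_ hnull
    rintro _ ⟨b, _, -, rfl, rfl⟩
    exact ⟨b * g, by simp only [mul_smul]⟩
  refine ⟨⟨H', σ.Z ∪ nb (max σ.ρ (2 ^ n)) C ∪ nb (r + 1) {g • s₀}, min (σ.η / 2) e,
    max σ.ρ (r + 1), f, C, max σ.ρ (2 ^ n), t⟩, ⟨hH', ?_, ?_, lt_min hη2 he0⟩, ?_⟩
  · exact (hZ.union (isCompact_nb _ hC)).union (isCompact_nb _ isCompact_singleton)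
  · refine lt_of_le_of_lt (measure_union_le _ _) ?_
    rw [hnull', add_zero]
    refine lt_of_le_of_lt (measure_union_le _ _) ?_
    have h1 := hCμ.trans_le (min_le_right _ _)
    rw [add_comm]
    exact lt_tsub_iff_right.1 h1
  · refine ⟨fun y => rfl, hfs, hC, hCK, hCZ, subset_union_left.trans subset_union_left,
      subset_union_right.trans subset_union_left, (hCμ.trans_le (min_le_left _ _)).le,
      min_le_left _ _, le_max_left _ _, le_max_left _ _, le_max_right _ _, hsep, ht, ?_, ?_⟩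
    · refine harc.trans_le ?_
      have hp : Continuous fun s : ℝ => geo t • hor s • s₀ :=
        (continuous_hor.smul continuous_const).const_smul _
      exact intervalIntegral.integral_mono_on zero_le_one
        ((f.continuous.comp hp).intervalIntegrable _ _) ((hH'.comp hp).intervalIntegrable _ _)
        fun s _ => le_max_right _ _
    · intro hy
      exact ⟨g, r, le_max_right _ _, subset_union_right, (he hy).1,
        (min_le_right _ _).trans_lt (he hy).2⟩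

theorem exists_tower (μ : Measure S) [IsProbabilityMeasure μ] [μ.IsOpenPosMeasure] {s₀ : S}
    (hst : ∀ g : SL(2, ℝ), g • s₀ = s₀ → g = 1 ∨ g = -1)
    (hnull : μ (MulAction.orbit SL(2, ℝ) s₀) = 0) (hacc : Accumulates μ s₀)
    (O : ℕ → Set (S × Y)) (hO : ∀ n, IsOpen (O n)) :
    ∃ (K : Set S) (σ : ℕ → St S), IsCompact K ∧ (∀ y, (σ 0).H.1 y = 0) ∧ (σ 0).η ≤ 1 ∧
      (∀ n, (σ n).Inv μ) ∧ ∀ n, St.Step μ s₀ K (O n) n (σ n) (σ (n + 1)) := by
  obtain ⟨χ₀, h1, h2, -, h4⟩ := exists_bump μ isOpen_univ (r := 7 / 8) (by simp; norm_num)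
  choose F hF using fun n (σ : {σ : St S // σ.Inv μ}) =>
    exists_step μ hst hnull hacc χ₀ (fun y => ⟨h1 y, h2 y⟩) h4 (hO n) n σ.1 σ.2
  let σ₀ : {σ : St S // σ.Inv μ} :=
    ⟨⟨Adm.zero S, ∅, 1, 0, 0, ∅, 0, 0⟩, continuous_const, isCompact_empty, by simp, one_pos⟩
  let σ : ℕ → {σ : St S // σ.Inv μ} := fun n => Nat.rec σ₀ (fun n s => ⟨F n s, (hF n s).1⟩) n
  exact ⟨tsupport χ₀, fun n => (σ n).1, χ₀.hasCompactSupport, fun _ => rfl, le_rfl,
    fun n => (σ n).2, fun n => (hF n (σ n)).2⟩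

end Pool.Agent.Lib.MP_3615e3_an.Bar
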