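import Pool.Agent.Lib.MP_3615e3_an.Bar3

/-! The limit function and the time spent near high levels. -/

open MeasureTheory Filter Topology Set
open scoped MatrixGroups CompactlySupported ENNReal

namespace Pool.Agent.Lib.MP_3615e3_an.Bar

open Pool.Agent.Lib.MP_3615e3_an

variable {S : Type*} [TopologicalSpace S] [MulAction SL(2, ℝ) S] [MeasurableSpace S]

/-- The output of the recursion. -/
structure Tw (μ : Measure S) (s₀ : S) (O : ℕ → Set (S × Y)) where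
  K : Set S
  σ : ℕ → St S
  hK : IsCompact K
  h0 : ∀ y, (σ 0).H.1 y = 0
  hη : (σ 0).η ≤ 1
  inv : ∀ n, (σ n).Inv μ
  step : ∀ n, St.Step μ s₀ K (O n) n (σ n) (σ (n + 1))

namespace Tw

variable {μ : Measure S} {s₀ : S} {O : ℕ → Set (S × Y)} (T : Tw μ s₀ O)

/-- The core of level `n`. -/
def C (n : ℕ) : Set S := (T.σ (n + 1)).C

/-- The radius of level `n`. -/
def R (n : ℕ) : ℝ := (T.σ (n + 1)).R

/-- The maximum of the first `n` levels. -/
def H (n : ℕ) : Adm S := (T.σ n).H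

/-- The points that see a level of index at least `N` within distance `ρ`. -/
def Vis (ρ : ℝ) (N : ℕ) : Set S := ⋃ k : ℕ, nb ρ (T.C (N + k))

theorem mem_Vis {ρ : ℝ} {N : ℕ} {y : S} : y ∈ T.Vis ρ N ↔ ∃ m, N ≤ m ∧ y ∈ nb ρ (T.C m) := by
  rw [Vis, mem_iUnion]
  constructor
  · rintro ⟨k, hk⟩
    exact ⟨N + k, Nat.le_add_right _ _, hk⟩
  · rintro ⟨m, hm, h⟩
    obtain ⟨k, rfl⟩ := Nat.exists_eq_add_of_le hm
    exact ⟨k, h⟩

theorem Z_mono : Monotone fun n => (T.σ n).Z := monotone_nat_of_le_succ fun n => (T.step n).Zm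

theorem ρ_mono : Monotone fun n => (T.σ n).ρ := monotone_nat_of_le_succ fun n => (T.step n).ρm

theorem H_mono (y : S) : Monotone fun n => (T.H n).1 y :=
  monotone_nat_of_le_succ fun n => by
    show (T.σ n).H.1 y ≤ (T.σ (n + 1)).H.1 y
    rw [(T.step n).Hs]
    exact le_max_left _ _

theorem two_le (n : ℕ) : 2 ^ n ≤ T.R n := (T.step n).R2

theorem η_le (N k : ℕ) : (T.σ (N + k)).η ≤ (T.σ N).η * 2⁻¹ ^ k := by
  induction k with
  | zero => simp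
  | succ k ih =>
    refine (T.step (N + k)).ηm.trans ?_
    rw [pow_succ, ← mul_assoc, div_eq_mul_inv]
    exact mul_le_mul_left ih _

theorem one_vis {m n : ℕ} (h : m < n) {ρ : ℝ} (hρ : ρ + ρ ≤ T.R m) {y : S}
    (hm : y ∈ nb ρ (T.C m)) (hn : y ∈ nb ρ (T.C n)) : False := by
  obtain ⟨b, c, hb, hc, rfl⟩ := hn
  have h1 : c ∈ (T.σ n).Z := T.Z_mono h ((T.step m).nbZ (nb_mono hρ _ (nb_of_smul hb hm)))
  exact disjoint_left.1 (T.step n).CZ hc h1

theorem fin_vis (ρ : ℝ) (y : S) : ∃ N, y ∉ T.Vis ρ N := by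
  obtain ⟨N, hN⟩ := pow_unbounded_of_one_lt (ρ + ρ) (one_lt_two : (1 : ℝ) < 2)
  by_cases h : y ∈ T.Vis ρ N
  · obtain ⟨m, hm, hy⟩ := T.mem_Vis.1 h
    refine ⟨m + 1, fun h' => ?_⟩
    obtain ⟨n, hn, hy'⟩ := T.mem_Vis.1 h'
    exact T.one_vis hn (hN.le.trans ((pow_le_pow_right₀ one_le_two hm).trans (T.two_le m))) hy hy'
  · exact ⟨N, h⟩

theorem H_stab {N : ℕ} {y : S} (hy : y ∉ T.Vis 1 N) {n : ℕ} (hn : N ≤ n) :
    (T.H n).1 y = (T.H N).1 y := by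
  induction n, hn using Nat.le_induction with
  | base => rfl
  | succ n hn ih =>
    have h1 : (T.σ (n + 1)).f y = 0 := by
      by_contra h
      exact hy (T.mem_Vis.2 ⟨n, hn, (T.step n).fs y h⟩)
    have h2 := (T.step n).Hs y
    rw [h1, max_eq_left ((T.σ n).H.2.1 y).1] at h2
    exact h2.trans ih

theorem bdd (y : S) : BddAbove (range fun n => (T.H n).1 y) :=
  ⟨1, by
    rintro _ ⟨n, rfl⟩
    exact ((T.H n).2.1 y).2⟩

/-- The limit function. -/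
noncomputable def F : Adm S :=
  ⟨fun y => ⨆ n, (T.H n).1 y, fun y =>
    ⟨((T.H 0).2.1 y).1.trans (le_ciSup (T.bdd y) 0), ciSup_le fun n => ((T.H n).2.1 y).2⟩,
    fun h y => ciSup_le fun n => ((T.H n).2.2 h y).trans (by linarith [le_ciSup (T.bdd y) n])⟩

theorem H_le_F (n : ℕ) (y : S) : (T.H n).1 y ≤ T.F.1 y := le_ciSup (T.bdd y) n

theorem F_eq {N : ℕ} {y : S} (hy : y ∉ T.Vis 1 N) : T.F.1 y = (T.H N).1 y := by
  refine le_antisymm (ciSup_le fun n => ?_) (T.H_le_F N y)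
  rcases le_total n N with h | h
  · exact T.H_mono y h
  · exact (T.H_stab hy h).le

theorem not_vis {ρ : ℝ} {N : ℕ} {y : S} (hy : y ∉ T.Vis (ρ + 1) N) {h : SL(2, ℝ)}
    (hh : len h ≤ ρ) : h • y ∉ T.Vis 1 N := fun h' => by
  obtain ⟨m, hm, h1⟩ := T.mem_Vis.1 h'
  exact hy (T.mem_Vis.2 ⟨m, hm, nb_of_smul hh h1⟩)

theorem ev_eq (y : S) : ∀ᶠ n in atTop, (T.H n).1 y = T.F.1 y := by
  obtain ⟨N, hN⟩ := T.fin_vis 1 y
  exact (eventually_ge_atTop N).mono fun n hn => (T.H_stab hN hn).trans (T.F_eq hN).symm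

theorem tendsto_sec (y : S) : Tendsto (fun n => sec (T.H n) y) atTop (𝓝 (sec T.F y)) :=
  tendsto_const_nhds.prodMk_nhds (Y.tendsto_of fun g => T.ev_eq (g • y))

theorem meas_vis {ρ : ℝ} {N : ℕ} (h : ∀ m, N ≤ m → ρ ≤ T.R m) : μ (T.Vis ρ N) ≤ (T.σ N).η := by
  refine (measure_iUnion_le _).trans ?_
  have h1 : ∀ k, μ (nb ρ (T.C (N + k))) ≤ (T.σ N).η * 2⁻¹ ^ (k + 1) := fun k => by
    refine (measure_mono (nb_mono (h _ (Nat.le_add_right _ _)) _)).trans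
      ((T.step (N + k)).ηC.trans ?_)
    rw [pow_succ, ← mul_assoc, div_eq_mul_inv]
    exact mul_le_mul_left (T.η_le N k) _
  refine (ENNReal.tsum_le_tsum h1).trans ?_
  rw [ENNReal.tsum_mul_left, ENNReal.tsum_geometric_add_one, ENNReal.one_sub_inv_two, inv_inv,
    ENNReal.inv_mul_cancel (by simp) (by simp), mul_one]

/-- Geodesics spend a small fraction of time near high levels. -/
theorem time_vis {ρ ε : ℝ} (hρ : 0 ≤ ρ) (hε : 0 < ε) : ∃ N₀ : ℕ, ∃ T₀ : ℝ, 0 < T₀ ∧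
    ∀ N, N₀ ≤ N → ∀ L, T₀ ≤ L → ∀ y : S,
      volume {t : ℝ | t ∈ Ioc 0 L ∧ geo t • y ∈ T.Vis ρ N} ≤ ENNReal.ofReal (ε * L) := by
  obtain ⟨N₀, hN₀⟩ := pow_unbounded_of_one_lt (max (4 * ρ) (80 * (ρ + 1) / ε))
    (one_lt_two : (1 : ℝ) < 2)
  refine ⟨N₀, max (2 * ρ + 1) (8 * (ρ + 1) / ε), lt_max_of_lt_left (by linarith),
    fun N hN L hL y => ?_⟩
  have hN' := hN₀.le.trans (pow_le_pow_right₀ (one_le_two : (1 : ℝ) ≤ 2) hN)
  have hL1 : 2 * ρ + 1 ≤ L := (le_max_left _ _).trans hL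
  have hL2 : 8 * (ρ + 1) ≤ L * ε := (div_le_iff₀ hε).1 ((le_max_right _ _).trans hL)
  have hN1 : 4 * ρ ≤ 2 ^ N := (le_max_left _ _).trans hN'
  have hN2 : 80 * (ρ + 1) ≤ 2 ^ N * ε := (div_le_iff₀ hε).1 ((le_max_right _ _).trans hN')
  have hc : ENNReal.ofReal (2 * (ρ + 1)) + ENNReal.ofReal (2 * (ρ + 1)) =
      ENNReal.ofReal (4 * (ρ + 1)) := by
    rw [← ENNReal.ofReal_add (by linarith) (by linarith)]
    congr 1
    ring
  let A : ℕ → Set ℝ := fun k =>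
    {t | t ∈ Ioc 0 L ∧ geo t • y ∈ nb ρ (T.C (N + k)) ∧ T.R (N + k) < 2 * L + 2 * ρ}
  let B : Set ℝ := {t | t ∈ Ioc 0 L ∧ ∃ m, geo t • y ∈ nb ρ (T.C m) ∧ 2 * L + 2 * ρ ≤ T.R m}
  have hsub : {t : ℝ | t ∈ Ioc 0 L ∧ geo t • y ∈ T.Vis ρ N} ⊆ (⋃ k, A k) ∪ B := by
    rintro t ⟨h1, h2⟩
    obtain ⟨k, hk⟩ := mem_iUnion.1 h2
    rcases lt_or_ge (T.R (N + k)) (2 * L + 2 * ρ) with h | h
    · exact Or.inl (mem_iUnion.2 ⟨k, h1, hk, h⟩)
    · exact Or.inr ⟨h1, _, hk, h⟩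
  have hB : volume B ≤ ENNReal.ofReal (ε * L / 2) := by
    rcases eq_empty_or_nonempty B with h | ⟨t₀, ht₀, m₀, hm₀, hR₀⟩
    · rw [h]
      simp
    have hw := window (T.step m₀).sep (L := L) (ρ := ρ) (by
      show L + 2 * ρ ≤ T.R m₀
      linarith) y 0
    rw [hc] at hw
    refine le_trans (measure_mono ?_) (hw.trans (ENNReal.ofReal_le_ofReal (by linarith)))
    rintro t ⟨ht, m, hm, hR⟩
    have hl : ∀ u : ℝ, u ∈ Ioc 0 L → len (geo u) ≤ L := fun u hu =>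
      (len_geo u).trans (by rw [abs_of_pos hu.1]; exact hu.2)
    have e : m = m₀ := by
      by_contra hne
      rcases lt_or_gt_of_ne hne with h | h
      · exact T.one_vis h (ρ := L + ρ) (by linarith) (nb_of_smul (hl t ht) hm)
          (nb_of_smul (hl t₀ ht₀) hm₀)
      · exact T.one_vis h (ρ := L + ρ) (by linarith) (nb_of_smul (hl t₀ ht₀) hm₀)
          (nb_of_smul (hl t ht) hm)
    subst e
    exact ⟨⟨ht.1.le, by linarith [ht.2]⟩, hm⟩
  have hA : ∀ k, volume (A k) ≤ ENNReal.ofReal (ε * L / 4) * 2⁻¹ ^ k := by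
    intro k
    rcases eq_empty_or_nonempty (A k) with h | ⟨t₀, -, -, hR⟩
    · rw [h]
      simp
    have h2 := T.two_le (N + k)
    have h3 : (2 : ℝ) ^ N ≤ 2 ^ (N + k) := pow_le_pow_right₀ one_le_two (Nat.le_add_right _ _)
    have h4 : (0 : ℝ) < 2 ^ N := by positivity
    have hRp : 0 < T.R (N + k) := by linarith
    have hw := windows (T.step (N + k)).sep (L := T.R (N + k) / 2) (ρ := ρ) (by
      show T.R (N + k) / 2 + 2 * ρ ≤ T.R (N + k)
      linarith) y ⌈L / (T.R (N + k) / 2)⌉₊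
    rw [hc] at hw
    have h5 : L ≤ ⌈L / (T.R (N + k) / 2)⌉₊ * (T.R (N + k) / 2) :=
      (div_le_iff₀ (by linarith)).1 (Nat.le_ceil _)
    have h6 : (⌈L / (T.R (N + k) / 2)⌉₊ : ℝ) ≤ 5 * L / 2 ^ (N + k) := by
      have a := (Nat.ceil_lt_add_one (a := L / (T.R (N + k) / 2)) (by
        apply div_nonneg <;> linarith)).le
      have b : L / (T.R (N + k) / 2) + 1 ≤ 5 * L / T.R (N + k) := by
        rw [div_add_one (by linarith), div_le_div_iff₀ (by linarith) hRp]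
        nlinarith
      exact a.trans (b.trans (div_le_div_of_nonneg_left (by linarith) (by positivity) h2))
    refine le_trans (measure_mono ?_) (hw.trans ?_)
    · rintro t ⟨ht, hm, -⟩
      exact ⟨⟨ht.1, ht.2.trans h5⟩, hm⟩
    · have e1 : (2⁻¹ : ℝ≥0∞) ^ k = ENNReal.ofReal (2⁻¹ ^ k) := by
        rw [ENNReal.ofReal_pow (by norm_num), ENNReal.ofReal_inv_of_pos two_pos]
        simp
      rw [← ENNReal.ofReal_natCast, ← ENNReal.ofReal_mul (Nat.cast_nonneg _), e1,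
        ← ENNReal.ofReal_mul (by nlinarith)]
      apply ENNReal.ofReal_le_ofReal
      refine (mul_le_mul_of_nonneg_right h6 (by linarith)).trans ?_
      rw [pow_add, inv_pow, ← div_eq_mul_inv, div_mul_eq_mul_div, ← div_div]
      apply div_le_div_of_nonneg_right _ (by positivity)
      rw [div_le_iff₀ h4]
      nlinarith
  refine (measure_mono hsub).trans ((measure_union_le _ _).trans ?_)
  refine (add_le_add ((measure_iUnion_le _).trans (ENNReal.tsum_le_tsum hA)) hB).trans ?_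
  have h0 : 0 ≤ ε * L := by nlinarith
  rw [ENNReal.tsum_mul_left, ENNReal.tsum_geometric, ENNReal.one_sub_inv_two, inv_inv,
    ← ENNReal.ofReal_ofNat 2, ← ENNReal.ofReal_mul (by linarith),
    ← ENNReal.ofReal_add (by linarith) (by linarith)]
  apply ENNReal.ofReal_le_ofReal
  linarith

/-- The points whose second coordinate differs from the section of level `N` near the origin. -/
def Bad (ρ : ℝ) (N : ℕ) : Set (S × Y) :=
  {x | ∃ h : SL(2, ℝ), len h ≤ ρ ∧ x.2.1 h ≠ (T.H N).1 (h • x.1)}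

variable [ContinuousSMul SL(2, ℝ) S]

theorem isOpen_Bad (ρ : ℝ) (N : ℕ) : IsOpen (T.Bad ρ N) := by
  have : T.Bad ρ N = ⋃ h : SL(2, ℝ), ⋃ _ : len h ≤ ρ,
      {x : S × Y | x.2.1 h ≠ (T.H N).1 (h • x.1)} := by
    ext x
    simp [Bad]
  rw [this]
  exact isOpen_iUnion fun h => isOpen_iUnion fun _ =>
    isOpen_ne_fun ((Y.cont_ev h).comp continuous_snd)
      ((T.inv N).1.comp (continuous_fst.const_smul h))

theorem time_bad [SecondCountableTopology S] {ρ ε : ℝ} (hρ : 0 ≤ ρ) (hε : 0 < ε) :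
    ∃ N₀ : ℕ, ∃ T₀ : ℝ, 0 < T₀ ∧ ∀ N, N₀ ≤ N → ∀ L, T₀ ≤ L → ∀ x ∈ closure (range (sec T.F)),
      volume {t : ℝ | t ∈ Ioc 0 L ∧ geo t • x ∈ T.Bad ρ N} ≤ ENNReal.ofReal (ε * L) := by
  obtain ⟨N₀, T₀, h0, h⟩ := T.time_vis (ρ := ρ + 1) (by linarith) hε
  refine ⟨N₀, T₀, h0, fun N hN L hL x hx => ?_⟩
  obtain ⟨u, hu, hux⟩ := mem_closure_iff_seq_limit.1 hx
  choose y hy using hu
  let E : ℕ → Set ℝ := fun j => ⋂ k ≥ j, {t : ℝ | t ∈ Ioc 0 L ∧ geo t • y k ∈ T.Vis (ρ + 1) N}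
  have hE : Monotone E := fun i j hij t ht =>
    mem_iInter₂.2 fun k hk => mem_iInter₂.1 ht k (hij.trans hk)
  have hsub : {t : ℝ | t ∈ Ioc 0 L ∧ geo t • x ∈ T.Bad ρ N} ⊆ ⋃ j, E j := by
    rintro t ⟨h1, h2⟩
    have h3 := (hux.const_smul (geo t)).eventually ((T.isOpen_Bad ρ N).mem_nhds h2)
    obtain ⟨j, hj⟩ := eventually_atTop.1 h3
    refine mem_iUnion.2 ⟨j, mem_iInter₂.2 fun k hk => ⟨h1, ?_⟩⟩
    by_contra hv
    have h4 := hj k hk
    rw [← hy k, ← sec_smul] at h4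
    obtain ⟨g, hg, hne⟩ := h4
    exact hne (T.F_eq (T.not_vis hv hg))
  refine (measure_mono hsub).trans ?_
  rw [hE.measure_iUnion]
  exact iSup_le fun j => (measure_mono fun t ht => mem_iInter₂.1 ht j le_rfl).trans
    (h N hN L hL (y j))

end Tw

end Pool.Agent.Lib.MP_3615e3_an.Bar
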