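import Pool.Agent.Lib.MP_3615e3_an.Bar4

/-! The extension, its measure, and the rigidity of invariant measures. -/

open MeasureTheory Filter Topology Set
open scoped MatrixGroups CompactlySupported ENNReal

namespace Pool.Agent.Lib.MP_3615e3_an.Bar

open Pool.Agent.Lib.MP_3615e3_an

namespace Tw

section top

variable {S : Type*} [TopologicalSpace S] [MulAction SL(2, ℝ) S] [MeasurableSpace S]
  {μ : Measure S} {s₀ : S} {O : ℕ → Set (S × Y)} (T : Tw μ s₀ O)

/-- The extension: the closure of the graph of the section. -/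
def X : Type _ := closure (range (sec T.F))

instance : TopologicalSpace T.X := instTopologicalSpaceSubtype

instance : MeasurableSpace T.X := borel _

instance : BorelSpace T.X := ⟨rfl⟩

/-- The inclusion into the product. -/
def val (x : T.X) : S × Y := x.1

/-- The projection to the base. -/
def pr (x : T.X) : S := x.1.1

/-- The section. -/
noncomputable def ι (y : S) : T.X := ⟨sec T.F y, subset_closure ⟨y, rfl⟩⟩

theorem val_mem (x : T.X) : T.val x ∈ closure (range (sec T.F)) := x.2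

theorem val_emb : IsClosedEmbedding T.val := isClosed_closure.isClosedEmbedding_subtypeVal

theorem pr_proper : IsProperMap T.pr :=
  isProperMap_fst_of_compactSpace.comp T.val_emb.isProperMap

theorem pr_ι (y : S) : T.pr (T.ι y) = y := rfl

instance [T2Space S] : T2Space T.X := T.val_emb.isEmbedding.t2Space

instance [LocallyCompactSpace S] : LocallyCompactSpace T.X := T.val_emb.locallyCompactSpace

instance [SecondCountableTopology S] : SecondCountableTopology T.X :=
  T.val_emb.isEmbedding.secondCountableTopology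

variable [ContinuousSMul SL(2, ℝ) S]

noncomputable instance : MulAction SL(2, ℝ) T.X where
  smul g x := ⟨g • x.1, map_mem_closure (continuous_const_smul g) x.2 (by
    rintro _ ⟨y, rfl⟩
    exact ⟨g • y, sec_smul _ g y⟩)⟩
  one_smul x := Subtype.ext (one_smul _ x.1)
  mul_smul a b x := Subtype.ext (mul_smul a b x.1)

theorem val_smul (g : SL(2, ℝ)) (x : T.X) : T.val (g • x) = g • T.val x := rfl

theorem pr_smul (g : SL(2, ℝ)) (x : T.X) : T.pr (g • x) = g • T.pr x := rfl

theorem ι_smul (g : SL(2, ℝ)) (y : S) : T.ι (g • y) = g • T.ι y := Subtype.ext (sec_smul _ g y)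

instance : ContinuousSMul SL(2, ℝ) T.X where
  continuous_smul := T.val_emb.isEmbedding.continuous_iff.2
    (continuous_fst.smul (T.val_emb.continuous.comp continuous_snd))

end top

variable {S : Type*} [TopologicalSpace S] [MulAction SL(2, ℝ) S] [MeasurableSpace S]
  [ContinuousSMul SL(2, ℝ) S] [T2Space S] [LocallyCompactSpace S] [SecondCountableTopology S]
  [BorelSpace S] {μ : Measure S} {s₀ : S} {O : ℕ → Set (S × Y)} (T : Tw μ s₀ O)

theorem measurable_ι : Measurable T.ι := by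
  letI : MeasurableSpace (S × Y) := borel _
  haveI : BorelSpace (S × Y) := ⟨rfl⟩
  have h1 : Measurable (sec T.F) :=
    measurable_of_tendsto_metrizable (f := fun n => sec (T.H n))
      (fun n => (continuous_sec (T.inv n).1).measurable) (tendsto_pi_nhds.2 T.tendsto_sec)
  refine measurable_of_isOpen fun U hU => ?_
  obtain ⟨V, hV, rfl⟩ := T.val_emb.isEmbedding.isInducing.isOpen_iff.1 hU
  exact h1 hV.measurableSet

theorem measurable_pr : Measurable T.pr := T.pr_proper.continuous.measurable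

/-- The lifted measure. -/
noncomputable def ν : Measure T.X := μ.map T.ι

theorem map_pr : T.ν.map T.pr = μ := by
  rw [ν, Measure.map_map T.measurable_pr T.measurable_ι]
  exact Measure.map_id

instance [IsProbabilityMeasure μ] : IsProbabilityMeasure T.ν :=
  Measure.isProbabilityMeasure_map T.measurable_ι.aemeasurable

theorem pre_smul (g : SL(2, ℝ)) (E : Set T.X) :
    T.ι ⁻¹' ((fun x => g • x) ⁻¹' E) = (fun y => g • y) ⁻¹' (T.ι ⁻¹' E) := by
  ext y
  simp only [mem_preimage, T.ι_smul]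

instance [SMulInvariantMeasure SL(2, ℝ) S μ] : SMulInvariantMeasure SL(2, ℝ) T.X T.ν where
  measure_preimage_smul g E hE := by
    rw [ν, Measure.map_apply T.measurable_ι ((continuous_const_smul g).measurable hE),
      Measure.map_apply T.measurable_ι hE, pre_smul,
      SMulInvariantMeasure.measure_preimage_smul g (T.measurable_ι hE)]

instance [ErgodicSMul SL(2, ℝ) S μ] : ErgodicSMul SL(2, ℝ) T.X T.ν where
  aeconst_of_forall_preimage_smul_ae_eq {E} hE h := by
    have h1 : EventuallyConst (T.ι ⁻¹' E) (ae μ) := by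
      refine ErgodicSMul.aeconst_of_forall_preimage_smul_ae_eq (G := SL(2, ℝ)) (T.measurable_ι hE)
        fun g => ?_
      rw [← pre_smul]
      exact (Measure.tendsto_ae_map T.measurable_ι.aemeasurable).eventually (h g)
    rw [eventuallyConst_set] at h1 ⊢
    rcases h1 with h1 | h1
    · exact Or.inl ((ae_map_iff T.measurable_ι.aemeasurable hE).2 h1)
    · exact Or.inr ((ae_map_iff T.measurable_ι.aemeasurable hE.compl).2 h1)

/-- Every nonempty open set meets the orbit and has positive measure. -/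
theorem hit_open (hO : ∀ U : Set (S × Y), IsOpen U → ∀ z ∈ U, ∃ B, IsOpen B ∧ z ∈ B ∧ B ⊆ U ∧
      ∀ N, ∃ n, N ≤ n ∧ O n = B) {U : Set T.X} (hU : IsOpen U) (hne : U.Nonempty) :
    (∃ g : SL(2, ℝ), g • T.ι s₀ ∈ U) ∧ T.ν U ≠ 0 := by
  obtain ⟨V, hV, rfl⟩ := T.val_emb.isEmbedding.isInducing.isOpen_iff.1 hU
  obtain ⟨x, hx⟩ := hne
  obtain ⟨_, hz, y, rfl⟩ := mem_closure_iff.1 (T.val_mem x) V hV hx
  obtain ⟨B, hB, hyB, hBV, hBn⟩ := hO V hV _ hz
  obtain ⟨N, hN⟩ := eventually_atTop.1 ((T.tendsto_sec y).eventually (hB.mem_nhds hyB))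
  obtain ⟨n, hn, rfl⟩ := hBn N
  obtain ⟨g, r, hr, hZ, hg, hη⟩ := (T.step n).hit ⟨y, hN (n + 1) (by omega)⟩
  have key : ∀ w ∈ Mg (T.σ (n + 1)).H (O n) r, w ∉ T.Vis (r + 1) (n + 1) →
      T.ι w ∈ T.val ⁻¹' V := fun w hw hv =>
    hBV (hw (sec T.F w).2 fun h hh => T.F_eq (T.not_vis hv hh))
  constructor
  · refine ⟨g, ?_⟩
    rw [← ι_smul]
    refine key _ hg fun hv => ?_
    obtain ⟨m, hm, b, c, hb, hc, e⟩ := T.mem_Vis.1 hv
    have h1 : c ∈ (T.σ m).Z := T.Z_mono hm (hZ ⟨b⁻¹, g • s₀, by rwa [len_inv], rfl, by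
      rw [e, inv_smul_smul]⟩)
    exact disjoint_left.1 (T.step m).CZ hc h1
  · rw [ν, Measure.map_apply T.measurable_ι hU.measurableSet]
    intro h0
    have h1 : μ (T.Vis (r + 1) (n + 1)) ≤ (T.σ (n + 1)).η :=
      T.meas_vis fun m hm => hr.trans ((T.ρ_mono hm).trans (T.step m).ρR)
    have h2 : Mg (T.σ (n + 1)).H (O n) r ⊆ T.ι ⁻¹' (T.val ⁻¹' V) ∪ T.Vis (r + 1) (n + 1) := by
      intro w hw
      by_cases hv : w ∈ T.Vis (r + 1) (n + 1)
      · exact Or.inr hv
      · exact Or.inl (key w hw hv)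
    have h3 := (measure_mono (μ := μ) h2).trans (measure_union_le _ _)
    rw [h0, zero_add] at h3
    exact absurd (hη.trans_le (h3.trans h1)) (lt_irrefl _)

omit [T2Space S] [LocallyCompactSpace S] [BorelSpace S] in
theorem meas_bad (m : Measure T.X) [IsProbabilityMeasure m]
    (hm : ∀ t : ℝ, MeasurePreserving (fun x : T.X => geo t • x) m m) {ρ ε : ℝ} (hρ : 0 ≤ ρ)
    (hε : 0 < ε) : ∃ N₀, ∀ N, N₀ ≤ N → m (T.val ⁻¹' T.Bad ρ N) ≤ ENNReal.ofReal ε := by
  obtain ⟨N₀, L, hL, h⟩ := T.time_bad hρ hε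
  refine ⟨N₀, fun N hN => ?_⟩
  have hE : IsOpen (T.val ⁻¹' T.Bad ρ N) := (T.isOpen_Bad ρ N).preimage T.val_emb.continuous
  have hW : MeasurableSet {p : ℝ × T.X | geo p.1 • p.2 ∈ T.val ⁻¹' T.Bad ρ N} :=
    (hE.preimage ((continuous_geo.comp continuous_fst).smul continuous_snd)).measurableSet
  have h1 := Measure.prod_apply (μ := volume.restrict (Ioc 0 L)) (ν := m) hW
  have h2 := Measure.prod_apply_symm (μ := volume.restrict (Ioc 0 L)) (ν := m) hW
  have h3 : ∀ t : ℝ, m (Prod.mk t ⁻¹' {p : ℝ × T.X | geo p.1 • p.2 ∈ T.val ⁻¹' T.Bad ρ N}) =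
      m (T.val ⁻¹' T.Bad ρ N) := fun t =>
    (hm t).measure_preimage hE.measurableSet.nullMeasurableSet
  simp only [h3, lintegral_const, Measure.restrict_apply_univ, Real.volume_Ioc, sub_zero] at h1
  have h4 : (volume.restrict (Ioc 0 L)).prod m
      {p : ℝ × T.X | geo p.1 • p.2 ∈ T.val ⁻¹' T.Bad ρ N} ≤ ENNReal.ofReal (ε * L) := by
    rw [h2]
    refine (lintegral_mono (g := fun _ => ENNReal.ofReal (ε * L)) fun x => ?_).trans (by simp)
    rw [Measure.restrict_apply' measurableSet_Ioc]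
    refine le_trans (measure_mono ?_) (h N hN L le_rfl _ (T.val_mem x))
    exact fun t ht => ⟨ht.2, ht.1⟩
  rw [h1, ENNReal.ofReal_mul hε.le] at h4
  exact (ENNReal.mul_le_mul_iff_left (by simpa using hL) ENNReal.ofReal_ne_top).1 h4

/-- A measure invariant under the geodesic flow is carried by the graph of the section. -/
theorem eq_lift (m : Measure T.X) [IsProbabilityMeasure m]
    (hm : ∀ t : ℝ, MeasurePreserving (fun x : T.X => geo t • x) m m) :
    (m.map T.pr).map T.ι = m := by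
  have h0 : ∀ ρ M : ℕ, m (⋂ N ≥ M, T.val ⁻¹' T.Bad ρ N) = 0 := by
    intro ρ M
    refine le_antisymm (ENNReal.le_of_forall_pos_le_add fun ε hε _ => ?_) zero_le
    obtain ⟨N₀, h⟩ := T.meas_bad m hm (Nat.cast_nonneg ρ) (ε := ε) hε
    rw [zero_add, ← ENNReal.ofReal_coe_nnreal]
    exact (measure_mono fun x hx => mem_iInter₂.1 hx _ (le_max_left M N₀)).trans
      (h _ (le_max_right M N₀))
  have h1 : T.ι ∘ T.pr =ᵐ[m] id := by
    refine measure_mono_null (fun x hx => ?_)
      (measure_iUnion_null fun ρ => measure_iUnion_null fun M => h0 ρ M)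
    have h2 : ∃ h : SL(2, ℝ), (T.val x).2.1 h ≠ T.F.1 (h • T.pr x) := by
      by_contra hc
      push Not at hc
      exact hx (Subtype.ext (Prod.ext rfl (Subtype.ext (funext fun h => (hc h).symm))))
    obtain ⟨h, hh⟩ := h2
    obtain ⟨M, hM⟩ := eventually_atTop.1 (T.ev_eq (h • T.pr x))
    refine mem_iUnion.2 ⟨⌈len h⌉₊, mem_iUnion.2 ⟨M, mem_iInter₂.2 fun N hN => ?_⟩⟩
    exact ⟨h, Nat.le_ceil _, fun e => hh (e.trans (hM N hN))⟩
  rw [Measure.map_map T.measurable_ι T.measurable_pr, Measure.map_congr h1, Measure.map_id]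

theorem not_equi [IsProbabilityMeasure μ] : ¬ Equidistributes T.ν (T.ι s₀) := by
  intro hE
  have hφ : Continuous fun x : T.X => (T.val x).2.1 1 :=
    (Y.cont_ev 1).comp (continuous_snd.comp T.val_emb.continuous)
  have hV : T.Vis 1 0 ⊆ nb 1 T.K := by
    intro y hy
    obtain ⟨m, -, b, c, hb, hc, e⟩ := T.mem_Vis.1 hy
    exact ⟨b, c, hb, (T.step m).CK hc, e⟩
  have hF0 : ∀ y, y ∉ T.Vis 1 0 → T.F.1 y = 0 := fun y hy => (T.F_eq hy).trans (T.h0 y)
  have hK := isCompact_nb 1 T.hK
  have hcs : HasCompactSupport fun x : T.X => (T.val x).2.1 1 := by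
    refine HasCompactSupport.intro (T.pr_proper.isCompact_preimage hK) fun x hx => ?_
    have hcl : IsClosed ({z : S × Y | z.2.1 1 = 0} ∪ Prod.fst ⁻¹' nb 1 T.K) :=
      (isClosed_eq ((Y.cont_ev 1).comp continuous_snd) continuous_const).union
        (hK.isClosed.preimage continuous_fst)
    have := (hcl.closure_subset_iff (s := range (sec T.F))).2 (by
      rintro _ ⟨y, rfl⟩
      by_cases hy : y ∈ T.Vis 1 0
      · exact Or.inr (hV hy)
      · refine Or.inl ?_
        show T.F.1 ((1 : SL(2, ℝ)) • y) = 0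
        rw [one_smul]
        exact hF0 y hy) (T.val_mem x)
    exact this.resolve_right hx
  have h1 := hE ⟨⟨_, hφ⟩, hcs⟩
  have h2 : Tendsto (fun n : ℕ => (T.σ (n + 1)).t) atTop atTop :=
    tendsto_atTop_mono (fun n => (T.step n).tn) tendsto_natCast_atTop_atTop
  have h3 : (1 : ℝ) / 2 ≤ ∫ x, (T.val x).2.1 1 ∂T.ν := by
    refine ge_of_tendsto' (h1.comp h2) fun n => (T.step n).arcH.le.trans ?_
    have hp : Continuous fun s : ℝ => geo (T.σ (n + 1)).t • hor s • s₀ :=
      (continuous_hor.smul continuous_const).const_smul _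
    have hq : Continuous fun s : ℝ => geo (T.σ (n + 1)).t • hor s • T.ι s₀ :=
      (continuous_const_smul (geo (T.σ (n + 1)).t)).comp
        (continuous_smul.comp (continuous_hor.prodMk (continuous_const (y := T.ι s₀))))
    refine intervalIntegral.integral_mono_on zero_le_one
      (((T.inv (n + 1)).1.comp hp).intervalIntegrable _ _)
      ((hφ.comp hq).intervalIntegrable _ _) fun s _ => ?_
    show (T.H (n + 1)).1 (geo (T.σ (n + 1)).t • hor s • s₀) ≤
      (T.val (geo (T.σ (n + 1)).t • hor s • T.ι s₀)).2.1 1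
    rw [← ι_smul, ← ι_smul]
    show _ ≤ T.F.1 ((1 : SL(2, ℝ)) • geo (T.σ (n + 1)).t • hor s • s₀)
    rw [one_smul]
    exact T.H_le_F _ _
  have hZ : MeasurableSet (⋃ n, (T.σ n).Z) :=
    MeasurableSet.iUnion fun n => (T.inv n).2.1.measurableSet
  have h4 : μ (⋃ n, (T.σ n).Z) ≤ 8⁻¹ := by
    rw [T.Z_mono.measure_iUnion]
    exact iSup_le fun n => (T.inv n).2.2.1.le
  have h5 : ∫ x, (T.val x).2.1 1 ∂T.ν ≤ 1 / 8 := by
    rw [ν, integral_map T.measurable_ι.aemeasurable hφ.aestronglyMeasurable]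
    have h6 : ∫ y, (T.val (T.ι y)).2.1 1 ∂μ ≤
        ∫ y, (⋃ n, (T.σ n).Z).indicator (fun _ => (1 : ℝ)) y ∂μ := by
      refine integral_mono_of_nonneg (Eventually.of_forall fun y => ((T.val (T.ι y)).2.2.1 1).1)
        ((integrable_const _).indicator hZ) (Eventually.of_forall fun y => ?_)
      by_cases hy : y ∈ ⋃ n, (T.σ n).Z
      · simp only [indicator_of_mem hy]
        exact ((T.val (T.ι y)).2.2.1 1).2
      · simp only [indicator_of_notMem hy]
        show T.F.1 ((1 : SL(2, ℝ)) • y) ≤ 0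
        rw [one_smul]
        refine (hF0 y fun hv => hy ?_).le
        obtain ⟨m, -, hm⟩ := T.mem_Vis.1 hv
        exact mem_iUnion.2 ⟨m + 1, (T.step m).nbZ
          (nb_mono ((one_le_pow₀ one_le_two).trans (T.two_le m)) _ hm)⟩
    rw [integral_indicator_const _ hZ, smul_eq_mul, mul_one] at h6
    refine h6.trans ?_
    have h2 := ENNReal.toReal_mono (by simp) h4
    simpa [Measure.real] using h2
  linarith

end Tw

end Pool.Agent.Lib.MP_3615e3_an.Bar
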