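import Pool.Agent.Lib.MP_3615e3_an.Defs

open MeasureTheory Filter Topology Set
open scoped MatrixGroups CompactlySupported

namespace Pool.Agent.Lib.MP_3615e3_an

/-- The time averages over `0 ≤ t ≤ L` of the expanded horocycle arcs through `x` converge to `μ`
in the weak-* topology as `L → ∞`. -/
def Cesaro {X : Type*} [TopologicalSpace X] [MeasurableSpace X] [MulAction SL(2, ℝ) X]
    (μ : Measure X) (x : X) : Prop :=
  ∀ f : C_c(X, ℝ), Tendsto (fun L : ℝ => L⁻¹ * ∫ t in (0 : ℝ)..L, arc x t f) atTop
    (𝓝 (∫ y, f y ∂μ))

/-- A locally compact second countable Hausdorff space with its Borel structure and a continuous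
action of `SL(2, ℝ)`. -/
structure Space where
  X : Type
  [top : TopologicalSpace X]
  [t2 : T2Space X]
  [lc : LocallyCompactSpace X]
  [sc : SecondCountableTopology X]
  [ms : MeasurableSpace X]
  [bs : BorelSpace X]
  [act : MulAction SL(2, ℝ) X]
  [cs : ContinuousSMul SL(2, ℝ) X]

attribute [instance] Space.top Space.t2 Space.lc Space.sc Space.ms Space.bs Space.act Space.cs

end Pool.Agent.Lib.MP_3615e3_an
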