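import Pool.Agent.Lib.MP_3615e3_an.Bar5
import Pool.Agent.Lib.MP_3615e3_an.BarDefs

/-! Convergence of time averages lifts to the extension. -/

open MeasureTheory Filter Topology Set
open scoped MatrixGroups CompactlySupported ENNReal

namespace Pool.Agent.Lib.MP_3615e3_an.Bar

open Pool.Agent.Lib.MP_3615e3_an

theorem abs_int_le {A : Type*} [MeasurableSpace A] (m : Measure A) [IsFiniteMeasure m]
    {G : A → ℝ} {E : Set A} (hE : MeasurableSet E) {ε M : ℝ} (hε : 0 ≤ ε)
    (h1 : ∀ a, |G a| ≤ M) (h2 : ∀ a, a ∉ E → |G a| ≤ ε) :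
    |∫ a, G a ∂m| ≤ ε * m.real univ + M * m.real E := by
  have hi : Integrable (fun a => ε + E.indicator (fun _ => M) a) m :=
    (integrable_const _).add ((integrable_const _).indicator hE)
  have h := norm_integral_le_of_norm_le (f := G) hi (Eventually.of_forall fun a => by
    rw [Real.norm_eq_abs]
    by_cases ha : a ∈ E
    · rw [indicator_of_mem ha]
      linarith [h1 a]
    · rw [indicator_of_notMem ha, add_zero]
      exact h2 a ha)
  rw [integral_add (integrable_const _) ((integrable_const _).indicator hE), integral_const,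
    integral_indicator_const _ hE, smul_eq_mul, smul_eq_mul, Real.norm_eq_abs] at h
  linarith

theorem unif_margin {S : Type*} [TopologicalSpace S] [SecondCountableTopology S]
    {f : S × Y → ℝ} (hf : Continuous f) {K : Set S} (hK : IsCompact K)
    (h0 : ∀ z : S × Y, z.1 ∉ K → f z = 0) {ε : ℝ} (hε : 0 < ε) :
    ∃ ρ : ℕ, ∀ (y : S) (Φ Ψ : Y), (∀ h, len h ≤ ρ → Φ.1 h = Ψ.1 h) →
      |f (y, Φ) - f (y, Ψ)| ≤ ε := by
  by_contra hc
  push Not at hc
  choose y Φ Ψ h1 h2 using hc
  have hy : ∀ k, (y k, Φ k, Ψ k) ∈ K ×ˢ (univ : Set (Y × Y)) := fun k => ⟨by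
    by_contra hn
    have := h2 k
    rw [h0 (y k, Φ k) hn, h0 (y k, Ψ k) hn] at this
    simp at this
    linarith, mem_univ _⟩
  obtain ⟨⟨a, P, Q⟩, -, φ, hφ, ht⟩ := (hK.prod isCompact_univ).tendsto_subseq hy
  have t1 := (continuous_fst.tendsto _).comp ht
  have t2 := (continuous_fst.tendsto _).comp ((continuous_snd.tendsto _).comp ht)
  have t3 := (continuous_snd.tendsto _).comp ((continuous_snd.tendsto _).comp ht)
  have e : P = Q := by
    refine Subtype.ext (funext fun h => ?_)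
    refine tendsto_nhds_unique_of_eventuallyEq (((Y.cont_ev h).tendsto _).comp t2)
      (((Y.cont_ev h).tendsto _).comp t3) ?_
    exact ((tendsto_natCast_atTop_atTop.comp hφ.tendsto_atTop).eventually_ge_atTop (len h)).mono
      fun k hk => h1 (φ k) h hk
  subst e
  have t4 := (((hf.tendsto _).comp (t1.prodMk_nhds t2)).sub
    ((hf.tendsto _).comp (t1.prodMk_nhds t3))).abs
  have t5 := ge_of_tendsto' t4 fun k => (h2 (φ k)).le
  simp at t5
  linarith

theorem ces_prod {X : Type*} [TopologicalSpace X] [MulAction SL(2, ℝ) X]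
    [ContinuousSMul SL(2, ℝ) X] {f : X → ℝ} (hf : Continuous f) {M : ℝ} (hM : ∀ y, |f y| ≤ M)
    (x : X) {L : ℝ} (hL : 0 ≤ L) :
    ∫ t in (0 : ℝ)..L, arc x t f = ∫ p : ℝ × ℝ, f (geo p.1 • hor p.2 • x)
      ∂((volume.restrict (Ioc 0 L)).prod (volume.restrict (Ioc (0 : ℝ) 1))) := by
  have hc : Continuous fun p : ℝ × ℝ => f (geo p.1 • hor p.2 • x) :=
    hf.comp ((continuous_geo.comp continuous_fst).smul
      ((continuous_hor.comp continuous_snd).smul continuous_const))
  rw [integral_prod _ (Integrable.of_bound hc.aestronglyMeasurable M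
    (Eventually.of_forall fun p => hM _)), intervalIntegral.integral_of_le hL]
  simp only [arc, intervalIntegral.integral_of_le zero_le_one]

namespace Tw

variable {S : Type*} [TopologicalSpace S] [MulAction SL(2, ℝ) S] [MeasurableSpace S]
  [ContinuousSMul SL(2, ℝ) S] [T2Space S] [LocallyCompactSpace S] [SecondCountableTopology S]
  [BorelSpace S] {μ : Measure S} {s₀ : S} {O : ℕ → Set (S × Y)} (T : Tw μ s₀ O)

omit [BorelSpace S] in
theorem approx (f : C_c(T.X, ℝ)) : ∃ M : ℝ, 0 < M ∧ ∀ ε : ℝ, 0 < ε → ∃ ρ : ℕ, ∀ N,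
    ∃ g : C_c(S, ℝ), (∀ x, |f x - g (T.pr x)| ≤ M) ∧
      ∀ x, x ∉ T.val ⁻¹' T.Bad ρ N → |f x - g (T.pr x)| ≤ ε := by
  obtain ⟨f₁, hf₁⟩ := ContinuousMap.exists_restrict_eq
    (s := closure (range (sec T.F))) isClosed_closure ⟨fun x => f x, map_continuous f⟩
  have hf₁' : ∀ x : T.X, f₁ (T.val x) = f x := fun x => DFunLike.congr_fun hf₁ x
  obtain ⟨χ, hχ1, -, hχc, -⟩ := exists_continuous_one_zero_of_isCompact
    (f.hasCompactSupport.isCompact.image T.pr_proper.continuous) isClosed_empty (disjoint_empty _)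
  let f₂ : S × Y → ℝ := fun z => χ z.1 * f₁ z
  have hc : Continuous f₂ := (χ.continuous.comp continuous_fst).mul f₁.continuous
  have h0 : ∀ z : S × Y, z.1 ∉ tsupport χ → f₂ z = 0 := fun z hz => by
    show χ z.1 * f₁ z = 0
    rw [image_eq_zero_of_notMem_tsupport hz, zero_mul]
  have hv : ∀ x : T.X, f₂ (T.val x) = f x := fun x => by
    show χ (T.pr x) * f₁ (T.val x) = f x
    rw [hf₁']
    by_cases hx : x ∈ tsupport f
    · rw [hχ1 ⟨x, hx, rfl⟩, Pi.one_apply, one_mul]
    · rw [image_eq_zero_of_notMem_tsupport hx, mul_zero]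
  have hcs : HasCompactSupport f₂ :=
    HasCompactSupport.intro (hχc.isCompact.prod isCompact_univ) fun z hz =>
      h0 z fun h => hz ⟨h, mem_univ _⟩
  obtain ⟨M, hM⟩ := hcs.exists_bound_of_continuous hc
  have hM0 : 0 ≤ M := (norm_nonneg _).trans (hM (sec T.F s₀))
  refine ⟨2 * M + 1, by linarith, fun ε hε => ?_⟩
  obtain ⟨ρ, hρ⟩ := unif_margin hc hχc.isCompact h0 hε
  refine ⟨ρ, fun N => ⟨⟨⟨fun y => f₂ (sec (T.H N) y), hc.comp (continuous_sec (T.inv N).1)⟩,
    HasCompactSupport.intro hχc.isCompact fun y hy => h0 _ hy⟩, fun x => ?_, fun x hx => ?_⟩⟩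
  · show |f x - f₂ (sec (T.H N) (T.pr x))| ≤ 2 * M + 1
    rw [← hv]
    have a := hM (T.val x)
    have b := hM (sec (T.H N) (T.pr x))
    rw [Real.norm_eq_abs] at a b
    linarith [abs_sub (f₂ (T.val x)) (f₂ (sec (T.H N) (T.pr x)))]
  · show |f x - f₂ (sec (T.H N) (T.pr x))| ≤ ε
    rw [← hv]
    refine hρ (T.pr x) (T.val x).2 (sec (T.H N) (T.pr x)).2 fun h hh => ?_
    by_contra hne
    exact hx ⟨h, hh, hne⟩

theorem cesaro (m : Measure S) [IsProbabilityMeasure m]
    (hm : ∀ t : ℝ, MeasurePreserving (fun y : S => geo t • y) m m) (x : T.X)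
    (hx : Cesaro m (T.pr x)) : Cesaro (m.map T.ι) x := by
  haveI : IsProbabilityMeasure (m.map T.ι) :=
    Measure.isProbabilityMeasure_map T.measurable_ι.aemeasurable
  have hinv : ∀ t : ℝ, MeasurePreserving (fun y : T.X => geo t • y) (m.map T.ι) (m.map T.ι) := by
    intro t
    refine ⟨(continuous_const_smul _).measurable, ?_⟩
    conv_rhs => rw [← (hm t).map_eq]
    rw [Measure.map_map (continuous_const_smul _).measurable T.measurable_ι,
      Measure.map_map T.measurable_ι (hm t).measurable]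
    exact congrArg (fun φ => m.map φ) (funext fun y => (T.ι_smul _ y).symm)
  have hpr : (m.map T.ι).map T.pr = m := by
    rw [Measure.map_map T.measurable_pr T.measurable_ι]
    exact Measure.map_id
  intro f
  rw [Metric.tendsto_atTop]
  intro δ hδ
  obtain ⟨M, hM, hap⟩ := T.approx f
  obtain ⟨ε, hε, hεδ⟩ : ∃ ε : ℝ, 0 < ε ∧ ε * (3 + 2 * M) < δ :=
    ⟨δ / (2 * (3 + 2 * M)), by positivity, by
      rw [div_mul_eq_mul_div, div_lt_iff₀ (by positivity)]
      nlinarith⟩
  obtain ⟨ρ, hρ⟩ := hap ε hε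
  obtain ⟨N₁, L₁, hL₁, h1⟩ := T.time_bad (Nat.cast_nonneg ρ) hε
  obtain ⟨N₂, h2⟩ := T.meas_bad (m.map T.ι) hinv (Nat.cast_nonneg ρ) hε
  obtain ⟨g, hg1, hg2⟩ := hρ (max N₁ N₂)
  obtain ⟨L₂, hL₂⟩ := Metric.tendsto_atTop.1 (hx g) ε hε
  refine ⟨max L₁ L₂, fun L hL => ?_⟩
  have hLp : 0 < L := hL₁.trans_le ((le_max_left _ _).trans hL)
  have hE : IsOpen (T.val ⁻¹' T.Bad ρ (max N₁ N₂)) :=
    (T.isOpen_Bad _ _).preimage T.val_emb.continuous
  have hgc : Continuous fun y : T.X => g (T.pr y) := (map_continuous g).comp T.pr_proper.continuous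
  obtain ⟨Mf, hMf⟩ := exists_bound f
  obtain ⟨Mg, hMg⟩ := exists_bound g
  have a1 : |∫ y, f y ∂(m.map T.ι) - ∫ y, g y ∂m| ≤ ε + M * ε := by
    have e1 : ∫ y, g y ∂m = ∫ y, g (T.pr y) ∂(m.map T.ι) := by
      conv_lhs => rw [← hpr]
      exact integral_map T.measurable_pr.aemeasurable (map_continuous g).aestronglyMeasurable
    rw [e1, ← integral_sub f.integrable (Integrable.of_bound hgc.aestronglyMeasurable Mg
      (Eventually.of_forall fun y => hMg _))]
    refine (abs_int_le (m.map T.ι) hE.measurableSet hε.le hg1 hg2).trans ?_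
    have := ENNReal.toReal_le_of_le_ofReal hε.le (h2 _ (le_max_right N₁ N₂))
    rw [probReal_univ, mul_one]
    exact add_le_add le_rfl (mul_le_mul_of_nonneg_left this hM.le)
  have hp : Continuous fun p : ℝ × ℝ => geo p.1 • hor p.2 • x :=
    (continuous_geo.comp continuous_fst).smul
      (continuous_smul.comp ((continuous_hor.comp continuous_snd).prodMk continuous_const))
  have a2 : |(∫ t in (0 : ℝ)..L, arc x t f) - ∫ t in (0 : ℝ)..L, arc (T.pr x) t g| ≤
      (ε + M * ε) * L := by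
    have e1 : ∫ t in (0 : ℝ)..L, arc (T.pr x) t g =
        ∫ t in (0 : ℝ)..L, arc x t fun y => g (T.pr y) := rfl
    have c1 : Continuous fun p : ℝ × ℝ => f (geo p.1 • hor p.2 • x) := (map_continuous f).comp hp
    have c2 : Continuous fun p : ℝ × ℝ => g (T.pr (geo p.1 • hor p.2 • x)) := hgc.comp hp
    rw [e1, ces_prod (map_continuous f) hMf x hLp.le, ces_prod hgc (fun y => hMg _) x hLp.le,
      ← integral_sub (Integrable.of_bound c1.aestronglyMeasurable Mf
        (Eventually.of_forall fun p => hMf _))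
        (Integrable.of_bound c2.aestronglyMeasurable Mg
        (Eventually.of_forall fun p => hMg _))]
    have hW := (hE.preimage hp).measurableSet
    refine (abs_int_le _ hW hε.le (fun p => hg1 _) fun p hp' => hg2 _ hp').trans ?_
    have b1 : ((volume.restrict (Ioc 0 L)).prod (volume.restrict (Ioc (0 : ℝ) 1))).real univ = L := by
      rw [Measure.real, ← univ_prod_univ, Measure.prod_prod]
      simp [hLp.le]
    have b2 : ((volume.restrict (Ioc 0 L)).prod (volume.restrict (Ioc (0 : ℝ) 1)))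
        ((fun p : ℝ × ℝ => geo p.1 • hor p.2 • x) ⁻¹' (T.val ⁻¹' T.Bad ρ (max N₁ N₂))) ≤
        ENNReal.ofReal (ε * L) := by
      rw [Measure.prod_apply_symm hW]
      refine (lintegral_mono (g := fun _ => ENNReal.ofReal (ε * L)) fun s => ?_).trans (by simp)
      rw [Measure.restrict_apply' measurableSet_Ioc]
      refine le_trans (measure_mono ?_) (h1 _ (le_max_left N₁ N₂) L ((le_max_left _ _).trans hL) _
        (T.val_mem (hor s • x)))
      exact fun t ht => ⟨ht.2, ht.1⟩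
    have b3 := ENNReal.toReal_le_of_le_ofReal (by positivity) b2
    rw [b1]
    have b4 := mul_le_mul_of_nonneg_left b3 hM.le
    rw [Measure.real]
    linarith
  have a3 := hL₂ L ((le_max_right _ _).trans hL)
  rw [Real.dist_eq] at a3 ⊢
  have a4 : |L⁻¹ * (∫ t in (0 : ℝ)..L, arc x t f) -
      L⁻¹ * ∫ t in (0 : ℝ)..L, arc (T.pr x) t g| ≤ ε + M * ε := by
    rw [← mul_sub, abs_mul, abs_of_pos (inv_pos.2 hLp), inv_mul_le_iff₀ hLp, mul_comm]
    exact a2
  rw [abs_le] at a1 a4
  rw [abs_lt] at a3 ⊢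
  constructor <;> nlinarith [a1.1, a1.2, a3.1, a3.2, a4.1, a4.2]

end Tw

theorem exists_basis (Z : Type*) [TopologicalSpace Z] [SecondCountableTopology Z] :
    ∃ O : ℕ → Set Z, (∀ n, IsOpen (O n)) ∧ ∀ U : Set Z, IsOpen U → ∀ z ∈ U,
      ∃ B, IsOpen B ∧ z ∈ B ∧ B ⊆ U ∧ ∀ N, ∃ n, N ≤ n ∧ O n = B := by
  obtain ⟨b, hb⟩ := ((TopologicalSpace.countable_countableBasis Z).insert ∅).exists_eq_range
    (insert_nonempty _ _)
  have ho : ∀ n, IsOpen (b n) := fun n => by
    have : b n ∈ insert ∅ (TopologicalSpace.countableBasis Z) := hb ▸ mem_range_self n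
    rcases this with h | h
    · rw [h]
      exact isOpen_empty
    · exact TopologicalSpace.isOpen_of_mem_countableBasis h
  refine ⟨fun n => b n.unpair.1, fun n => ho _, fun U hU z hz => ?_⟩
  obtain ⟨B, hB, hzB, hBU⟩ :=
    (TopologicalSpace.isBasis_countableBasis Z).exists_subset_of_mem_open hz hU
  obtain ⟨i, rfl⟩ : B ∈ range b := hb ▸ mem_insert_of_mem _ hB
  exact ⟨b i, ho i, hzB, hBU, fun N => ⟨Nat.pair i N, Nat.right_le_pair i N, by
    simp only [Nat.unpair_pair]⟩⟩

end Pool.Agent.Lib.MP_3615e3_an.Bar
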