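import Pool.Agent.Lib.MP_3615e3_an.Ex1

/-! Assembly of the extension theorem. -/

open MeasureTheory Filter Topology Set
open scoped MatrixGroups CompactlySupported

namespace Pool.Agent.Lib.MP_3615e3_an.Bar

open Pool.Agent.Lib.MP_3615e3_an

theorem acc_of {S : Space} {μ : Measure S.X} {x : S.X} (h : Cesaro μ x) : Accumulates μ x := by
  intro f δ hδ T
  by_contra hc
  push Not at hc
  obtain ⟨M, hM⟩ := exists_bound f
  have hcont : Continuous fun t => arc x t f :=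
    intervalIntegral.continuous_parametric_intervalIntegral_of_continuous' (μ := volume)
      (f := fun t s => f (geo t • hor s • x)) ((map_continuous f).comp
        ((continuous_geo.comp continuous_fst).smul
          ((continuous_hor.comp continuous_snd).smul continuous_const))) 0 1
  have h1 : Tendsto (fun L : ℝ => L⁻¹ * ∫ t in (0 : ℝ)..L, arc x (t + |T|) f) atTop
      (𝓝 (∫ y, f y ∂μ)) := by
    have h2 : Tendsto (fun L : ℝ => L⁻¹ * ((∫ t in (0 : ℝ)..L, arc x (t + |T|) f) -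
        ∫ t in (0 : ℝ)..L, arc x t f)) atTop (𝓝 0) := by
      have h3 : Tendsto (fun L : ℝ => L⁻¹ * (2 * M * |(|T|)|)) atTop (𝓝 0) := by
        simpa using tendsto_inv_atTop_zero.mul_const (2 * (M : ℝ) * |(|T|)|)
      refine squeeze_zero_norm' ?_ h3
      filter_upwards [eventually_gt_atTop 0] with L hL
      rw [Real.norm_eq_abs, abs_mul, abs_of_pos (inv_pos.2 hL)]
      exact mul_le_mul_of_nonneg_left (shift_le hcont (abs_arc_le hM x) L |T|) (inv_pos.2 hL).le
    have h4 := h2.add (h f)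
    rw [zero_add] at h4
    refine h4.congr fun L => by ring
  have := le_of_avg le_rfl (hcont.comp (continuous_id.add continuous_const)) h1
    fun t ht => hc (t + |T|) (by linarith [le_abs_self T])
  linarith

theorem meagre {S : Space} (μ : Measure S.X) [IsProbabilityMeasure μ]
    [ErgodicSMul SL(2, ℝ) S.X μ] [μ.IsOpenPosMeasure] {x : S.X} (hx : Accumulates μ x)
    (h : ¬ Equidistributes μ x) : IsMeagre {y | Equidistributes μ y} := by
  by_contra hm
  refine h fun f => ?_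
  rw [Metric.tendsto_atTop]
  intro ε hε
  obtain ⟨ψ, -, -, M, hM, hMψ, T, hT⟩ := stable_of_not_meagre μ hm f hε
  obtain ⟨τ, hτ, hψ⟩ := hx ψ (ε / 8 / (M + 1)) (by positivity) T
  refine ⟨τ + T, fun t ht => (hT x τ t hτ ht).trans_lt ?_⟩
  have h3 : M * (ε / 8 / (M + 1)) ≤ ε / 8 := by
    rw [← mul_div_assoc, div_le_iff₀ (by linarith)]
    nlinarith
  have h4 : M * (1 - arc x τ ψ) ≤ M * (1 - ∫ y, ψ y ∂μ + ε / 8 / (M + 1)) :=
    mul_le_mul_of_nonneg_left (by linarith) hM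
  rw [mul_add] at h4
  linarith

theorem exists_ext (S : Space) (μ : Measure S.X) [IsProbabilityMeasure μ] [ErgodicSMul SL(2, ℝ) S.X μ]
    [μ.IsOpenPosMeasure] (s : S.X) (h1 : ∀ g : SL(2, ℝ), g • s = s → g = 1 ∨ g = -1)
    (h2 : μ (MulAction.orbit SL(2, ℝ) s) = 0) (h3 : Cesaro μ s) :
    ∃ (X : Space) (π : X.X → S.X) (ι : S.X → X.X), IsProperMap π ∧ Measurable ι ∧
      (∀ y, π (ι y) = y) ∧ (∀ (g : SL(2, ℝ)) x, π (g • x) = g • π x) ∧
      (∀ (g : SL(2, ℝ)) y, ι (g • y) = g • ι y) ∧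
      (∀ m : Measure X.X, IsProbabilityMeasure m →
        (∀ t : ℝ, MeasurePreserving (fun x : X.X => geo t • x) m m) → (m.map π).map ι = m) ∧
      (∀ m : Measure S.X, IsProbabilityMeasure m →
        (∀ t : ℝ, MeasurePreserving (fun y : S.X => geo t • y) m m) →
        ∀ x, Cesaro m (π x) → Cesaro (m.map ι) x) ∧
      ErgodicSMul SL(2, ℝ) X.X (μ.map ι) ∧ (μ.map ι).IsOpenPosMeasure ∧
      Dense (MulAction.orbit SL(2, ℝ) (ι s)) ∧ ¬ Equidistributes (μ.map ι) (ι s) ∧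
      IsMeagre {x | Equidistributes (μ.map ι) x} := by
  obtain ⟨O, hO, hO'⟩ := exists_basis (S.X × Y)
  obtain ⟨K, σ, a1, a2, a3, a4, a5⟩ := exists_tower μ h1 h2 (acc_of h3) O hO
  let T : Tw μ s O := ⟨K, σ, a1, a2, a3, a4, a5⟩
  haveI : T.ν.IsOpenPosMeasure := ⟨fun U hU hne => (T.hit_open hO' hU hne).2⟩
  refine ⟨⟨T.X⟩, T.pr, T.ι, T.pr_proper, T.measurable_ι, T.pr_ι, T.pr_smul, T.ι_smul,
    fun m _ hm => T.eq_lift m hm, fun m _ hm x hx => T.cesaro m hm x hx,
    inferInstanceAs (ErgodicSMul SL(2, ℝ) T.X T.ν),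
    inferInstanceAs T.ν.IsOpenPosMeasure, ?_, T.not_equi, meagre (S := ⟨T.X⟩) T.ν (acc_of (S := ⟨T.X⟩)
      (T.cesaro μ (fun t => measurePreserving_smul (geo t) μ) (T.ι s) h3)) T.not_equi⟩
  refine dense_iff_inter_open.2 fun U hU hne => ?_
  obtain ⟨g, hg⟩ := (T.hit_open hO' hU hne).1
  exact ⟨_, hg, g, rfl⟩

end Pool.Agent.Lib.MP_3615e3_an.Bar
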