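import Pool.Agent.Lib.MP_3615e3_an.Defs

open MeasureTheory Filter Topology Set
open scoped MatrixGroups CompactlySupported NNReal ENNReal symmDiff Pointwise

namespace Pool.Agent.Lib.MP_3615e3_an

/-- lower unipotent -/
noncomputable def low (s : ℝ) : SL(2, ℝ) :=
  ⟨!![1, 0; s, 1], by simp [Matrix.det_fin_two]⟩

theorem geo_add (a b : ℝ) : geo (a + b) = geo a * geo b := by
  ext i j
  fin_cases i <;> fin_cases j <;>
    simp [geo, Matrix.mul_apply, Fin.sum_univ_two, ← Real.exp_add, add_comm]

theorem geo_zero : geo 0 = 1 := by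
  ext i j
  fin_cases i <;> fin_cases j <;> simp [geo]

theorem hor_add (a b : ℝ) : hor (a + b) = hor a * hor b := by
  ext i j
  fin_cases i <;> fin_cases j <;>
    simp [hor, Matrix.mul_apply, Fin.sum_univ_two, add_comm]

theorem hor_zero : hor 0 = 1 := by
  ext i j
  fin_cases i <;> fin_cases j <;> simp [hor]

theorem low_zero : low 0 = 1 := by
  ext i j
  fin_cases i <;> fin_cases j <;> simp [low]

theorem hor_mul_geo (r τ : ℝ) : hor r * geo τ = geo τ * hor (Real.exp (-2 * τ) * r) := by
  have h : Real.exp τ * Real.exp (-2 * τ) = Real.exp (-τ) := by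
    rw [← Real.exp_add]; congr 1; ring
  ext i j
  fin_cases i <;> fin_cases j <;>
    simp [hor, geo, Matrix.mul_apply, Fin.sum_univ_two]
  rw [← mul_assoc]
  have h' : Real.exp τ * Real.exp (-(2 * τ)) = Real.exp (-τ) := by
    rw [← Real.exp_add]; congr 1; ring
  rw [h', mul_comm]

theorem geo_mul_low (r τ : ℝ) : geo τ * low r = low (Real.exp (-2 * τ) * r) * geo τ := by
  ext i j
  fin_cases i <;> fin_cases j <;>
    simp [low, geo, Matrix.mul_apply, Fin.sum_univ_two]
  have h' : Real.exp (-(2 * τ)) * Real.exp τ = Real.exp (-τ) := by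
    rw [← Real.exp_add]; congr 1; ring
  rw [mul_right_comm, h']

theorem continuous_geo : Continuous geo := by
  refine continuous_induced_rng.2 ?_
  refine continuous_matrix fun i j => ?_
  fin_cases i <;> fin_cases j <;> simp [geo] <;> fun_prop

theorem continuous_hor : Continuous hor := by
  refine continuous_induced_rng.2 ?_
  refine continuous_matrix fun i j => ?_
  fin_cases i <;> fin_cases j <;> simp [hor] <;> fun_prop

theorem continuous_low : Continuous low := by
  refine continuous_induced_rng.2 ?_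
  refine continuous_matrix fun i j => ?_
  fin_cases i <;> fin_cases j <;> simp [low] <;> fun_prop

theorem eq_top_of_unip (H : Subgroup SL(2, ℝ)) (h1 : ∀ s, hor s ∈ H) (h2 : ∀ s, low s ∈ H) :
    H = ⊤ := by
  have key : ∀ g : SL(2, ℝ), g 1 0 ≠ 0 → g ∈ H := by
    intro g hc
    have hdet : g 0 0 * g 1 1 - g 0 1 * g 1 0 = 1 := by
      have := g.det_coe
      rwa [Matrix.det_fin_two] at this
    have : g = hor ((g 0 0 - 1) / g 1 0) * low (g 1 0) * hor ((g 1 1 - 1) / g 1 0) := by
      ext i j
      fin_cases i <;> fin_cases j <;>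
        simp [hor, low, Matrix.mul_apply, Fin.sum_univ_two] <;> field_simp <;>
        first | ring1 | linear_combination (-1 : ℝ) * hdet
    rw [this]
    exact H.mul_mem (H.mul_mem (h1 _) (h2 _)) (h1 _)
  rw [Subgroup.eq_top_iff']
  intro g
  by_cases hc : g 1 0 = 0
  · have hdet : g 0 0 * g 1 1 - g 0 1 * g 1 0 = 1 := by
      have := g.det_coe
      rwa [Matrix.det_fin_two] at this
    have h00 : g 0 0 ≠ 0 := by
      intro h; rw [h, hc] at hdet; simp at hdet
    have : (low 1 * g) 1 0 ≠ 0 := by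
      simp [low, Matrix.mul_apply, Fin.sum_univ_two, hc, h00]
    have h3 := key _ this
    have := H.mul_mem (H.inv_mem (h2 1)) h3
    simpa using this
  · exact key g hc

/-- rising sun lemma -/
theorem rising {G : ℝ → ℝ} {L : ℝ≥0} (hG : LipschitzWith L G) {a b : ℝ} (hab : a ≤ b)
    {A : Set ℝ} (hA : ∀ s ∈ Ico a b, s ∉ A → ∃ s' ∈ Ioc s b, G s' ≤ G s) :
    ENNReal.ofReal (G b - G a) ≤ L * volume A := by
  have hsub : Ico (G a) (G b) ⊆ G '' A := by
    intro y hy
    set Z : Set ℝ := Icc a b ∩ G ⁻¹' Iic y with hZ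
    have hZc : IsClosed Z := isClosed_Icc.inter (isClosed_Iic.preimage hG.continuous)
    have hZn : Z.Nonempty := ⟨a, ⟨le_rfl, hab⟩, hy.1⟩
    have hZb : BddAbove Z := ⟨b, fun s hs => hs.1.2⟩
    have hs := hZc.csSup_mem hZn hZb
    set s := sSup Z with hsdef
    have hsb : s < b := by
      rcases hs.1.2.eq_or_lt with h | h
      · have h2 : G s ≤ y := hs.2
        rw [h] at h2
        exact absurd hy.2 (not_lt.2 h2)
      · exact h
    have hGs : G s = y := by
      have hmem : y ∈ Icc (G s) (G b) := ⟨hs.2, hy.2.le⟩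
      obtain ⟨r, hr, hry⟩ := intermediate_value_Icc hsb.le hG.continuous.continuousOn hmem
      have : r ≤ s := le_csSup hZb ⟨⟨hs.1.1.trans hr.1, hr.2⟩, hry.le⟩
      rw [← hry, le_antisymm this hr.1]
    refine ⟨s, ?_, hGs⟩
    by_contra hsA
    obtain ⟨s', hs', hle⟩ := hA s ⟨hs.1.1, hsb⟩ hsA
    have : s' ≤ s := le_csSup hZb ⟨⟨hs.1.1.trans hs'.1.le, hs'.2⟩, hle.trans hs.2⟩
    exact absurd hs'.1 (not_lt.2 this)
  calc ENNReal.ofReal (G b - G a) = volume (Ico (G a) (G b)) := by rw [Real.volume_Ico]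
    _ ≤ volume (G '' A) := measure_mono hsub
    _ ≤ L * volume A := by
      have := hG.hausdorffMeasure_image_le (d := 1) zero_le_one A
      rw [hausdorffMeasure_real] at this
      simpa using this

end Pool.Agent.Lib.MP_3615e3_an
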