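import Pool.Agent.Lib.MP_3615e3_an.Mautner

open MeasureTheory Filter Topology Set
open scoped MatrixGroups CompactlySupported NNReal ENNReal symmDiff Pointwise

namespace Pool.Agent.Lib.MP_3615e3_an

variable {X : Type*} [TopologicalSpace X] [MulAction SL(2, ℝ) X] [ContinuousSMul SL(2, ℝ) X]

theorem continuous_path {φ : X → ℝ} (hφ : Continuous φ) (x : X) (t : ℝ) :
    Continuous fun s : ℝ => φ (geo t • hor s • x) :=
  hφ.comp ((continuous_hor.smul continuous_const).const_smul _)

theorem continuous_arc {φ : X → ℝ} (hφ : Continuous φ) (t : ℝ) :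
    Continuous fun x : X => arc x t φ := by
  unfold arc
  refine intervalIntegral.continuous_parametric_intervalIntegral_of_continuous' ?_ 0 1
  exact hφ.comp (((continuous_hor.comp continuous_snd).smul continuous_fst).const_smul _)

theorem arc_sub (φ : X → ℝ) (x : X) (σ s t : ℝ) :
    arc (geo σ • hor s • x) (t - σ) φ
      = (Real.exp (-2 * σ))⁻¹ * ∫ r in s..(s + Real.exp (-2 * σ)), φ (geo t • hor r • x) := by
  unfold arc
  have h1 : ∀ r : ℝ, geo (t - σ) • hor r • geo σ • hor s • x
      = geo t • hor (Real.exp (-2 * σ) * r + s) • x := by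
    intro r
    simp only [← mul_smul]
    congr 1
    rw [← mul_assoc (hor r), hor_mul_geo, mul_assoc, ← hor_add, ← mul_assoc, ← geo_add,
      sub_add_cancel]
  simp_rw [h1]
  have := intervalIntegral.integral_comp_mul_add (a := 0) (b := 1)
    (fun r => φ (geo t • hor r • x)) (Real.exp_pos (-2 * σ)).ne' s
  rw [this]
  simp [add_comm]

theorem cover {φ : X → ℝ} (hφ : Continuous φ) {M : ℝ≥0} (hM : ∀ y, |φ y| ≤ M) {W : Set X}
    {T : ℝ} (hW : ∀ y ∈ W, ∀ t, T ≤ t → arc y t φ ≤ 0) {N : ℕ} {ψ : X → ℝ} (hψ : Continuous ψ)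
    (hψ1 : ∀ y, ψ y ≤ 1) (hψW : ∀ y, y ∉ visit W N → ψ y = 0)
    (x : X) {τ t : ℝ} (ht : τ + N + T ≤ t) :
    arc x t φ ≤ M * (1 - arc x τ ψ + Real.exp (-2 * τ)) := by
  set F : ℝ → ℝ := fun r => φ (geo t • hor r • x) with hF
  have hFc : Continuous F := continuous_path hφ x t
  set G : ℝ → ℝ := fun s => ∫ r in (0 : ℝ)..s, F r with hG
  have hGsub : ∀ a b, G b - G a = ∫ r in a..b, F r := fun a b =>
    intervalIntegral.integral_interval_sub_left (hFc.intervalIntegrable _ _)
      (hFc.intervalIntegrable _ _)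
  have hGL : LipschitzWith M G := by
    refine LipschitzWith.of_dist_le_mul fun a b => ?_
    rw [Real.dist_eq, hGsub, Real.dist_eq]
    exact intervalIntegral.norm_integral_le_of_norm_le_const (f := F) (C := M)
      fun r _ => hM (geo t • hor r • x)
  set P : ℝ → ℝ := fun s => ψ (geo τ • hor s • x) with hP
  have hPc : Continuous P := continuous_path hψ x τ
  set A1 : Set ℝ := Ioc 0 1 ∩ {s | P s = 0} with hA1
  set h := Real.exp (-2 * τ) with hh
  have hh0 : 0 < h := Real.exp_pos _
  have hr := rising hGL zero_le_one (A := A1 ∪ (Ioc (1 - h) 1 ∪ {0})) (by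
    intro s hs hsA
    simp only [mem_union, not_or, mem_singleton_iff] at hsA
    obtain ⟨h1, h2, h3⟩ := hsA
    have hs0 : 0 < s := lt_of_le_of_ne hs.1 (Ne.symm h3)
    have hs1 : s ≤ 1 - h := by
      by_contra hc
      exact h2 ⟨not_le.1 hc, hs.2.le⟩
    have hv : geo τ • hor s • x ∈ visit W N := by
      by_contra hc
      exact h1 ⟨⟨hs0, hs.2.le⟩, hψW _ hc⟩
    obtain ⟨k, hk, hkW⟩ := hv
    rw [← mul_smul, ← geo_add] at hkW
    have hkN : (k : ℝ) ≤ N := by exact_mod_cast hk.le
    have h4 := hW _ hkW (t - (k + τ)) (by linarith)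
    rw [arc_sub] at h4
    have he : 0 < Real.exp (-2 * ((k : ℝ) + τ)) := Real.exp_pos _
    have hle : Real.exp (-2 * ((k : ℝ) + τ)) ≤ h := by
      refine Real.exp_le_exp.2 ?_
      have : (0 : ℝ) ≤ k := Nat.cast_nonneg k
      linarith
    refine ⟨s + Real.exp (-2 * ((k : ℝ) + τ)), ⟨by linarith, by linarith⟩, ?_⟩
    have h5 : ∫ r in s..(s + Real.exp (-2 * ((k : ℝ) + τ))), F r ≤ 0 := by
      by_contra hc
      exact absurd h4 (not_le.2 (mul_pos (inv_pos.2 he) (not_le.1 hc)))
    rw [← hGsub] at h5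
    linarith)
  have hA1m : MeasurableSet A1 :=
    measurableSet_Ioc.inter (isClosed_eq hPc continuous_const).measurableSet
  have hA1f : volume A1 ≠ ∞ :=
    ne_top_of_le_ne_top (by simp) (measure_mono (inter_subset_left : A1 ⊆ Ioc 0 1))
  have hv1 : volume.real A1 ≤ 1 - arc x τ ψ := by
    have h1 : 1 - arc x τ ψ = ∫ s in Ioc (0 : ℝ) 1, (1 - P s) := by
      rw [← intervalIntegral.integral_of_le zero_le_one,
        intervalIntegral.integral_sub (continuous_const.intervalIntegrable _ _)
          (hPc.intervalIntegrable _ _)]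
      simp [arc, hP]
    rw [h1]
    have hint : IntegrableOn (fun s => 1 - P s) (Ioc (0 : ℝ) 1) :=
      ((continuous_const.sub hPc).integrableOn_Icc).mono_set Ioc_subset_Icc_self
    calc volume.real A1 = ∫ s in A1, (1 - P s) := by
          rw [setIntegral_congr_fun hA1m (g := fun _ => (1 : ℝ)) (fun s hs => by
            have : P s = 0 := hs.2
            simp [this])]
          simp
      _ ≤ ∫ s in Ioc (0 : ℝ) 1, (1 - P s) := by
          refine setIntegral_mono_set hint (Eventually.of_forall fun s => ?_)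
            (LE.le.eventuallyLE inter_subset_left)
          have := hψ1 (geo τ • hor s • x)
          simp only [Pi.zero_apply, hP]
          linarith
  have hv2 : volume (A1 ∪ (Ioc (1 - h) 1 ∪ {0})) ≤ ENNReal.ofReal (1 - arc x τ ψ + h) := by
    have h0 : 0 ≤ 1 - arc x τ ψ := measureReal_nonneg.trans hv1
    rw [ENNReal.ofReal_add h0 hh0.le]
    refine (measure_union_le _ _).trans (add_le_add ?_ ?_)
    · rw [← ENNReal.ofReal_toReal hA1f]
      exact ENNReal.ofReal_le_ofReal hv1
    · refine (measure_union_le _ _).trans ?_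
      simp
  have h0 : 0 ≤ 1 - arc x τ ψ + h := by
    have : 0 ≤ 1 - arc x τ ψ := measureReal_nonneg.trans hv1
    linarith
  have hfin := hr.trans (mul_le_mul_right hv2 _)
  rw [← ENNReal.ofReal_coe_nnreal, ← ENNReal.ofReal_mul M.coe_nonneg,
    ENNReal.ofReal_le_ofReal_iff (mul_nonneg M.coe_nonneg h0), hGsub] at hfin
  exact hfin

end Pool.Agent.Lib.MP_3615e3_an
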