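import Mathlib

open MeasureTheory Filter Topology Set
open scoped MatrixGroups CompactlySupported

namespace Pool.Agent.Lib.MP_3615e3_an

/-- The geodesic flow element `diag(e^t, e^(-t))`. -/
noncomputable def geo (t : ℝ) : SL(2, ℝ) :=
  ⟨!![Real.exp t, 0; 0, Real.exp (-t)], by
    simp [Matrix.det_fin_two, ← Real.exp_add]⟩

/-- The horocycle flow element `[[1, s], [0, 1]]`. -/
noncomputable def hor (s : ℝ) : SL(2, ℝ) :=
  ⟨!![1, s; 0, 1], by simp [Matrix.det_fin_two]⟩

/-- The integral of `f` against the uniform measure on the expanded horocycle arc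
`g_t u(s) x`, `0 ≤ s ≤ 1`. -/
noncomputable def arc {X : Type*} [MulAction SL(2, ℝ) X] (x : X) (t : ℝ) (f : X → ℝ) : ℝ :=
  ∫ s in (0 : ℝ)..1, f (geo t • hor s • x)

/-- The expanded horocycle arcs through `x` converge to `μ` in the weak-* topology
(test functions: continuous with compact support). -/
def Equidistributes {X : Type*} [TopologicalSpace X] [MeasurableSpace X] [MulAction SL(2, ℝ) X]
    (μ : Measure X) (x : X) : Prop :=
  ∀ f : C_c(X, ℝ), Tendsto (fun t : ℝ => arc x t f) atTop (𝓝 (∫ y, f y ∂μ))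

/-- For every test function `f`, the limit superior of the arc averages of `f` is at least the
`μ`-integral of `f`. -/
def Accumulates {X : Type*} [TopologicalSpace X] [MeasurableSpace X] [MulAction SL(2, ℝ) X]
    (μ : Measure X) (x : X) : Prop :=
  ∀ f : C_c(X, ℝ), ∀ δ : ℝ, 0 < δ → ∀ T : ℝ, ∃ τ : ℝ, T ≤ τ ∧ (∫ y, f y ∂μ) - δ < arc x τ f

/-- For every test function `f` and `δ > 0`, the times `τ` at which the arc average of `f`
exceeds the `μ`-integral of `f` minus `δ` have bounded gaps near infinity. -/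
def Syndetic {X : Type*} [TopologicalSpace X] [MeasurableSpace X] [MulAction SL(2, ℝ) X]
    (μ : Measure X) (x : X) : Prop :=
  ∀ f : C_c(X, ℝ), ∀ δ : ℝ, 0 < δ → ∃ L T : ℝ, ∀ t : ℝ, T ≤ t →
    ∃ τ ∈ Icc t (t + L), (∫ y, f y ∂μ) - δ < arc x τ f

/-- For every test function `f`, the limit superior as `τ → ∞` of the integral of `f` against the
push-forward of `ν` by `g_(-τ)` is at least the `μ`-integral of `f`. -/
def BackAccumulates {X : Type*} [TopologicalSpace X] [MeasurableSpace X] [MulAction SL(2, ℝ) X]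
    (μ ν : Measure X) : Prop :=
  ∀ f : C_c(X, ℝ), ∀ δ : ℝ, 0 < δ → ∀ T : ℝ, ∃ τ : ℝ, T ≤ τ ∧
    (∫ y, f y ∂μ) - δ < ∫ y, f (geo (-τ) • y) ∂ν

/-- For every test function `f` and `δ > 0`, the times `τ ∈ ℝ` at which the integral of `f`
against the push-forward of `ν` by `g_τ` exceeds the `μ`-integral of `f` minus `δ` have bounded
gaps on the whole line. -/
def BiSyndetic {X : Type*} [TopologicalSpace X] [MeasurableSpace X] [MulAction SL(2, ℝ) X]
    (μ ν : Measure X) : Prop :=
  ∀ f : C_c(X, ℝ), ∀ δ : ℝ, 0 < δ → ∃ L : ℝ, ∀ T : ℝ, ∃ τ ∈ Icc T (T + L),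
    (∫ y, f y ∂μ) - δ < ∫ y, f (geo τ • y) ∂ν

end Pool.Agent.Lib.MP_3615e3_an
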