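import Pool.Agent.Lib.MP_3615e3_an.Main

open MeasureTheory Filter Topology Set
open scoped MatrixGroups CompactlySupported NNReal ENNReal symmDiff Pointwise

namespace Pool.Agent.Lib.MP_3615e3_an

variable {X : Type*} [TopologicalSpace X] [T2Space X] [LocallyCompactSpace X]
  [SecondCountableTopology X] [MeasurableSpace X] [BorelSpace X]
  [MulAction SL(2, ℝ) X] [ContinuousSMul SL(2, ℝ) X]
  (μ : Measure X) [IsProbabilityMeasure μ]

theorem integral_arc_inv (ν : Measure X) [IsProbabilityMeasure ν]
    (hν : ∀ s : ℝ, MeasurePreserving (fun y : X => hor s • y) ν ν) {f : X → ℝ}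
    (hf : Continuous f) {M : ℝ} (hM : ∀ y, |f y| ≤ M) (σ t : ℝ) :
    ∫ y, arc (geo (-σ) • y) t f ∂ν = ∫ y, f (geo (t - σ) • y) ∂ν := by
  have hm : Measurable fun y : X => geo (-σ) • y := (continuous_const_smul _).measurable
  have h1 : ∫ y, arc (geo (-σ) • y) t f ∂ν
      = ∫ x, arc x t f ∂(ν.map fun y : X => geo (-σ) • y) :=
    (integral_map hm.aemeasurable (continuous_arc hf t).aestronglyMeasurable).symm
  rw [h1, integral_arc_swap _ hf hM]
  have h2 : ∀ s : ℝ, ∫ x, f (geo t • hor s • x) ∂(ν.map fun y : X => geo (-σ) • y)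
      = ∫ y, f (geo (t - σ) • y) ∂ν := by
    intro s
    have hc : Continuous fun x : X => f (geo t • hor s • x) :=
      hf.comp ((continuous_const_smul _).const_smul _)
    rw [integral_map hm.aemeasurable hc.aestronglyMeasurable]
    have h3 : ∀ y : X, geo t • hor s • geo (-σ) • y
        = geo (t - σ) • hor (Real.exp (-2 * -σ) * s) • y := by
      intro y
      simp only [← mul_smul]
      congr 1
      rw [hor_mul_geo, ← mul_assoc, ← geo_add, sub_eq_add_neg]
    simp_rw [h3]
    have hc2 : Continuous fun y : X => f (geo (t - σ) • y) := hf.comp (continuous_const_smul _)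
    have h4 := hν (Real.exp (-2 * -σ) * s)
    have h5 := integral_map (μ := ν) h4.measurable.aemeasurable
      (f := fun y : X => f (geo (t - σ) • y)) hc2.aestronglyMeasurable
    rw [h4.map_eq] at h5
    exact h5.symm
  simp [h2]

theorem rigid_of_not_meagre [ErgodicSMul SL(2, ℝ) X μ] [μ.IsOpenPosMeasure]
    (hG : ¬ IsMeagre {x : X | Equidistributes μ x}) (ν : Measure X) [IsProbabilityMeasure ν]
    (hν : ∀ s : ℝ, MeasurePreserving (fun y : X => hor s • y) ν ν)
    (hb : BackAccumulates μ ν) : ν = μ := by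
  refine Measure.ext_of_integral_eq_on_compactlySupported fun f => ?_
  refine eq_of_forall_dist_le fun ε hε => ?_
  obtain ⟨ψ, h0, h1, M, hM, hMψ, T, hT⟩ := stable_of_not_meagre μ hG f hε
  obtain ⟨τ, hτ, hψ⟩ := hb ψ (ε / 4 / (M + 1)) (by positivity) T
  obtain ⟨B, hB⟩ := exists_bound f
  have hψ1 : ∀ y, |ψ y| ≤ 1 := fun y => by rw [abs_of_nonneg (h0 y)]; exact h1 y
  have hcm : Continuous fun y : X => geo (-(τ + T)) • y := continuous_const_smul _
  have hi1 : Integrable (fun y : X => arc (geo (-(τ + T)) • y) (T + τ) f) ν :=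
    Integrable.of_bound ((continuous_arc (map_continuous f) _).comp hcm).aestronglyMeasurable B
      (Eventually.of_forall fun x => abs_arc_le hB _ _)
  have hi2 : Integrable (fun y : X => arc (geo (-(τ + T)) • y) T ψ) ν :=
    Integrable.of_bound ((continuous_arc (map_continuous ψ) _).comp hcm).aestronglyMeasurable 1
      (Eventually.of_forall fun x => abs_arc_le hψ1 _ _)
  have e1 := integral_arc_inv ν hν (map_continuous f) hB (τ + T) (T + τ)
  have e2 := integral_arc_inv ν hν (map_continuous ψ) hψ1 (τ + T) T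
  rw [show T + τ - (τ + T) = 0 by ring, geo_zero] at e1
  rw [show T - (τ + T) = -τ by ring] at e2
  simp only [one_smul] at e1
  have hi3 : Integrable (fun y : X => 1 - arc (geo (-(τ + T)) • y) T ψ) ν :=
    (integrable_const (1 : ℝ)).sub hi2
  have hi4 : Integrable (fun y : X => ε / 2 + M * (1 - arc (geo (-(τ + T)) • y) T ψ)) ν :=
    (integrable_const _).add (hi3.const_mul M)
  have hi5 : Integrable (fun y : X => arc (geo (-(τ + T)) • y) (T + τ) f - ∫ y, f y ∂μ) ν :=
    hi1.sub (integrable_const _)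
  have h2 := norm_integral_le_of_norm_le
    (f := fun y : X => arc (geo (-(τ + T)) • y) (T + τ) f - ∫ y, f y ∂μ) hi4
    (Eventually.of_forall fun y => hT _ T (T + τ) le_rfl (by linarith))
  rw [integral_sub hi1 (integrable_const _), e1,
    integral_add (integrable_const _) (hi3.const_mul M), integral_const_mul,
    integral_sub (integrable_const _) hi2, e2] at h2
  simp only [integral_const, probReal_univ, one_smul] at h2
  rw [Real.dist_eq]
  refine h2.trans ?_
  have h3 : M * (ε / 4 / (M + 1)) ≤ ε / 4 := by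
    rw [← mul_div_assoc, div_le_iff₀ (by linarith)]
    nlinarith
  have h4 : M * (1 - ∫ y, ψ (geo (-τ) • y) ∂ν) ≤ M * (1 - ∫ y, ψ y ∂μ + ε / 4 / (M + 1)) :=
    mul_le_mul_of_nonneg_left (by linarith) hM
  rw [mul_add] at h4
  linarith

/-- translate of a test function -/
noncomputable def cmp (f : C_c(X, ℝ)) (g : SL(2, ℝ)) : C_c(X, ℝ) :=
  ⟨⟨fun y => f (g • y), (map_continuous f).comp (continuous_const_smul g)⟩,
    f.hasCompactSupport.comp_homeomorph (Homeomorph.smul g)⟩

theorem cmp_coe (f : C_c(X, ℝ)) (g : SL(2, ℝ)) : ⇑(cmp f g) = fun y => f (g • y) := rfl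

theorem unif_geo (f : C_c(X, ℝ)) (r₀ : ℝ) {η : ℝ} (hη : 0 < η) :
    ∀ᶠ r in 𝓝 r₀, ∀ y : X, |f (geo (-r) • y) - f (geo (-r₀) • y)| ≤ η := by
  set K : Set X := (fun p : ℝ × X => geo p.1 • p.2) '' (Icc (r₀ - 1) (r₀ + 1) ×ˢ tsupport f)
  have hK : IsCompact K := (isCompact_Icc.prod f.hasCompactSupport).image
    ((continuous_geo.comp continuous_fst).smul continuous_snd)
  have hc : Continuous (Function.uncurry fun (r : ℝ) (y : X) => f (geo (-r) • y)) :=
    (map_continuous f).comp ((continuous_geo.comp continuous_fst.neg).smul continuous_snd)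
  obtain ⟨v, hv, hv'⟩ := hK.mem_uniformity_of_prod (s := univ) hc.continuousOn (mem_univ r₀)
    (Metric.dist_mem_uniformity hη)
  rw [nhdsWithin_univ] at hv
  have hz : ∀ r ∈ Icc (r₀ - 1) (r₀ + 1), ∀ y, y ∉ K → f (geo (-r) • y) = 0 := by
    intro r hr y hy
    refine image_eq_zero_of_notMem_tsupport fun h => hy ⟨(r, geo (-r) • y), ⟨hr, h⟩, ?_⟩
    simp [← mul_smul, ← geo_add, geo_zero]
  filter_upwards [hv, Icc_mem_nhds (by linarith : r₀ - 1 < r₀) (by linarith : r₀ < r₀ + 1)]
    with r hr hr' y
  by_cases hy : y ∈ K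
  · exact (hv' r hr y hy).le
  · rw [hz r hr' y hy, hz r₀ ⟨by linarith, by linarith⟩ y hy]
    simpa using hη.le

theorem arc_hor_shift {f : X → ℝ} (hf : Continuous f) {M : ℝ} (hM : ∀ y, |f y| ≤ M) (x : X)
    (r t : ℝ) : |arc x t (fun y => f (hor r • y)) - arc x t f|
      ≤ 2 * M * |Real.exp (-2 * t) * r| := by
  set h := Real.exp (-2 * t) * r with hh
  set F : ℝ → ℝ := fun s => f (geo t • hor s • x) with hF
  have hFc : Continuous F := continuous_path hf x t
  have h1 : arc x t (fun y => f (hor r • y)) = ∫ s in h..(1 + h), F s := by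
    unfold arc
    have : ∀ s : ℝ, hor r • geo t • hor s • x = geo t • hor (s + h) • x := by
      intro s
      simp only [← mul_smul]
      congr 1
      rw [← mul_assoc, hor_mul_geo, mul_assoc, ← hor_add, add_comm]
    simp_rw [this]
    have := intervalIntegral.integral_comp_add_right (a := 0) (b := 1) F h
    rw [zero_add] at this
    exact this
  have hi : ∀ a b, IntervalIntegrable F volume a b := fun a b => hFc.intervalIntegrable a b
  have h2 : (∫ s in h..(1 + h), F s) - ∫ s in (0 : ℝ)..1, F s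
      = (∫ s in (1 : ℝ)..(1 + h), F s) - ∫ s in (0 : ℝ)..h, F s := by
    rw [intervalIntegral.integral_interval_sub_interval_comm' (hi _ _) (hi _ _) (hi _ _)]
  rw [h1]
  change |(∫ s in h..(1 + h), F s) - ∫ s in (0 : ℝ)..1, F s| ≤ _
  rw [h2]
  have h3 := intervalIntegral.norm_integral_le_of_norm_le_const (a := 1) (b := 1 + h) (f := F)
    (C := M) fun s _ => hM _
  have h4 := intervalIntegral.norm_integral_le_of_norm_le_const (a := 0) (b := h) (f := F)
    (C := M) fun s _ => hM _
  simp only [add_sub_cancel_left, sub_zero, Real.norm_eq_abs] at h3 h4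
  refine (abs_sub _ _).trans ?_
  linarith

theorem back_of_bi {ν : Measure X} (h : BiSyndetic μ ν) : BackAccumulates μ ν := by
  intro f δ hδ T
  obtain ⟨L, hL⟩ := h f δ hδ
  obtain ⟨τ, hτ, h'⟩ := hL (-T - L)
  exact ⟨-τ, by linarith [hτ.2], by simpa using h'⟩

theorem good_of_rigid [SMulInvariantMeasure SL(2, ℝ) X μ]
    (hR : ∀ ν : Measure X, IsProbabilityMeasure ν →
      (∀ s : ℝ, MeasurePreserving (fun y : X => hor s • y) ν ν) → BiSyndetic μ ν → ν = μ)
    {x : X} (hx : Syndetic μ x) : Equidistributes μ x := by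
  intro f₀
  rw [tendsto_iff_ultrafilter]
  intro U hU
  have hex : ∀ f : C_c(X, ℝ), ∃ c : ℝ, Tendsto (fun t => arc x t f) U (𝓝 c) := by
    intro f
    obtain ⟨B, hB⟩ := exists_bound f
    obtain ⟨c, -, hc⟩ := (isCompact_Icc (a := -(B : ℝ)) (b := B)).ultrafilter_le_nhds
      (U.map fun t => arc x t f) (by
        rw [Ultrafilter.coe_map, le_principal_iff, mem_map]
        exact Eventually.of_forall fun t => abs_le.1 (abs_arc_le hB x t))
    exact ⟨c, hc⟩
  choose Λ₀ hΛ₀ using hex
  let Λ : C_c(X, ℝ) →ₚ[ℝ] ℝ :=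
    { toFun := Λ₀
      map_add' := fun f g => by
        refine tendsto_nhds_unique (hΛ₀ (f + g)) ?_
        refine ((hΛ₀ f).add (hΛ₀ g)).congr fun t => ?_
        exact (intervalIntegral.integral_add
          ((continuous_path (map_continuous f) x t).intervalIntegrable _ _)
          ((continuous_path (map_continuous g) x t).intervalIntegrable _ _)).symm
      map_smul' := fun c f => by
        refine tendsto_nhds_unique (hΛ₀ (c • f)) ?_
        refine ((hΛ₀ f).const_mul c).congr fun t => ?_
        exact (intervalIntegral.integral_const_mul c _).symm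
      monotone' := fun f g hfg => by
        refine le_of_tendsto_of_tendsto' (hΛ₀ f) (hΛ₀ g) fun t => ?_
        exact intervalIntegral.integral_mono_on zero_le_one
          ((continuous_path (map_continuous f) x t).intervalIntegrable _ _)
          ((continuous_path (map_continuous g) x t).intervalIntegrable _ _)
          fun s _ => hfg _ }
  set ν := RealRMK.rieszMeasure Λ with hνdef
  have hνf : ∀ f : C_c(X, ℝ), ∫ y, f y ∂ν = Λ₀ f := fun f => RealRMK.integral_rieszMeasure Λ f
  have hle : ν univ ≤ 1 := by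
    rw [isOpen_univ.measure_eq_iSup_isCompact ν]
    refine iSup_le fun K => iSup_le fun _ => iSup_le fun hK => ?_
    obtain ⟨f, hf1, hf2, -, hf4⟩ :=
      exists_continuousMap_one_of_isCompact_subset_isOpen hK isOpen_univ (subset_univ K)
    let f' : C_c(X, ℝ) := ⟨f, hasCompactSupport_def.mpr hf2⟩
    refine (RealRMK.rieszMeasure_le_of_eq_one Λ (f := f') (fun y => (hf4 y).1) hK
      (fun y hy => hf1 hy)).trans ?_
    rw [← ENNReal.ofReal_one]
    refine ENNReal.ofReal_le_ofReal (le_of_tendsto' (hΛ₀ f') fun t => ?_)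
    refine (le_abs_self _).trans (abs_arc_le (fun y => ?_) x t)
    exact abs_le.2 ⟨by linarith [(hf4 y).1, show f' y = f y from rfl], (hf4 y).2⟩
  have : IsFiniteMeasure ν := ⟨hle.trans_lt ENNReal.one_lt_top⟩
  have hbi : BiSyndetic μ ν := by
    intro f δ hδ
    obtain ⟨L, T, hLT⟩ := hx f (δ / 2) (by linarith)
    refine ⟨L, fun T₁ => ?_⟩
    obtain ⟨T', hT'⟩ : ∃ T' : ℝ, T' = -T₁ - L := ⟨_, rfl⟩
    choose! τ hτ hτ' using hLT
    have hev : ∀ᶠ t in (U : Filter ℝ), T ≤ t - T' - L :=
      ((eventually_ge_atTop (T + T' + L)).filter_mono hU).mono fun t ht => by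
        have : T + T' + L ≤ t := ht
        linarith
    obtain ⟨r₀, hr₀, hr⟩ := (isCompact_Icc (a := T') (b := T' + L)).ultrafilter_le_nhds
      (U.map fun t => t - τ (t - T' - L)) (by
        rw [Ultrafilter.coe_map, le_principal_iff, mem_map]
        refine hev.mono fun t ht => ?_
        have := hτ _ ht
        exact ⟨by linarith [this.2], by linarith [this.1]⟩)
    refine ⟨-r₀, ⟨by linarith [hr₀.2], by linarith [hr₀.1]⟩, ?_⟩
    have h1 := hνf (cmp f (geo (-r₀)))
    rw [cmp_coe] at h1
    rw [h1]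
    have h2 : (∫ y, f y ∂μ) - 3 * δ / 4 ≤ Λ₀ (cmp f (geo (-r₀))) := by
      refine ge_of_tendsto (hΛ₀ _) ?_
      have hr' : Tendsto (fun t => t - τ (t - T' - L)) U (𝓝 r₀) := hr
      filter_upwards [hev, hr'.eventually (unif_geo f r₀ (η := δ / 4) (by linarith))] with t ht hu
      have h3 := abs_arc_sub_le ((map_continuous f).comp (continuous_const_smul _))
        ((map_continuous f).comp (continuous_const_smul _)) hu x t
      have h4 : arc x t (⇑f ∘ fun y => geo (-(t - τ (t - T' - L))) • y)
          = arc x (τ (t - T' - L)) f := by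
        unfold arc
        simp only [Function.comp_def, ← mul_smul (geo _) (geo t), ← geo_add]
        congr 1
        funext s
        congr 3
        ring
      rw [h4] at h3
      have h5 := hτ' _ ht
      have h6 := (abs_le.1 h3).2
      change _ ≤ arc x t (⇑f ∘ fun y => geo (-r₀) • y)
      linarith
    linarith
  have hback := back_of_bi μ hbi
  have hge : 1 ≤ ν.real univ := by
    refine le_of_forall_pos_le_add fun η hη => ?_
    obtain ⟨ψ, h0, h1, -, h3⟩ := exists_bump μ isOpen_univ (r := 1 - η / 2) (by simp; linarith)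
    obtain ⟨τ, -, hτ⟩ := hback ψ (η / 2) (by linarith) 0
    have h4 : ∫ y, ψ (geo (-τ) • y) ∂ν ≤ ∫ _y, (1 : ℝ) ∂ν :=
      integral_mono (cmp ψ (geo (-τ))).integrable (integrable_const _) fun y => h1 _
    simp only [integral_const, smul_eq_mul, mul_one] at h4
    linarith
  have hprob : IsProbabilityMeasure ν := by
    refine ⟨le_antisymm hle ?_⟩
    rw [← ENNReal.ofReal_one, ← ENNReal.ofReal_toReal (measure_ne_top ν univ)]
    exact ENNReal.ofReal_le_ofReal hge
  have hinv : ∀ s : ℝ, MeasurePreserving (fun y : X => hor s • y) ν ν := by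
    intro r
    have hm : Measurable fun y : X => hor r • y := (continuous_const_smul _).measurable
    refine ⟨hm, Measure.ext_of_integral_eq_on_compactlySupported fun f => ?_⟩
    rw [integral_map hm.aemeasurable (map_continuous f).aestronglyMeasurable]
    have h1 := hνf (cmp f (hor r))
    rw [cmp_coe] at h1
    rw [h1, hνf]
    obtain ⟨B, hB⟩ := exists_bound f
    have h2 : Tendsto (fun t : ℝ => 2 * (B : ℝ) * |Real.exp (-2 * t) * r|) atTop (𝓝 0) := by
      have h3 : Tendsto (fun t : ℝ => -2 * t) atTop atBot :=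
        tendsto_id.const_mul_atTop_of_neg (by norm_num)
      simpa using ((Real.tendsto_exp_atBot.comp h3).mul_const r).abs.const_mul (2 * (B : ℝ))
    have h4 : Tendsto (fun t => arc x t (cmp f (hor r)) - arc x t f) U (𝓝 0) := by
      refine squeeze_zero_norm (fun t => ?_) (h2.mono_left hU)
      exact arc_hor_shift (map_continuous f) hB x r t
    have h5 := tendsto_nhds_unique ((hΛ₀ (cmp f (hor r))).sub (hΛ₀ f)) h4
    linarith
  have heq := hR ν hprob hinv hbi
  rw [← heq, hνf]
  exact hΛ₀ f₀

end Pool.Agent.Lib.MP_3615e3_an
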