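import Pool.Agent.Lib.MP_3615e3_an.Bar6
import Pool.Agent.Lib.MP_3615e3_an.Rigid

/-! Limits of time averages on compact spaces. -/

open MeasureTheory Filter Topology Set
open scoped MatrixGroups CompactlySupported ENNReal BoundedContinuousFunction

namespace Pool.Agent.Lib.MP_3615e3_an.Bar

open Pool.Agent.Lib.MP_3615e3_an

theorem shift_le {Ψ : ℝ → ℝ} (hc : Continuous Ψ) {M : ℝ} (hM : ∀ t, |Ψ t| ≤ M) (L τ : ℝ) :
    |(∫ t in (0 : ℝ)..L, Ψ (t + τ)) - ∫ t in (0 : ℝ)..L, Ψ t| ≤ 2 * M * |τ| := by
  have hi : ∀ a b, IntervalIntegrable Ψ volume a b := fun a b => hc.intervalIntegrable a b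
  rw [intervalIntegral.integral_comp_add_right,
    intervalIntegral.integral_interval_sub_interval_comm' (hi _ _) (hi _ _) (hi _ _)]
  have h3 := intervalIntegral.norm_integral_le_of_norm_le_const (a := L) (b := L + τ) (f := Ψ)
    (C := M) fun t _ => hM t
  have h4 := intervalIntegral.norm_integral_le_of_norm_le_const (a := 0) (b := 0 + τ) (f := Ψ)
    (C := M) fun t _ => hM t
  rw [Real.norm_eq_abs, add_sub_cancel_left] at h3 h4
  linarith [abs_sub (∫ t in L..L + τ, Ψ t) (∫ t in (0 : ℝ)..0 + τ, Ψ t)]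

theorem eq_of_close {l : Filter ℝ} [l.NeBot] (hl : l ≤ atTop) {a b : ℝ → ℝ} {x y B : ℝ}
    (ha : Tendsto (fun L => L⁻¹ * a L) l (𝓝 x)) (hb : Tendsto (fun L => L⁻¹ * b L) l (𝓝 y))
    (h : ∀ L, 0 < L → |a L - b L| ≤ B) : x = y := by
  have h1 : Tendsto (fun L : ℝ => L⁻¹ * a L - L⁻¹ * b L) l (𝓝 0) := by
    have h2 : Tendsto (fun L : ℝ => L⁻¹ * B) l (𝓝 0) := by
      simpa using (tendsto_inv_atTop_zero.mono_left hl).mul_const B
    refine squeeze_zero_norm' ?_ h2
    filter_upwards [hl (eventually_gt_atTop 0)] with L hL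
    rw [Real.norm_eq_abs, ← mul_sub, abs_mul, abs_of_pos (inv_pos.2 hL)]
    exact mul_le_mul_of_nonneg_left (h L hL) (inv_pos.2 hL).le
  exact sub_eq_zero.1 (tendsto_nhds_unique (ha.sub hb) h1)

theorem le_of_avg {l : Filter ℝ} [l.NeBot] (hl : l ≤ atTop) {Ψ : ℝ → ℝ} (hc : Continuous Ψ)
    {x B : ℝ} (ha : Tendsto (fun L => L⁻¹ * ∫ t in (0 : ℝ)..L, Ψ t) l (𝓝 x))
    (h : ∀ t, 0 ≤ t → Ψ t ≤ B) : x ≤ B := by
  refine le_of_tendsto ha ?_
  filter_upwards [hl (eventually_gt_atTop 0)] with L hL
  rw [inv_mul_le_iff₀ hL]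
  have := intervalIntegral.integral_mono_on (μ := volume) hL.le (hc.intervalIntegrable 0 L)
    ((continuous_const (y := B)).intervalIntegrable 0 L) fun t ht => h t ht.1
  simpa using this

variable {S : Type*} [TopologicalSpace S] [T2Space S] [CompactSpace S]
  [SecondCountableTopology S] [MeasurableSpace S] [BorelSpace S]
  [MulAction SL(2, ℝ) S] [ContinuousSMul SL(2, ℝ) S]

omit [T2Space S] in
theorem cont_int (ρ : Measure S) [IsFiniteMeasure ρ] (f : S →ᵇ ℝ) :
    Continuous fun t : ℝ => ∫ y, f (geo t • y) ∂ρ :=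
  continuous_of_dominated (bound := fun _ => ‖f‖)
    (fun t => (f.continuous.comp (continuous_const_smul _)).aestronglyMeasurable)
    (fun _ => Eventually.of_forall fun _ => f.norm_coe_le_norm _) (integrable_const _)
    (Eventually.of_forall fun y => f.continuous.comp (continuous_geo.smul continuous_const))

/-- Limits of time averages along the geodesic flow. -/
theorem exists_lim (ρ : Measure S) [IsProbabilityMeasure ρ] (U : Ultrafilter ℝ)
    (hU : (U : Filter ℝ) ≤ atTop) : ∃ m : Measure S, IsProbabilityMeasure m ∧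
      (∀ τ : ℝ, MeasurePreserving (fun y : S => geo τ • y) m m) ∧
      ∀ f : S →ᵇ ℝ, Tendsto (fun L : ℝ => L⁻¹ * ∫ t in (0 : ℝ)..L, ∫ y, f (geo t • y) ∂ρ) U
        (𝓝 (∫ y, f y ∂m)) := by
  have hc : Continuous fun p : ℝ × S => geo p.1 • p.2 :=
    (continuous_geo.comp continuous_fst).smul continuous_snd
  let A : ℝ → Measure S := fun L =>
    (((ENNReal.ofReal (max L 1))⁻¹ • volume.restrict (Ioc 0 (max L 1))).prod ρ).map
      fun p : ℝ × S => geo p.1 • p.2
  have hP : ∀ L : ℝ, IsProbabilityMeasure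
      ((ENNReal.ofReal (max L 1))⁻¹ • volume.restrict (Ioc (0 : ℝ) (max L 1))) := fun L => ⟨by
    have : (0 : ℝ) < max L 1 := lt_max_of_lt_right one_pos
    rw [Measure.smul_apply, Measure.restrict_apply_univ, Real.volume_Ioc, sub_zero, smul_eq_mul]
    exact ENNReal.inv_mul_cancel (by simpa using this) ENNReal.ofReal_ne_top⟩
  have hA : ∀ L, IsProbabilityMeasure (A L) := fun L =>
    Measure.isProbabilityMeasure_map hc.measurable.aemeasurable
  let A' : ℝ → ProbabilityMeasure S := fun L => ⟨A L, hA L⟩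
  obtain ⟨m, -, hm⟩ := (isCompact_univ (X := ProbabilityMeasure S)).ultrafilter_le_nhds
    (U.map A') (by simp)
  have hm' : Tendsto A' U (𝓝 m) := hm
  have h1 := ProbabilityMeasure.tendsto_iff_forall_integral_tendsto.1 hm'
  have h2 : ∀ f : S →ᵇ ℝ,
      Tendsto (fun L : ℝ => L⁻¹ * ∫ t in (0 : ℝ)..L, ∫ y, f (geo t • y) ∂ρ) U
        (𝓝 (∫ y, f y ∂(m : Measure S))) := by
    intro f
    refine (h1 f).congr' ?_
    filter_upwards [hU (eventually_ge_atTop 1)] with L hL
    have hL' : (1 : ℝ) ≤ L := hL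
    have hfc : Continuous fun p : ℝ × S => f (geo p.1 • p.2) := f.continuous.comp hc
    show ∫ y, f y ∂A L = _
    rw [integral_map hc.measurable.aemeasurable f.continuous.aestronglyMeasurable,
      integral_prod _ (Integrable.of_bound hfc.aestronglyMeasurable ‖f‖
        (Eventually.of_forall fun p => f.norm_coe_le_norm _)), integral_smul_measure,
      max_eq_left hL', intervalIntegral.integral_of_le (by linarith), ENNReal.toReal_inv,
      ENNReal.toReal_ofReal (by linarith), smul_eq_mul]
  refine ⟨m, inferInstance, fun τ => ⟨(continuous_const_smul _).measurable, ?_⟩, h2⟩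
  refine ext_of_forall_integral_eq_of_IsFiniteMeasure fun f => ?_
  rw [integral_map (continuous_const_smul _).measurable.aemeasurable
    f.continuous.aestronglyMeasurable]
  refine eq_of_close hU (h2 (f.compContinuous ⟨_, continuous_const_smul (geo τ)⟩)) (h2 f)
    (B := 2 * ‖f‖ * |τ|) fun L _ => ?_
  have e : ∀ t : ℝ, ∫ y, (f.compContinuous ⟨_, continuous_const_smul (geo τ)⟩) (geo t • y) ∂ρ =
      ∫ y, f (geo (t + τ) • y) ∂ρ := fun t => by
    congr 1
    funext y
    rw [add_comm, geo_add, mul_smul]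
    rfl
  simp only [e]
  refine shift_le (cont_int ρ f) (fun t => ?_) L τ
  have := norm_integral_le_of_norm_le_const (μ := ρ) (f := fun y => f (geo t • y)) (C := ‖f‖)
    (Eventually.of_forall fun y => f.norm_coe_le_norm _)
  simpa using this

/-- Unique ergodicity of the upper triangular group gives convergence of time averages at every
point. -/
theorem cesaro_of_unique (μ : Measure S)
    (hμ : ∀ m : Measure S, IsProbabilityMeasure m →
      (∀ τ : ℝ, MeasurePreserving (fun y : S => geo τ • y) m m) →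
      (∀ s : ℝ, MeasurePreserving (fun y : S => hor s • y) m m) → m = μ) (x : S) :
    Cesaro μ x := by
  intro f
  rw [tendsto_iff_ultrafilter]
  intro U hU
  have hp : Continuous fun s : ℝ => hor s • x := continuous_hor.smul continuous_const
  haveI : IsProbabilityMeasure (volume.restrict (Ioc (0 : ℝ) 1)) := ⟨by simp⟩
  haveI : IsProbabilityMeasure ((volume.restrict (Ioc (0 : ℝ) 1)).map fun s : ℝ => hor s • x) :=
    Measure.isProbabilityMeasure_map hp.measurable.aemeasurable
  obtain ⟨m, hm, h1, h2⟩ :=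
    exists_lim ((volume.restrict (Ioc (0 : ℝ) 1)).map fun s : ℝ => hor s • x) U hU
  have e : ∀ (φ : S →ᵇ ℝ) (t : ℝ), ∫ y, φ (geo t • y)
      ∂((volume.restrict (Ioc (0 : ℝ) 1)).map fun s : ℝ => hor s • x) = arc x t φ := by
    intro φ t
    have hc : Continuous fun y : S => φ (geo t • y) := φ.continuous.comp (continuous_const_smul _)
    rw [integral_map hp.measurable.aemeasurable hc.aestronglyMeasurable, arc,
      intervalIntegral.integral_of_le zero_le_one]
  have hcont : ∀ φ : S →ᵇ ℝ, Continuous fun t => arc x t φ := fun φ => by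
    simpa only [e] using
      cont_int ((volume.restrict (Ioc (0 : ℝ) 1)).map fun s : ℝ => hor s • x) φ
  simp only [e] at h2
  have h3 : ∀ r : ℝ, MeasurePreserving (fun y : S => hor r • y) m m := by
    intro r
    refine ⟨(continuous_const_smul _).measurable, ?_⟩
    refine ext_of_forall_integral_eq_of_IsFiniteMeasure fun φ => ?_
    rw [integral_map (continuous_const_smul _).measurable.aemeasurable
      φ.continuous.aestronglyMeasurable]
    refine eq_of_close hU (h2 (φ.compContinuous ⟨_, continuous_const_smul (hor r)⟩)) (h2 φ)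
      (B := 2 * ‖φ‖ * |r|) fun L hL => ?_
    rw [← intervalIntegral.integral_sub ((hcont _).intervalIntegrable _ _)
      ((hcont _).intervalIntegrable _ _)]
    have hb : Continuous fun t : ℝ => 2 * ‖φ‖ * |r| * Real.exp (-t) := by fun_prop
    have h4 := intervalIntegral.norm_integral_le_of_norm_le (μ := volume) hL.le
      (f := fun t => arc x t (φ.compContinuous ⟨_, continuous_const_smul (hor r)⟩) - arc x t φ)
      (Eventually.of_forall fun t ht => (arc_hor_shift φ.continuous
        (fun y => φ.norm_coe_le_norm y) x r t).trans (by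
          rw [abs_mul, Real.abs_exp]
          have a := Real.exp_le_exp.2 (show -2 * t ≤ -t by linarith [ht.1])
          have b : 0 ≤ 2 * ‖φ‖ * |r| := by positivity
          nlinarith)) (hb.intervalIntegrable 0 L)
    refine h4.trans ?_
    rw [intervalIntegral.integral_const_mul, intervalIntegral.integral_comp_neg, integral_exp]
    have a := Real.exp_pos (-L)
    have b : 0 ≤ 2 * ‖φ‖ * |r| := by positivity
    simp only [neg_zero, Real.exp_zero]
    nlinarith
  rw [← hμ m hm h1 h3]
  exact h2 f.toBoundedContinuousFunction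

omit [MulAction SL(2, ℝ) S] [ContinuousSMul SL(2, ℝ) S] in
theorem ac_of_le {m μ : Measure S} [IsFiniteMeasure m] [IsFiniteMeasure μ] {C : ℝ} (hC : 0 ≤ C)
    (h : ∀ f : S →ᵇ ℝ, (∀ y, 0 ≤ f y) → ∫ y, f y ∂m ≤ C * ∫ y, f y ∂μ) : m ≪ μ := by
  refine Measure.AbsolutelyContinuous.mk fun E hE h0 => ?_
  by_contra hne
  obtain ⟨K, hKE, hK, hK0⟩ := hE.exists_lt_isCompact (pos_iff_ne_zero.2 hne)
  have hr : 0 < m.real K := ENNReal.toReal_pos hK0.ne' (measure_ne_top _ _)
  obtain ⟨V, hKV, hV, hVμ⟩ := K.exists_isOpen_lt_of_lt (μ := μ)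
    (ENNReal.ofReal (m.real K / (C + 1))) (by
      rw [measure_mono_null hKE h0]
      exact ENNReal.ofReal_pos.2 (by positivity))
  obtain ⟨φ, h1, h2, -, h3⟩ := exists_continuous_one_zero_of_isCompact hK hV.isClosed_compl
    (disjoint_compl_right_iff_subset.2 hKV)
  let f : S →ᵇ ℝ := BoundedContinuousFunction.mkOfCompact φ
  have a : m.real K ≤ ∫ y, f y ∂m := by
    have : ∫ y, K.indicator (fun _ => (1 : ℝ)) y ∂m ≤ ∫ y, f y ∂m := by
      refine integral_mono ((integrable_const _).indicator hK.measurableSet) (f.integrable m)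
        fun y => ?_
      by_cases hy : y ∈ K
      · rw [indicator_of_mem hy]
        exact (h1 hy).ge
      · rw [indicator_of_notMem hy]
        exact (h3 y).1
    rwa [integral_indicator_const _ hK.measurableSet, smul_eq_mul, mul_one] at this
  have b : ∫ y, f y ∂μ ≤ m.real K / (C + 1) := by
    have : ∫ y, f y ∂μ ≤ ∫ y, V.indicator (fun _ => (1 : ℝ)) y ∂μ := by
      refine integral_mono (f.integrable μ) ((integrable_const _).indicator hV.measurableSet)
        fun y => ?_
      by_cases hy : y ∈ V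
      · rw [indicator_of_mem hy]
        exact (h3 y).2
      · rw [indicator_of_notMem hy]
        exact (h2 hy).le
    rw [integral_indicator_const _ hV.measurableSet, smul_eq_mul, mul_one] at this
    exact this.trans (ENNReal.toReal_le_of_le_ofReal (by positivity) hVμ.le)
  have c := (a.trans (h f fun y => (h3 y).1)).trans (mul_le_mul_of_nonneg_left b hC)
  rw [← mul_div_assoc, le_div_iff₀ (by linarith)] at c
  nlinarith

theorem ergodic_geo (μ : Measure S) [IsProbabilityMeasure μ] [ErgodicSMul SL(2, ℝ) S μ] :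
    Ergodic (fun y : S => geo 1 • y) μ := by
  refine ⟨measurePreserving_smul _ μ, ⟨fun E hE h => ?_⟩⟩
  have h1 : geo 1 ∈ stab μ E := (h.eventuallyEq : (fun y : S => geo 1 • y) ⁻¹' E =ᵐ[μ] E)
  have htop := stab_eq_top μ hE h1
  refine aeconst_of_forall_preimage_smul_ae_eq SL(2, ℝ) hE.nullMeasurableSet fun g => ?_
  have : g ∈ stab μ E := htop ▸ Subgroup.mem_top g
  exact this

end Pool.Agent.Lib.MP_3615e3_an.Bar
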