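import Pool.Agent.Lib.MP_3615e3_an.Ex1
import Pool.Agent.Lib.MP_9177b7_ag.J.Uniq
import Pool.Agent.Lib.MP_9177b7_ag.J.Pol
import Pool.Agent.Lib.MP_9177b7_ag.J.Disc

/-! Compact quotients of the product of the group with a compact group. -/

open MeasureTheory Filter Topology Set
open scoped MatrixGroups CompactlySupported ENNReal NNReal BoundedContinuousFunction

namespace Pool.Agent.Lib.MP_3615e3_an.Bar

open Pool.Agent.Lib.MP_3615e3_an Pool.Agent.Lib.MP_9177b7_ag.J

theorem decomp (g : SL(2, ℝ)) (h : 0 < g 0 0) :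
    g = low (g 1 0 / g 0 0) * geo (Real.log (g 0 0)) * hor (g 0 1 / g 0 0) := by
  have hd := g.det_coe
  rw [Matrix.det_fin_two] at hd
  ext i j
  rw [mul_ent, mul_ent, mul_ent]
  fin_cases i <;> fin_cases j <;>
    simp [low, geo, hor, Real.exp_neg, Real.exp_log h] <;> field_simp
  linarith

section quot

variable {G : Type} [Group G] [TopologicalSpace G] [IsTopologicalGroup G] [PolishSpace G]
  [MeasurableSpace G] [BorelSpace G] (Γ : Subgroup G) [DiscreteTopology Γ]

theorem exists_quot (m : Measure G) [m.IsMulRightInvariant] :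
    ∃ μ : Measure (G ⧸ Γ), (∀ f : G → ℝ≥0∞, Measurable f →
      ∫⁻ x, Uniq.P Γ f x ∂μ = ∫⁻ g, f g ∂m) ∧
      ∀ E, MeasurableSet E → m (QuotientGroup.mk ⁻¹' E) = 0 → μ E = 0 := by
  have : Countable Γ := TopologicalSpace.separableSpace_iff_countable.1 inferInstance
  obtain ⟨w, hw, h1⟩ := Uniq.exists_weight Γ
  refine ⟨(m.withDensity w).map QuotientGroup.mk, fun f hf => ?_, fun E hE h0 => ?_⟩
  · have hP : Measurable fun g : G => Uniq.P Γ f (QuotientGroup.mk g) :=
      (Uniq.measurable_P Γ hf).comp QuotientGroup.measurable_coe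
    rw [lintegral_map (Uniq.measurable_P Γ hf) QuotientGroup.measurable_coe,
      lintegral_withDensity_eq_lintegral_mul _ hw hP]
    simp only [Pi.mul_apply, Uniq.P_mk, ← ENNReal.tsum_mul_left]
    have m1 : ∀ γ : Γ, Measurable fun g : G => w g * f (g * γ) := fun γ =>
      hw.mul (hf.comp (measurable_mul_const (γ : G)))
    have m2 : ∀ γ : Γ, Measurable fun g : G => w (g * (γ⁻¹ : Γ)) * f g := fun γ =>
      (hw.comp (measurable_mul_const ((γ⁻¹ : Γ) : G))).mul hf
    rw [lintegral_tsum fun γ : Γ => (m1 γ).aemeasurable]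
    have h2 : ∀ γ : Γ, ∫⁻ g, w g * f (g * γ) ∂m = ∫⁻ g, w (g * (γ⁻¹ : Γ)) * f g ∂m := fun γ => by
      rw [← lintegral_mul_right_eq_self (fun g => w (g * (γ⁻¹ : Γ)) * f g) (γ : G)]
      simp
    simp only [h2]
    rw [← lintegral_tsum fun γ : Γ => (m2 γ).aemeasurable]
    refine lintegral_congr fun g => ?_
    have h3 : ∑' γ : Γ, w (g * (γ⁻¹ : Γ)) = 1 := by
      rw [← h1 (QuotientGroup.mk g), Uniq.P_mk]
      exact (Equiv.inv Γ).tsum_eq fun γ : Γ => w (g * γ)
    rw [ENNReal.tsum_mul_right, h3, one_mul]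
  · rw [Measure.map_apply QuotientGroup.measurable_coe hE]
    exact withDensity_absolutelyContinuous m w h0

omit [PolishSpace G] [MeasurableSpace G] [BorelSpace G] in
theorem P_bound {K : Set G} (hK : IsCompact K) :
    ∃ N : ℕ, ∀ x, Uniq.P Γ (K.indicator 1) x ≤ N := by
  choose U hU hg hinj using Uniq.exists_open Γ
  obtain ⟨s, hs⟩ := hK.elim_finite_subcover U hU fun g _ => mem_iUnion.2 ⟨g, hg g⟩
  refine ⟨s.card, fun x => ?_⟩
  have h1 : ∀ g, K.indicator (1 : G → ℝ≥0∞) g ≤ ∑ i ∈ s, (U i).indicator 1 g := by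
    intro g
    by_cases h : g ∈ K
    · obtain ⟨i, hi, hgi⟩ := mem_iUnion₂.1 (hs h)
      refine le_trans ?_ (Finset.single_le_sum (f := fun i => (U i).indicator (1 : G → ℝ≥0∞) g)
        (fun _ _ => zero_le) hi)
      rw [indicator_of_mem h, indicator_of_mem hgi]
    · rw [indicator_of_notMem h]
      exact zero_le
  refine (ENNReal.tsum_le_tsum fun γ : Γ => h1 (x.out * γ)).trans ?_
  rw [Summable.tsum_finsetSum fun _ _ => ENNReal.summable]
  refine (Finset.sum_le_sum fun i _ => Uniq.P_le_one Γ (hinj i) x).trans ?_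
  simp

end quot

variable {C : Type} [Group C] [TopologicalSpace C] [IsTopologicalGroup C] [PolishSpace C]
  [CompactSpace C] [MeasurableSpace C] [BorelSpace C] (Γ : Subgroup (SL(2, ℝ) × C))

noncomputable instance actQ : MulAction SL(2, ℝ) ((SL(2, ℝ) × C) ⧸ Γ) :=
  MulAction.compHom _ (MonoidHom.inl SL(2, ℝ) C)

omit [TopologicalSpace C] [IsTopologicalGroup C] [PolishSpace C] [CompactSpace C]
  [MeasurableSpace C] [BorelSpace C] in
theorem q_smul (g : SL(2, ℝ)) (x : (SL(2, ℝ) × C) ⧸ Γ) :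
    g • x = ((g, 1) : SL(2, ℝ) × C) • x := rfl

instance contQ : ContinuousSMul SL(2, ℝ) ((SL(2, ℝ) × C) ⧸ Γ) where
  continuous_smul :=
    (continuous_smul : Continuous fun p : (SL(2, ℝ) × C) × ((SL(2, ℝ) × C) ⧸ Γ) => p.1 • p.2).comp
      ((continuous_fst.prodMk continuous_const).prodMk continuous_snd)

omit [PolishSpace C] [CompactSpace C] [MeasurableSpace C] [BorelSpace C] in
theorem thicken [CompactSpace ((SL(2, ℝ) × C) ⧸ Γ)] (f : ((SL(2, ℝ) × C) ⧸ Γ) →ᵇ ℝ) {ε : ℝ}
    (hε : 0 < ε) : ∃ V : Set (SL(2, ℝ) × C), IsOpen V ∧ 1 ∈ V ∧ (∀ g ∈ V, len g.1 ≤ 1) ∧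
      ∀ g ∈ V, ∃ r : ℝ, ∀ t : ℝ, 0 ≤ t → ∀ x : (SL(2, ℝ) × C) ⧸ Γ,
        |f (geo t • g • x) - f (geo t • hor r • x)| ≤ ε := by
  have h1 : ∀ᶠ k in 𝓝 (1 : SL(2, ℝ) × C), ∀ y ∈ (univ : Set ((SL(2, ℝ) × C) ⧸ Γ)),
      |f (k • y) - f y| < ε := by
    refine isCompact_univ.eventually_forall_of_forall_eventually fun y _ => ?_
    have hc : Continuous fun p : (SL(2, ℝ) × C) × ((SL(2, ℝ) × C) ⧸ Γ) =>
        |f (p.1 • p.2) - f p.2| :=
      ((f.continuous.comp continuous_smul).sub (f.continuous.comp continuous_snd)).abs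
    exact hc.continuousAt.eventually_lt continuousAt_const (by simpa using hε)
  have hc : Continuous fun p : (ℝ × ℝ) × C => ((low p.1.1 * geo p.1.2, p.2) : SL(2, ℝ) × C) :=
    ((continuous_low.comp (continuous_fst.comp continuous_fst)).mul
      (continuous_geo.comp (continuous_snd.comp continuous_fst))).prodMk continuous_snd
  have h2 := (hc.tendsto' ((0, 0), 1) 1 (by simp [low_zero, geo_zero])).eventually h1
  rw [nhds_prod_eq, eventually_prod_iff] at h2
  obtain ⟨pa, ha, pb, hb, hab⟩ := h2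
  obtain ⟨δ, hδ, hδa⟩ := Metric.eventually_nhds_iff.1 ha
  have e0 : ∀ i j, ContinuousAt (fun g : SL(2, ℝ) × C => g.1 i j) 1 := fun i j =>
    ((continuous_ent i j).comp continuous_fst).continuousAt
  have h3 : ∀ᶠ g in 𝓝 (1 : SL(2, ℝ) × C), 0 < g.1 0 0 ∧ |g.1 1 0 / g.1 0 0| < δ ∧
      |Real.log (g.1 0 0)| < δ ∧ len g.1 < 1 ∧ pb g.2 := by
    refine (continuousAt_const.eventually_lt (e0 0 0) (by simp)).and
      ((((e0 1 0).div (e0 0 0) (by simp)).abs.eventually_lt continuousAt_const (by simpa)).and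
      ((((e0 0 0).log (by simp)).abs.eventually_lt continuousAt_const (by simpa)).and
      (((continuous_len.comp continuous_fst).continuousAt.eventually_lt continuousAt_const
        (by simp [len_one])).and (continuous_snd.continuousAt.eventually hb))))
  obtain ⟨V, hV, hVo, hV1⟩ := eventually_nhds_iff.1 h3
  refine ⟨V, hVo, hV1, fun g hg => (hV g hg).2.2.2.1.le, fun g hg => ?_⟩
  obtain ⟨a1, a2, a3, -, a5⟩ := hV g hg
  refine ⟨g.1 0 1 / g.1 0 0, fun t ht x => ?_⟩
  have e : geo t • g • x = ((low (Real.exp (-2 * t) * (g.1 1 0 / g.1 0 0)) *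
      geo (Real.log (g.1 0 0)), g.2) : SL(2, ℝ) × C) • geo t • hor (g.1 0 1 / g.1 0 0) • x := by
    simp only [q_smul, ← mul_smul]
    congr 1
    refine Prod.ext ?_ (by simp)
    show geo t * g.1 = low _ * geo _ * (geo t * hor _)
    conv_lhs => rw [decomp g.1 a1]
    rw [← mul_assoc, ← mul_assoc, geo_mul_low, mul_assoc (low _), ← geo_add, add_comm, geo_add]
    simp only [mul_assoc]
  rw [e]
  refine (hab (x := (Real.exp (-2 * t) * (g.1 1 0 / g.1 0 0), Real.log (g.1 0 0))) (hδa ?_) a5 _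
    (mem_univ _)).le
  rw [Prod.dist_eq, Real.dist_eq, Real.dist_eq, sub_zero, sub_zero]
  refine max_lt (lt_of_le_of_lt ?_ a2) a3
  rw [abs_mul, Real.abs_exp]
  exact mul_le_of_le_one_left (abs_nonneg _) (Real.exp_le_one_iff.2 (by linarith))

theorem exists_base_of [DiscreteTopology Γ] [Infinite C]
    (hK : ∃ R, ∀ g : SL(2, ℝ) × C, ∃ γ ∈ Γ, len (g * γ).1 ≤ R)
    (hD : Dense {g : SL(2, ℝ) × C | ∃ h : SL(2, ℝ), ∃ γ ∈ Γ, g = (h, 1) * γ})
    (hinj : ∀ γ ∈ Γ, γ.2 = 1 → γ.1 = 1) :
    ∃ (S : Space) (μ : Measure S.X), CompactSpace S.X ∧ IsProbabilityMeasure μ ∧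
      ErgodicSMul SL(2, ℝ) S.X μ ∧ μ.IsOpenPosMeasure ∧
      (∀ (x : S.X) (g : SL(2, ℝ)), g • x = x → g = 1) ∧
      (∀ x : S.X, μ (MulAction.orbit SL(2, ℝ) x) = 0) ∧
      ∀ m : Measure S.X, IsProbabilityMeasure m →
        (∀ τ : ℝ, MeasurePreserving (fun y : S.X => geo τ • y) m m) →
        (∀ s : ℝ, MeasurePreserving (fun y : S.X => hor s • y) m m) → m = μ := by
  have hcount : Countable Γ := TopologicalSpace.separableSpace_iff_countable.1 inferInstance
  have hpol : PolishSpace ((SL(2, ℝ) × C) ⧸ Γ) := pol _ Γ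
  obtain ⟨R, hR⟩ := hK
  have hK : IsCompact (ball R ×ˢ (univ : Set C)) := (isCompact_ball R).prod isCompact_univ
  have hsurj : ∀ x : (SL(2, ℝ) × C) ⧸ Γ, ∃ g ∈ ball R ×ˢ (univ : Set C),
      QuotientGroup.mk g = x := by
    intro x
    obtain ⟨γ, hγ, h⟩ := hR x.out
    exact ⟨x.out * γ, ⟨h, mem_univ _⟩, by
      rw [QuotientGroup.mk_mul_of_mem _ hγ, QuotientGroup.out_eq']⟩
  have hcomp : CompactSpace ((SL(2, ℝ) × C) ⧸ Γ) := ⟨by
    exact (hK.image (QuotientGroup.continuous_mk (N := Γ))).of_isClosed_subset isClosed_univ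
      fun x _ => hsurj x⟩
  let mH : Measure SL(2, ℝ) := Measure.haar
  have hH : mH.IsMulRightInvariant := Disc.unimod Disc.hom_triv mH
  let mC : Measure C := Measure.haar
  have hC : mC.IsMulRightInvariant := ⟨fun c => by
    have h1 := Measure.map_right_mul_eq_modularCharacterFun_smul mC c
    have h2 := congrArg (fun m : Measure C => m univ) h1
    simp only [Measure.map_apply (measurable_mul_const c) MeasurableSet.univ, preimage_univ,
      Measure.smul_apply] at h2
    have h3 : (Measure.modularCharacterFun c : ℝ≥0∞) = 1 := by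
      have h4 : mC univ ≠ 0 := (isOpen_univ.measure_pos mC univ_nonempty).ne'
      refine (ENNReal.mul_left_inj h4 (measure_ne_top _ _)).1 ?_
      rw [one_mul]
      exact h2.symm
    rw [h1, ENNReal.coe_eq_one.1 h3, one_smul]⟩
  have hns : NullSingletonClass mC := ⟨fun c => by
    by_contra h0
    have h1 : ∀ c' : C, mC {c'} = mC {c} := fun c' => by
      rw [Measure.haar_singleton, Measure.haar_singleton mC c]
    have h2 := measure_iUnion (μ := mC) (f := fun n : ℕ => {Infinite.natEmbedding C n})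
      (fun i j hij => disjoint_singleton.2 fun h => hij ((Infinite.natEmbedding C).injective h))
      fun _ => measurableSet_singleton _
    simp only [h1, ENNReal.tsum_const_eq_top_of_ne_zero h0] at h2
    exact measure_ne_top _ _ h2⟩
  let mG : Measure (SL(2, ℝ) × C) := mH.prod mC
  obtain ⟨μ₀, hμ₀, hnull⟩ := exists_quot Γ mG
  have hfin : μ₀ univ ≠ ⊤ := by
    have h1 := hμ₀ _ (measurable_one.indicator hK.measurableSet)
    rw [lintegral_indicator_one hK.measurableSet] at h1
    refine ne_top_of_le_ne_top hK.measure_ne_top (le_of_le_of_eq ?_ h1)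
    rw [← lintegral_one]
    refine lintegral_mono fun x => ?_
    obtain ⟨g, hg, rfl⟩ := hsurj x
    rw [Uniq.P_mk]
    refine le_trans (le_of_eq ?_) (ENNReal.le_tsum (1 : Γ))
    simp [indicator_of_mem hg]
  have hpos : ∀ U : Set ((SL(2, ℝ) × C) ⧸ Γ), IsOpen U → U.Nonempty → μ₀ U ≠ 0 := by
    intro U hU hne h0
    have hU' : IsOpen ((QuotientGroup.mk : SL(2, ℝ) × C → _) ⁻¹' U) :=
      hU.preimage QuotientGroup.continuous_mk
    have h1 := hμ₀ _ (measurable_one.indicator hU'.measurableSet)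
    rw [lintegral_indicator_one hU'.measurableSet] at h1
    refine (hU'.measure_pos mG (hne.preimage QuotientGroup.mk_surjective)).ne' ?_
    rw [← h1]
    refine lintegral_congr_ae (g := fun _ => 0) ?_ |>.trans lintegral_zero
    filter_upwards [measure_eq_zero_iff_ae_notMem.1 h0] with x hx
    refine ENNReal.tsum_eq_zero.2 fun γ => indicator_of_notMem (fun h => hx ?_) _
    rwa [mem_preimage, QuotientGroup.mk_mul_of_mem _ γ.2, QuotientGroup.out_eq'] at h
  have hne : μ₀ univ ≠ 0 := hpos _ isOpen_univ univ_nonempty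
  have hs : ∀ g : SL(2, ℝ) × C, Measurable fun x : (SL(2, ℝ) × C) ⧸ Γ => g • x := fun g =>
    (continuous_const_smul g).measurable
  have hinv₀ : ∀ g : SL(2, ℝ) × C, μ₀.map (g • ·) = μ₀ := fun g =>
    Uniq.ext_P Γ fun f hf => by
      rw [lintegral_map (Uniq.measurable_P Γ hf) (hs g)]
      simp only [Uniq.P_smul]
      rw [hμ₀ f hf, hμ₀ _ (hf.fun_comp (measurable_const_mul g)), lintegral_mul_left_eq_self f g]
  let μ : Measure ((SL(2, ℝ) × C) ⧸ Γ) := (μ₀ univ)⁻¹ • μ₀
  have hprob : IsProbabilityMeasure μ := ⟨by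
    rw [Measure.smul_apply, smul_eq_mul, ENNReal.inv_mul_cancel hne hfin]⟩
  have hinv : ∀ g : SL(2, ℝ) × C, μ.map (g • ·) = μ := fun g => by
    rw [Measure.map_smul, hinv₀]
  have hsi : SMulInvariantMeasure SL(2, ℝ) _ μ := ⟨fun g E hE => by
    conv_rhs => rw [← hinv (g, 1), Measure.map_apply (hs _) hE]
    rfl⟩
  have herg : ErgodicSMul SL(2, ℝ) _ μ := ⟨fun {E} hE h => by
    have h1 := ((uniq _ SL(2, ℝ) C (ContinuousMulEquiv.refl _) Γ mH mG hD).2 μ (μ.restrict E)
      hprob inferInstance (fun g => hinv _) fun g => by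
        have h2 := ((measurePreserving_smul g μ).restrict_preimage hE).map_eq
        rwa [Measure.restrict_congr_set (h g)] at h2).1
    have h2 := congrArg (fun m => m Eᶜ) h1
    simp only [Measure.restrict_apply hE.compl, compl_inter_self, measure_empty,
      Measure.restrict_apply_univ, Measure.smul_apply, smul_eq_mul] at h2
    rw [eventuallyConst_set]
    rcases mul_eq_zero.1 h2.symm with h3 | h3
    · exact Or.inr (measure_eq_zero_iff_ae_notMem.1 h3)
    · exact Or.inl (mem_ae_iff.2 h3)⟩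
  refine ⟨{ X := (SL(2, ℝ) × C) ⧸ Γ }, μ, hcomp, hprob, herg, ⟨fun U hU hn => ?_⟩, ?_, ?_, ?_⟩
  · rw [Measure.smul_apply, smul_eq_mul]
    exact mul_ne_zero (ENNReal.inv_ne_zero.2 hfin) (hpos U hU hn)
  · intro x g hg
    obtain ⟨k, rfl⟩ := QuotientGroup.mk_surjective x
    have h1 : (QuotientGroup.mk (((g, 1) : SL(2, ℝ) × C) * k) : _ ⧸ Γ) = QuotientGroup.mk k := hg
    have h2 := hinj _ (QuotientGroup.eq.1 h1) (by simp)
    have h3 : k.1⁻¹ * g⁻¹ * k.1 = 1 := by simpa using h2
    have h4 : g = k.1 * (k.1⁻¹ * g⁻¹ * k.1)⁻¹ * k.1⁻¹ := by group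
    rw [h4, h3]
    simp
  · intro x
    obtain ⟨k, rfl⟩ := QuotientGroup.mk_surjective x
    have hσ : MeasurableSet (MulAction.orbit SL(2, ℝ) (QuotientGroup.mk k : _ ⧸ Γ)) := by
      have : MulAction.orbit SL(2, ℝ) (QuotientGroup.mk k : _ ⧸ Γ) =
          ⋃ n : ℕ, nb n {(QuotientGroup.mk k : _ ⧸ Γ)} := by
        ext y
        constructor
        · rintro ⟨g, rfl⟩
          exact mem_iUnion.2 ⟨⌈len g⌉₊, g, _, Nat.le_ceil _, rfl, rfl⟩
        · intro hy
          obtain ⟨n, b, _, -, rfl, rfl⟩ := mem_iUnion.1 hy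
          exact ⟨b, rfl⟩
      rw [this]
      exact MeasurableSet.iUnion fun n => (isCompact_nb _ isCompact_singleton).measurableSet
    show μ _ = 0
    rw [Measure.smul_apply, hnull _ hσ, smul_zero]
    refine measure_mono_null (t := univ ×ˢ range fun γ : Γ => k.2 * (γ : SL(2, ℝ) × C).2) ?_ ?_
    · rintro g ⟨h, hh⟩
      have h1 : (QuotientGroup.mk (((h, 1) : SL(2, ℝ) × C) * k) : _ ⧸ Γ) = QuotientGroup.mk g := hh
      exact ⟨mem_univ _, ⟨_, QuotientGroup.eq.1 h1⟩, by simp⟩
    · rw [Measure.prod_prod, (countable_range _).measure_zero, mul_zero]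
  · intro ν hν hg hh
    refine ext_of_forall_integral_eq_of_IsFiniteMeasure fun f => ?_
    refine eq_of_forall_dist_le fun ε hε => ?_
    obtain ⟨V, hVo, hV1, hVl, hV⟩ := thicken Γ f hε
    have hVK : V ⊆ ball 1 ×ˢ (univ : Set C) := fun g hg => ⟨hVl g hg, mem_univ _⟩
    have hV0 : mG V ≠ 0 := (hVo.measure_pos mG ⟨1, hV1⟩).ne'
    have hVt : mG V ≠ ⊤ := ne_top_of_le_ne_top
      ((isCompact_ball 1).prod isCompact_univ).measure_ne_top (measure_mono hVK)
    have hP : IsProbabilityMeasure ((mG V)⁻¹ • mG.restrict V) := ⟨by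
      rw [Measure.smul_apply, Measure.restrict_apply_univ, smul_eq_mul,
        ENNReal.inv_mul_cancel hV0 hVt]⟩
    have hsm : Continuous fun p : (SL(2, ℝ) × C) × ((SL(2, ℝ) × C) ⧸ Γ) => p.1 • p.2 :=
      continuous_smul
    let ρ : Measure ((SL(2, ℝ) × C) ⧸ Γ) :=
      (((mG V)⁻¹ • mG.restrict V).prod ν).map fun p => p.1 • p.2
    have hρ : IsProbabilityMeasure ρ := Measure.isProbabilityMeasure_map hsm.measurable.aemeasurable
    have hK' : IsCompact (ball (1 + R) ×ˢ (univ : Set C)) := (isCompact_ball _).prod isCompact_univ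
    obtain ⟨N, hN⟩ := P_bound Γ hK'
    have hle : ρ ≤ ((mG V)⁻¹ * N * μ₀ univ) • μ := by
      refine Measure.le_iff.2 fun E hE => ?_
      have hE' : MeasurableSet ((QuotientGroup.mk : SL(2, ℝ) × C → _) ⁻¹' E ∩
          ball (1 + R) ×ˢ (univ : Set C)) :=
        (QuotientGroup.measurable_coe hE).inter hK'.measurableSet
      have b1 : mG (QuotientGroup.mk ⁻¹' E ∩ ball (1 + R) ×ˢ (univ : Set C)) ≤ N * μ₀ E := by
        rw [← lintegral_indicator_one hE', ← hμ₀ _ (measurable_one.indicator hE'),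
          ← lintegral_indicator_one hE, ← lintegral_const_mul _ (measurable_one.indicator hE)]
        refine lintegral_mono fun x => ?_
        by_cases hx : x ∈ E
        · simp only [indicator_of_mem hx, Pi.one_apply, mul_one]
          refine le_trans (ENNReal.tsum_le_tsum fun γ => ?_) (hN x)
          exact indicator_le_indicator_of_subset inter_subset_right (fun _ => zero_le) _
        · refine le_of_eq_of_le (ENNReal.tsum_eq_zero.2 fun γ =>
            indicator_of_notMem (fun h => hx ?_) _) zero_le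
          have := h.1
          rwa [mem_preimage, QuotientGroup.mk_mul_of_mem _ γ.2, QuotientGroup.out_eq'] at this
      rw [Measure.map_apply hsm.measurable hE, Measure.prod_apply_symm (hsm.measurable hE)]
      refine (lintegral_mono (g := fun _ => (mG V)⁻¹ * (N * μ₀ E)) fun x => ?_).trans ?_
      · obtain ⟨k, hk, rfl⟩ := hsurj x
        rw [Measure.smul_apply, smul_eq_mul, Measure.restrict_apply' hVo.measurableSet]
        refine mul_le_mul_right (le_trans ?_ b1) _
        rw [← measure_preimage_mul_right mG k (QuotientGroup.mk ⁻¹' E ∩ _)]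
        refine measure_mono fun g hg => ⟨hg.1, ?_, mem_univ _⟩
        exact (len_mul g.1 k.1).trans (add_le_add (hVl g hg.2) hk.1)
      · rw [lintegral_const, measure_univ, mul_one, Measure.smul_apply, Measure.smul_apply,
          smul_eq_mul, smul_eq_mul, mul_assoc _ (μ₀ univ), ← mul_assoc (μ₀ univ),
          ENNReal.mul_inv_cancel hne hfin, one_mul, mul_assoc]
    have hct : (mG V)⁻¹ * N * μ₀ univ ≠ ⊤ :=
      ENNReal.mul_ne_top (ENNReal.mul_ne_top (ENNReal.inv_ne_top.2 hV0) (by simp)) hfin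
    obtain ⟨m, hm, m1, m2⟩ := exists_lim ρ (Ultrafilter.of atTop) (Ultrafilter.of_le _)
    have hmμ : m = μ := by
      refine (ergodic_geo μ).eq_of_absolutelyContinuous (m1 1)
        (ac_of_le (C := ((mG V)⁻¹ * N * μ₀ univ).toReal) ENNReal.toReal_nonneg fun φ hφ => ?_)
      refine le_of_avg (Ultrafilter.of_le _) (cont_int ρ φ) (m2 φ) fun t _ => ?_
      have hi : Integrable (fun y => φ (geo t • y)) μ :=
        (φ.compContinuous ⟨_, continuous_const_smul (geo t)⟩).integrable μ
      refine (integral_mono_measure hle (Eventually.of_forall fun y => hφ _)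
        (hi.smul_measure hct)).trans ?_
      rw [integral_smul_measure, integral_smul_eq_self (fun y => φ y), smul_eq_mul]
    have key : ∀ t : ℝ, 0 ≤ t → |∫ y, f (geo t • y) ∂ρ - ∫ y, f y ∂ν| ≤ ε := by
      intro t ht
      have c1 : Continuous fun y : (SL(2, ℝ) × C) ⧸ Γ => f (geo t • y) :=
        f.continuous.comp (continuous_const_smul _)
      have i1 : Integrable (fun p : (SL(2, ℝ) × C) × ((SL(2, ℝ) × C) ⧸ Γ) =>
          f (geo t • p.1 • p.2)) (((mG V)⁻¹ • mG.restrict V).prod ν) :=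
        Integrable.of_bound (c1.comp hsm).aestronglyMeasurable ‖f‖
          (Eventually.of_forall fun p => f.norm_coe_le_norm _)
      rw [integral_map hsm.measurable.aemeasurable c1.aestronglyMeasurable, integral_prod _ i1]
      have h1 := norm_integral_le_of_norm_le_const (μ := (mG V)⁻¹ • mG.restrict V) (C := ε)
        (f := fun g => ∫ y, f (geo t • g • y) ∂ν - ∫ y, f y ∂ν) (by
          refine Measure.ae_smul_measure
            ((ae_restrict_mem hVo.measurableSet).mono fun g hgV => ?_) _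
          obtain ⟨r, hr⟩ := hV g hgV
          have mp := (hg t).comp (hh r)
          have e : ∫ y, f y ∂ν = ∫ y, f (geo t • hor r • y) ∂ν := by
            conv_lhs => rw [← mp.map_eq]
            exact integral_map mp.measurable.aemeasurable f.continuous.aestronglyMeasurable
          have j1 : Integrable (fun y => f (geo t • g • y)) ν :=
            Integrable.of_bound (c1.comp (continuous_const_smul g)).aestronglyMeasurable ‖f‖
              (Eventually.of_forall fun p => f.norm_coe_le_norm _)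
          have j2 : Integrable (fun y => f (geo t • hor r • y)) ν :=
            Integrable.of_bound (c1.comp (continuous_const_smul (hor r))).aestronglyMeasurable ‖f‖
              (Eventually.of_forall fun p => f.norm_coe_le_norm _)
          rw [e, ← integral_sub j1 j2]
          simpa using norm_integral_le_of_norm_le_const (μ := ν) (C := ε)
            (f := fun y => f (geo t • g • y) - f (geo t • hor r • y))
            (Eventually.of_forall fun y => hr t ht y))
      rw [integral_sub i1.integral_prod_left (integrable_const _), integral_const] at h1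
      simpa using h1
    have hcont := cont_int ρ f
    have u1 := le_of_avg (Ultrafilter.of_le _) hcont (m2 f) (B := ∫ y, f y ∂ν + ε) fun t ht => by
      linarith [(abs_le.1 (key t ht)).2]
    have u2 := le_of_avg (Ultrafilter.of_le _) (cont_int ρ (-f)) (m2 (-f))
      (B := -∫ y, f y ∂ν + ε) fun t ht => by
        simp only [BoundedContinuousFunction.coe_neg, Pi.neg_apply, integral_neg]
        linarith [(abs_le.1 (key t ht)).1]
    simp only [BoundedContinuousFunction.coe_neg, Pi.neg_apply, integral_neg] at u2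
    rw [hmμ] at u1 u2
    rw [Real.dist_eq, abs_le]
    constructor <;> linarith

end Pool.Agent.Lib.MP_3615e3_an.Bar
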