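import Pool.Agent.Lib.MP_3615e3_an.Ex2

/-! A cocompact arithmetic group and its closure in a compact group. -/

open MeasureTheory Filter Topology Set
open scoped MatrixGroups ENNReal

namespace Pool.Agent.Lib.MP_3615e3_an.Bar

open Pool.Agent.Lib.MP_3615e3_an Pool.Agent.Lib.MP_9177b7_ag.J

/-- The norm one units of a quaternion order. -/
def G0 : Subgroup SL(2, Zsqrtd 2) where
  carrier := {M | M 1 1 = star (M 0 0) ∧ M 0 1 = 3 * star (M 1 0)}
  one_mem' := by simp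
  mul_mem' := by
    rintro M N ⟨a1, a2⟩ ⟨b1, b2⟩
    simp only [mem_setOf_eq, Matrix.SpecialLinearGroup.coe_mul, Matrix.mul_apply,
      Fin.sum_univ_two, a1, a2, b1, b2, star_add, star_mul', star_star, star_ofNat]
    constructor <;> ring
  inv_mem' := by
    rintro M ⟨a1, a2⟩
    simp [Matrix.SpecialLinearGroup.coe_inv, Matrix.adjugate_fin_two, a1, a2]

/-- The real embedding. -/
noncomputable def rr : Zsqrtd 2 →+* ℝ :=
  Zsqrtd.lift ⟨√2, by simp⟩

theorem rr_apply (x : Zsqrtd 2) : rr x = x.re + x.im * √2 := rfl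

/-- The real representation. -/
noncomputable def aa : G0 →* SL(2, ℝ) := (Matrix.SpecialLinearGroup.map rr).comp G0.subtype

theorem aa_ent (γ : G0) (i j : Fin 2) : aa γ i j = rr (γ.1 i j) := rfl

theorem ent_le (g : SL(2, ℝ)) (i j : Fin 2) : |g i j| ≤ Real.exp (len g) := by
  have h1 := (row_le g i).trans (nrm_le_exp g)
  have h2 := abs_nonneg (g i 0)
  have h3 := abs_nonneg (g i 1)
  fin_cases j
  · simp only [Fin.zero_eta]
    linarith
  · simp only [Fin.mk_one]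
    linarith

theorem finite_ball (R : ℝ) : {γ : G0 | len (aa γ) ≤ R}.Finite := by
  obtain ⟨N, hN⟩ := exists_nat_ge (Real.exp R)
  let e : G0 → ℤ × ℤ × ℤ × ℤ := fun γ =>
    ((γ.1 0 0).re, (γ.1 0 0).im, (γ.1 1 0).re, (γ.1 1 0).im)
  have he : Function.Injective e := by
    intro γ δ h
    simp only [e, Prod.mk.injEq] at h
    have h0 : γ.1 0 0 = δ.1 0 0 := Zsqrtd.ext h.1 h.2.1
    have h1 : γ.1 1 0 = δ.1 1 0 := Zsqrtd.ext h.2.2.1 h.2.2.2
    apply Subtype.ext
    ext i j : 1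
    fin_cases i <;> fin_cases j
    · exact h0
    · exact γ.2.2.trans ((congrArg (fun x => 3 * star x) h1).trans δ.2.2.symm)
    · exact h1
    · exact γ.2.1.trans ((congrArg star h0).trans δ.2.1.symm)
  refine ((finite_Icc ((-N, -N, -N, -N) : ℤ × ℤ × ℤ × ℤ) (N, N, N, N)).preimage he.injOn).subset
    fun γ hγ => ?_
  have hb : ∀ i j, |rr (γ.1 i j)| ≤ N := fun i j =>
    (ent_le (aa γ) i j).trans ((Real.exp_le_exp.2 hγ).trans hN)
  have key : ∀ x : Zsqrtd 2, |rr x| ≤ N → |rr (star x)| ≤ N → |x.re| ≤ N ∧ |x.im| ≤ N := by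
    intro x h1 h2
    rw [rr_apply, abs_le] at h1 h2
    simp only [Zsqrtd.re_star, Zsqrtd.im_star, Int.cast_neg] at h2
    have h3 : (1 : ℝ) ≤ √2 := Real.one_le_sqrt.2 one_le_two
    have h4 : |(x.re : ℝ)| ≤ N := abs_le.2 ⟨by linarith, by linarith⟩
    have h5 : |(x.im : ℝ)| ≤ N := by
      have : |(x.im : ℝ) * √2| ≤ N := abs_le.2 ⟨by linarith, by linarith⟩
      rw [abs_mul, abs_of_nonneg (Real.sqrt_nonneg 2)] at this
      nlinarith [abs_nonneg (x.im : ℝ)]
    exact ⟨by exact_mod_cast h4, by exact_mod_cast h5⟩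
  have k0 := key (γ.1 0 0) (hb 0 0) (γ.2.1 ▸ hb 1 1)
  have k1 := key (γ.1 1 0) (hb 1 0) (by
    have := hb 0 1
    rw [γ.2.2, map_mul, abs_mul, map_ofNat, Nat.abs_ofNat] at this
    linarith [abs_nonneg (rr (star (γ.1 1 0)))])
  simp only [abs_le] at k0 k1
  exact ⟨⟨k0.1.1, k0.2.1, k1.1.1, k1.2.1⟩, k0.1.2, k0.2.2, k1.1.2, k1.2.2⟩

/-- The norm form. -/
def nq (v : Fin 4 → ℤ) : ℤ := v 0 ^ 2 - 2 * v 1 ^ 2 - 3 * v 2 ^ 2 + 6 * v 3 ^ 2

theorem aniso : ∀ (n : ℕ) (x y z w : ℤ), x.natAbs + y.natAbs + z.natAbs + w.natAbs = n →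
    x ^ 2 - 2 * y ^ 2 - 3 * z ^ 2 + 6 * w ^ 2 = 0 → n = 0 := by
  have key : ∀ x y k : ℤ, x ^ 2 - 2 * y ^ 2 = 3 * k → 3 ∣ x ∧ 3 ∣ y := by
    intro x y k h
    have h1 := congrArg (Int.cast : ℤ → ZMod 3) h
    push_cast at h1
    have h2 : ∀ a b c : ZMod 3, a ^ 2 - 2 * b ^ 2 = 3 * c → a = 0 ∧ b = 0 := by decide
    obtain ⟨a, b⟩ := h2 _ _ _ h1
    exact ⟨(ZMod.intCast_zmod_eq_zero_iff_dvd x 3).1 a, (ZMod.intCast_zmod_eq_zero_iff_dvd y 3).1 b⟩
  intro n
  induction n using Nat.strong_induction_on with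
  | _ n ih =>
    intro x y z w hn h
    obtain ⟨⟨x', rfl⟩, ⟨y', rfl⟩⟩ := key x y (z ^ 2 - 2 * w ^ 2) (by linarith)
    obtain ⟨⟨z', rfl⟩, ⟨w', rfl⟩⟩ := key z w (x' ^ 2 - 2 * y' ^ 2) (by linarith)
    by_contra h0
    have := ih (x'.natAbs + y'.natAbs + z'.natAbs + w'.natAbs) (by omega) x' y' z' w' rfl
      (by linarith)
    omega

/-- The quaternion with given coordinates. -/
def qm (v : Fin 4 → ℤ) : Matrix (Fin 2) (Fin 2) (Zsqrtd 2) :=
  !![⟨v 0, v 1⟩, ⟨3 * v 2, -3 * v 3⟩; ⟨v 2, v 3⟩, ⟨v 0, -v 1⟩]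

theorem det_qm (v : Fin 4 → ℤ) : (qm v).det = (nq v : ℤ) := by
  rw [Matrix.det_fin_two]
  ext <;> simp [qm, nq, sq] <;> ring

theorem det_aux (a b c d s : ℝ) : Matrix.det
    !![a, a * s, b, b * s; b, -(b * s), 3 * a, -(3 * a * s); c, c * s, d, d * s;
       d, -(d * s), 3 * c, -(3 * c * s)] = -12 * (s * s) * (a * d - b * c) ^ 2 := by
  simp [Matrix.det_succ_row_zero, Fin.sum_univ_succ, Fin.succAbove]
  ring

theorem mink (g : SL(2, ℝ)) : ∃ v : Fin 4 → ℤ, v ≠ 0 ∧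
    ∀ i j, |((g : Matrix (Fin 2) (Fin 2) ℝ) * (qm v).map rr) i j| ≤ 3 := by
  have hd := g.det_coe
  rw [Matrix.det_fin_two] at hd
  have h2 : √2 * √2 = 2 := by simp
  let M : Matrix (Fin 4) (Fin 4) ℝ :=
    !![g 0 0, g 0 0 * √2, g 0 1, g 0 1 * √2;
       g 0 1, -(g 0 1 * √2), 3 * g 0 0, -(3 * g 0 0 * √2);
       g 1 0, g 1 0 * √2, g 1 1, g 1 1 * √2;
       g 1 1, -(g 1 1 * √2), 3 * g 1 0, -(3 * g 1 0 * √2)]
  have hM : M.det = -12 * (√2 * √2) * (g 0 0 * g 1 1 - g 0 1 * g 1 0) ^ 2 :=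
    det_aux _ _ _ _ _
  rw [h2, hd] at hM
  have hdet : LinearMap.det (Matrix.toLin' M) = -24 := by
    rw [LinearMap.det_toLin', hM]
    norm_num
  let B : Set (Fin 4 → ℝ) := Set.pi univ fun _ => Icc (-3) 3
  have hB : Convex ℝ B := convex_pi fun _ _ => convex_Icc _ _
  have : Countable (Submodule.span ℤ (range (Pi.basisFun ℝ (Fin 4)))).toAddSubgroup :=
    inferInstanceAs (Countable (Submodule.span ℤ (range (Pi.basisFun ℝ (Fin 4)))))
  obtain ⟨x, hx0, hx⟩ := exists_ne_zero_mem_lattice_of_measure_mul_two_pow_lt_measure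
    (ZSpan.isAddFundamentalDomain' (Pi.basisFun ℝ (Fin 4)) volume) (s := Matrix.toLin' M ⁻¹' B)
    (fun x hx i hi => by
      have := hx i hi
      rw [map_neg, Pi.neg_apply]
      exact ⟨by linarith [this.2], by linarith [this.1]⟩)
    (hB.linear_preimage _) (by
      rw [Measure.addHaar_preimage_linearMap _ (by rw [hdet]; norm_num), hdet,
        ZSpan.fundamentalDomain_pi_basisFun, volume_pi_pi, volume_pi_pi]
      simp only [Real.volume_Ico, Real.volume_Icc, Finset.prod_const, Finset.card_univ,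
        Fintype.card_fin, Module.finrank_fin_fun, sub_zero, ENNReal.ofReal_one, one_pow, one_mul]
      rw [← ENNReal.ofReal_pow (by norm_num), ← ENNReal.ofReal_mul (abs_nonneg _),
        ← ENNReal.ofReal_ofNat 2, ← ENNReal.ofReal_pow (by norm_num),
        ENNReal.ofReal_lt_ofReal_iff (by norm_num)]
      norm_num)
  obtain ⟨v, hv⟩ := (Submodule.mem_span_range_iff_exists_fun ℤ).1 x.2
  have hv' : ∀ i, (x : Fin 4 → ℝ) i = v i := fun i => by
    rw [← hv]
    simp [Finset.sum_apply, Pi.single_apply]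
  refine ⟨v, fun h0 => hx0 (Subtype.ext (funext fun i => by rw [hv', h0]; simp)), ?_⟩
  have hb : ∀ k, |Matrix.toLin' M x k| ≤ 3 := fun k => abs_le.2 (hx k (mem_univ k))
  have b0 := hb 0
  have b1 := hb 1
  have b2 := hb 2
  have b3 := hb 3
  simp only [Matrix.toLin'_apply, Matrix.mulVec, dotProduct, Fin.sum_univ_four, hv'] at b0 b1 b2 b3
  intro i j
  fin_cases i <;> fin_cases j
  · convert b0 using 2
    simp [M, qm, Matrix.mul_apply, Fin.sum_univ_two, rr_apply]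
    ring
  · convert b1 using 2
    simp [M, qm, Matrix.mul_apply, Fin.sum_univ_two, rr_apply]
    ring
  · convert b2 using 2
    simp [M, qm, Matrix.mul_apply, Fin.sum_univ_two, rr_apply]
    ring
  · convert b3 using 2
    simp [M, qm, Matrix.mul_apply, Fin.sum_univ_two, rr_apply]
    ring

theorem len_le {g : SL(2, ℝ)} {A : ℝ} (h : ∀ i j, |g i j| ≤ A) : len g ≤ 2 * A := by
  have h1 : max (nrm g) (nrm g⁻¹) ≤ 2 * A := by
    refine max_le (max_le (by linarith [h 0 0, h 0 1]) (by linarith [h 1 0, h 1 1])) ?_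
    unfold nrm
    simp only [Matrix.SpecialLinearGroup.coe_inv, Matrix.adjugate_fin_two, Matrix.of_apply,
      Matrix.cons_val', Matrix.cons_val_zero, Matrix.cons_val_one, Matrix.cons_val_fin_one, abs_neg]
    exact max_le (by linarith [h 1 1, h 0 1]) (by linarith [h 1 0, h 0 0])
  exact (Real.log_le_self (zero_le_one.trans (one_le_max g))).trans h1

theorem bdd_of (u : Fin 4 → ℤ) (hu : nq u ≠ 0) : ∃ R : ℝ, ∀ g : SL(2, ℝ),
    (∀ i j, |((g : Matrix (Fin 2) (Fin 2) ℝ) * (qm u).map rr) i j| ≤ 3) → len g ≤ R := by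
  have hd : ((qm u).map rr).det ≠ 0 := by
    have := rr.map_det (qm u)
    rw [RingHom.mapMatrix_apply] at this
    rw [← this, det_qm, map_intCast]
    exact_mod_cast hu
  let W := ((qm u).map rr)⁻¹
  refine ⟨2 * (3 * (|W 0 0| + |W 0 1| + |W 1 0| + |W 1 1|)), fun g hg => len_le fun i j => ?_⟩
  have e : (g : Matrix (Fin 2) (Fin 2) ℝ) = (g : Matrix (Fin 2) (Fin 2) ℝ) * (qm u).map rr * W :=
    (Matrix.mul_nonsing_inv_cancel_right _ _ (Ne.isUnit hd)).symm
  have e2 := congrFun (congrFun e i) j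
  rw [Matrix.mul_apply, Fin.sum_univ_two] at e2
  rw [e2]
  refine (abs_add_le _ _).trans ?_
  rw [abs_mul, abs_mul]
  have a := mul_le_mul_of_nonneg_right (hg i 0) (abs_nonneg (W 0 j))
  have b := mul_le_mul_of_nonneg_right (hg i 1) (abs_nonneg (W 1 j))
  have c0 := abs_nonneg (W 0 0)
  have c1 := abs_nonneg (W 0 1)
  have c2 := abs_nonneg (W 1 0)
  have c3 := abs_nonneg (W 1 1)
  fin_cases j
  · simp only [Fin.zero_eta] at a b ⊢
    linarith
  · simp only [Fin.mk_one] at a b ⊢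
    linarith

theorem exists_unit (u v : Fin 4 → ℤ) (hu : nq u ≠ 0) (h : nq v = nq u)
    (hm : ∀ i, v i % nq u = u i % nq u) : ∃ γ : G0, γ.1.1 * qm u = qm v := by
  choose d hd using fun i => (Int.ModEq.dvd (hm i).symm : nq u ∣ v i - u i)
  have hv : ∀ i, v i = u i + nq u * d i := fun i => by linarith [hd i]
  have e : (1 + qm d * (qm u).adjugate) * qm u = qm v := by
    rw [add_mul, one_mul, mul_assoc, Matrix.adjugate_mul, det_qm]
    ext i j <;> fin_cases i <;> fin_cases j <;> simp [qm, hv] <;> ring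
  have hdet : (1 + qm d * (qm u).adjugate).det = 1 := by
    have := congrArg Matrix.det e
    rw [Matrix.det_mul, det_qm, det_qm, h] at this
    have h2 := congrArg rr this
    rw [map_mul, map_intCast] at h2
    have h3 : rr (1 + qm d * (qm u).adjugate).det = rr 1 := by
      rw [map_one]
      exact (mul_eq_right₀ (by exact_mod_cast hu)).1 h2
    exact Zsqrtd.lift_injective _ (fun n hn => by
      have : n.natAbs * n.natAbs = 2 := by zify; rw [abs_mul_abs_self]; exact hn.symm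
      have h4 : n.natAbs ≤ 2 := by nlinarith
      interval_cases n.natAbs <;> omega) h3
  refine ⟨⟨⟨_, hdet⟩, ?_, ?_⟩, e⟩
  · ext <;> simp [qm, Matrix.adjugate_fin_two, Matrix.mul_apply, Fin.sum_univ_two] <;> ring
  · ext <;> simp [qm, Matrix.adjugate_fin_two, Matrix.mul_apply, Fin.sum_univ_two] <;> ring

theorem cocompact : ∃ R : ℝ, ∀ g : SL(2, ℝ), ∃ γ : G0, len (g * aa γ) ≤ R := by
  let κ : (Fin 4 → ℤ) → ℤ × (Fin 4 → ℤ) := fun v => (nq v, fun i => v i % nq v)
  let D : Set (Fin 4 → ℤ) := {v | nq v ≠ 0 ∧ |nq v| ≤ 18}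
  have hfin : (κ '' D).Finite := by
    refine ((finite_Icc (-18 : ℤ) 18).prod
      (Set.Finite.pi' fun _ : Fin 4 => finite_Icc (0 : ℤ) 18)).subset ?_
    rintro _ ⟨v, ⟨h1, h2⟩, rfl⟩
    exact ⟨abs_le.1 h2, fun i => ⟨Int.emod_nonneg _ h1, (Int.emod_lt_abs _ h1).le.trans h2⟩⟩
  obtain ⟨s, hsD, hs, hκ⟩ := hfin.exists_subset_finite_image_eq (Subset.refl _)
  choose! R hR using bdd_of
  obtain ⟨B, hB⟩ := (hs.image R).bddAbove
  refine ⟨B, fun g => ?_⟩
  obtain ⟨v, hv0, hv⟩ := mink g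
  have h1 : nq v ≠ 0 := fun h => hv0 (by
    have := aniso _ (v 0) (v 1) (v 2) (v 3) rfl h
    funext i
    fin_cases i <;> simp <;> omega)
  have h2 : |nq v| ≤ 18 := by
    have a := rr.map_det (qm v)
    rw [RingHom.mapMatrix_apply, det_qm, map_intCast] at a
    have b : ((g : Matrix (Fin 2) (Fin 2) ℝ) * (qm v).map rr).det = nq v := by
      rw [Matrix.det_mul, g.det_coe, one_mul, a]
    rw [Matrix.det_fin_two] at b
    have c : |(nq v : ℝ)| ≤ 18 := by
      rw [← b]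
      refine (abs_sub _ _).trans ?_
      rw [abs_mul, abs_mul]
      have d1 := mul_le_mul (hv 0 0) (hv 1 1) (abs_nonneg _) (by norm_num)
      have d2 := mul_le_mul (hv 0 1) (hv 1 0) (abs_nonneg _) (by norm_num)
      linarith
    exact_mod_cast c
  obtain ⟨u, hu, hk⟩ : κ v ∈ κ '' s := hκ ▸ mem_image_of_mem κ ⟨h1, h2⟩
  have k1 : nq u = nq v := congrArg Prod.fst hk
  obtain ⟨γ, hγ⟩ := exists_unit u v (hsD hu).1 k1.symm fun i => by
    have := congrFun (congrArg Prod.snd hk) i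
    simp only [κ] at this
    rw [this, k1]
  refine ⟨γ, (hR u (hsD hu).1 _ ?_).trans (hB ⟨u, hu, rfl⟩)⟩
  have e : ((g * aa γ : SL(2, ℝ)) : Matrix (Fin 2) (Fin 2) ℝ) * (qm u).map rr =
      (g : Matrix (Fin 2) (Fin 2) ℝ) * (qm v).map rr := by
    rw [Matrix.SpecialLinearGroup.coe_mul, mul_assoc, ← hγ, Matrix.map_mul]
    rfl
  rw [e]
  exact hv

instance : Fact (Nat.Prime 7) := ⟨by norm_num⟩

theorem exists_root : ∃ z : ℤ_[7], z * z = ((2 : ℤ) : ℤ_[7]) := by
  have h7 : ‖(7 : ℤ_[7])‖ < 1 := by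
    have := PadicInt.norm_p (p := 7)
    simp only [Nat.cast_ofNat] at this
    rw [this]
    norm_num
  have h6 : ‖(6 : ℤ_[7])‖ = 1 := by
    have h := PadicInt.norm_int_lt_one_iff_dvd (p := 7) 6
    have h' := PadicInt.norm_le_one (6 : ℤ_[7])
    refine le_antisymm h' (not_lt.1 fun hl => ?_)
    have := h.1 (by simpa using hl)
    norm_num at this
  obtain ⟨z, hz, -⟩ := hensels_lemma (p := 7) (F := (Polynomial.X ^ 2 - Polynomial.C 2 :
    Polynomial ℤ)) (a := 3) (by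
      simp only [map_sub, map_pow, Polynomial.aeval_X, Polynomial.aeval_C, Polynomial.derivative_sub,
        Polynomial.derivative_X_pow, Polynomial.derivative_C, sub_zero, map_mul]
      norm_num
      rw [h6]
      simpa using h7)
  refine ⟨z, ?_⟩
  simp only [map_sub, map_pow, Polynomial.aeval_X, Polynomial.aeval_C] at hz
  rw [← sq]
  simpa [sub_eq_zero] using hz

theorem exists_base : ∃ (S : Space) (μ : Measure S.X), CompactSpace S.X ∧ IsProbabilityMeasure μ ∧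
      ErgodicSMul SL(2, ℝ) S.X μ ∧ μ.IsOpenPosMeasure ∧
      (∀ (x : S.X) (g : SL(2, ℝ)), g • x = x → g = 1) ∧
      (∀ x : S.X, μ (MulAction.orbit SL(2, ℝ) x) = 0) ∧
      ∀ m : Measure S.X, IsProbabilityMeasure m →
        (∀ τ : ℝ, MeasurePreserving (fun y : S.X => geo τ • y) m m) →
        (∀ s : ℝ, MeasurePreserving (fun y : S.X => hor s • y) m m) → m = μ := by
  obtain ⟨z, hz⟩ := exists_root
  let p : Zsqrtd 2 →+* ℤ_[7] := Zsqrtd.lift ⟨z, hz⟩
  have hp : Function.Injective p := Zsqrtd.lift_injective _ fun n hn => by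
    have : n.natAbs * n.natAbs = 2 := by zify; rw [abs_mul_abs_self]; exact hn.symm
    have h4 : n.natAbs ≤ 2 := by nlinarith
    interval_cases n.natAbs <;> omega
  let b₀ : G0 →* SL(2, ℤ_[7]) := (Matrix.SpecialLinearGroup.map p).comp G0.subtype
  have hb₀ : Function.Injective b₀ := fun γ δ h => by
    apply Subtype.ext
    ext i j : 1
    exact hp (congrFun (congrFun (congrArg Subtype.val h) i) j)
  have c1 : CompactSpace (Matrix (Fin 2) (Fin 2) ℤ_[7]) :=
    inferInstanceAs (CompactSpace (Fin 2 → Fin 2 → ℤ_[7]))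
  have c2 : PolishSpace (Matrix (Fin 2) (Fin 2) ℤ_[7]) :=
    inferInstanceAs (PolishSpace (Fin 2 → Fin 2 → ℤ_[7]))
  have c3 : CompactSpace SL(2, ℤ_[7]) :=
    Matrix.SpecialLinearGroup.isClosedEmbedding_val.compactSpace
  have c4 : PolishSpace SL(2, ℤ_[7]) := Matrix.SpecialLinearGroup.isClosedEmbedding_val.polishSpace
  let C : Subgroup SL(2, ℤ_[7]) := b₀.range.topologicalClosure
  have hC : IsClosed (C : Set SL(2, ℤ_[7])) := Subgroup.isClosed_topologicalClosure _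
  have c5 : CompactSpace C := isCompact_iff_compactSpace.1 hC.isCompact
  have c6 : PolishSpace C := hC.polishSpace
  letI : MeasurableSpace C := borel C
  have c7 : BorelSpace C := ⟨rfl⟩
  let b : G0 →* C := b₀.codRestrict C fun γ => Subgroup.le_topologicalClosure _ ⟨γ, rfl⟩
  have hb : Function.Injective b := fun γ δ h => hb₀ (congrArg Subtype.val h)
  obtain ⟨R, hR⟩ := cocompact
  have c8 : Infinite C := by
    by_contra hf
    have : Finite C := not_infinite_iff_finite.1 hf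
    have : Finite G0 := Finite.of_injective b hb
    obtain ⟨B, hB⟩ := (finite_range fun γ : G0 => len (aa γ)).bddAbove
    obtain ⟨γ, hγ⟩ := hR (geo (R + B + 1))
    have h1 := len_mul (geo (R + B + 1) * aa γ) (aa γ)⁻¹
    rw [mul_inv_cancel_right, len_inv] at h1
    have h2 := ent_le (geo (R + B + 1)) 0 0
    have h3 : geo (R + B + 1) 0 0 = Real.exp (R + B + 1) := rfl
    rw [h3, Real.abs_exp, Real.exp_le_exp] at h2
    linarith [hB ⟨γ, rfl⟩]
  let Γ : Subgroup (SL(2, ℝ) × C) := (aa.prod b).range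
  have c9 : DiscreteTopology Γ := by
    refine discreteTopology_of_isOpen_singleton_one ?_
    have hW : IsOpen {γ : Γ | len γ.1.1 < 1} :=
      isOpen_lt (continuous_len.comp (continuous_fst.comp continuous_subtype_val)) continuous_const
    have hF : {γ : Γ | len γ.1.1 < 1}.Finite := by
      refine ((finite_ball 1).image (aa.prod b).rangeRestrict).subset ?_
      rintro ⟨_, γ, rfl⟩ h
      have h' : len (aa γ) < 1 := h
      exact ⟨γ, h'.le, rfl⟩
    have : ({1} : Set Γ) = {γ : Γ | len γ.1.1 < 1} \ ({γ : Γ | len γ.1.1 < 1} \ {1}) := by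
      rw [sdiff_sdiff_cancel_left]
      rintro _ rfl
      show len 1 < 1
      rw [len_one]
      exact one_pos
    rw [this]
    exact hW.sdiff (hF.subset sdiff_subset).isClosed
  refine exists_base_of Γ ⟨R, fun g => ?_⟩ ?_ ?_
  · obtain ⟨γ, hγ⟩ := hR g.1
    exact ⟨_, ⟨γ, rfl⟩, hγ⟩
  · have hd : Dense (range b) := by
      rw [Subtype.dense_iff]
      refine closure_mono ?_
      rintro _ ⟨γ, rfl⟩
      exact ⟨b γ, ⟨γ, rfl⟩, rfl⟩
    refine (dense_univ.prod hd).mono ?_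
    rintro ⟨g, _⟩ ⟨-, γ, rfl⟩
    exact ⟨g * (aa γ)⁻¹, _, ⟨γ, rfl⟩, by simp⟩
  · rintro _ ⟨γ, rfl⟩ h
    have : γ = 1 := hb (h.trans (map_one b).symm)
    rw [this, map_one]
    rfl

end Pool.Agent.Lib.MP_3615e3_an.Bar
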