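import Pool.Agent.Lib.MP_3615e3_an.Basic

open MeasureTheory Filter Topology Set
open scoped MatrixGroups CompactlySupported NNReal ENNReal symmDiff Pointwise

namespace Pool.Agent.Lib.MP_3615e3_an

variable {X : Type*} [TopologicalSpace X] [T2Space X] [LocallyCompactSpace X]
  [SecondCountableTopology X] [MeasurableSpace X] [BorelSpace X]
  [MulAction SL(2, ℝ) X] [ContinuousSMul SL(2, ℝ) X]
  (μ : Measure X) [IsProbabilityMeasure μ]

theorem mp_smul [SMulInvariantMeasure SL(2, ℝ) X μ] (g : SL(2, ℝ)) :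
    MeasurePreserving (fun y : X => g • y) μ μ :=
  measurePreserving_smul g μ

/-- the subgroup of elements preserving `E` up to a null set -/
def stab [SMulInvariantMeasure SL(2, ℝ) X μ] (E : Set X) : Subgroup SL(2, ℝ) where
  carrier := {g | (fun y : X => g • y) ⁻¹' E =ᵐ[μ] E}
  one_mem' := by simp
  mul_mem' := by
    intro a b ha hb
    have h1 : (fun y : X => (a * b) • y) ⁻¹' E
        = (fun y : X => b • y) ⁻¹' ((fun y : X => a • y) ⁻¹' E) := by
      ext y; simp [mul_smul]
    show (fun y : X => (a * b) • y) ⁻¹' E =ᵐ[μ] E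
    rw [h1]
    exact ((mp_smul μ b).quasiMeasurePreserving.preimage_ae_eq ha).trans hb
  inv_mem' := by
    intro a ha
    have h1 : (fun y : X => a⁻¹ • y) ⁻¹' ((fun y : X => a • y) ⁻¹' E) = E := by
      ext y; simp
    have := (mp_smul μ a⁻¹).quasiMeasurePreserving.preimage_ae_eq ha
    rw [h1] at this
    exact this.symm

theorem dist_conj [SMulInvariantMeasure SL(2, ℝ) X μ] {E : Set X} (hE : MeasurableSet E)
    {a b : SL(2, ℝ)} (g : SL(2, ℝ)) (ha : a ∈ stab μ E) (hb : b ∈ stab μ E) :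
    μ (((fun y : X => (a * g * b) • y) ⁻¹' E) ∆ E) = μ (((fun y : X => g • y) ⁻¹' E) ∆ E) := by
  have h1 : (fun y : X => (a * g * b) • y) ⁻¹' E
      = (fun y : X => b • y) ⁻¹' ((fun y : X => g • y) ⁻¹' ((fun y : X => a • y) ⁻¹' E)) := by
    ext y; simp [mul_smul]
  have h2 : (fun y : X => (a * g * b) • y) ⁻¹' E
      =ᵐ[μ] (fun y : X => b • y) ⁻¹' ((fun y : X => g • y) ⁻¹' E) := by
    rw [h1]
    exact (mp_smul μ b).quasiMeasurePreserving.preimage_ae_eq
      ((mp_smul μ g).quasiMeasurePreserving.preimage_ae_eq ha)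
  have hb' : E =ᵐ[μ] (fun y : X => b • y) ⁻¹' E := EventuallyEq.symm hb
  rw [measure_congr (h2.symmDiff hb'), ← preimage_symmDiff]
  exact (mp_smul μ b).measure_preimage
    ((((mp_smul μ g).measurable hE).symmDiff hE).nullMeasurableSet)

theorem mem_stab_of_tendsto [SMulInvariantMeasure SL(2, ℝ) X μ] {E : Set X}
    (hE : MeasurableSet E) {g : SL(2, ℝ)} {a b : ℕ → SL(2, ℝ)}
    (ha : ∀ n, a n ∈ stab μ E) (hb : ∀ n, b n ∈ stab μ E)
    (h : Tendsto (fun n => a n * g * b n) atTop (𝓝 1)) : g ∈ stab μ E := by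
  let F : C(SL(2, ℝ), C(X, X)) :=
    ContinuousMap.curry ⟨fun p : SL(2, ℝ) × X => p.1 • p.2, continuous_smul⟩
  have hF : Tendsto (fun n => F (a n * g * b n)) atTop (𝓝 (F 1)) :=
    (F.continuous.tendsto 1).comp h
  have h0 := tendsto_measure_symmDiff_preimage_nhds_zero (μ := μ) (ν := μ) hF
    (Eventually.of_forall fun n => mp_smul μ _) (mp_smul μ 1) hE.nullMeasurableSet
    (measure_ne_top μ E)
  have h1 : ∀ n, μ (((F (a n * g * b n)) ⁻¹' E) ∆ ((F 1) ⁻¹' E))
      = μ (((fun y : X => g • y) ⁻¹' E) ∆ E) := by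
    intro n
    rw [← dist_conj μ hE g (ha n) (hb n)]
    congr 2
    ext y; simp [F]
  simp_rw [h1] at h0
  have h2 : μ (((fun y : X => g • y) ⁻¹' E) ∆ E) = 0 :=
    tendsto_nhds_unique tendsto_const_nhds h0
  exact measure_symmDiff_eq_zero_iff.1 h2

theorem geo_nat_mem [SMulInvariantMeasure SL(2, ℝ) X μ] {E : Set X} (h : geo 1 ∈ stab μ E)
    (n : ℕ) : geo n ∈ stab μ E := by
  induction n with
  | zero => simp [geo_zero]
  | succ n ih =>
    rw [Nat.cast_succ, geo_add]
    exact (stab μ E).mul_mem ih h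

theorem tendsto_exp_nat (s : ℝ) :
    Tendsto (fun n : ℕ => Real.exp (-2 * (n : ℝ)) * s) atTop (𝓝 0) := by
  have h1 : Tendsto (fun n : ℕ => -2 * (n : ℝ)) atTop atBot :=
    tendsto_natCast_atTop_atTop.const_mul_atTop_of_neg (by norm_num)
  simpa using (Real.tendsto_exp_atBot.comp h1).mul_const s

/-- Mautner phenomenon for sets -/
theorem stab_eq_top [SMulInvariantMeasure SL(2, ℝ) X μ] {E : Set X} (hE : MeasurableSet E)
    (h : geo 1 ∈ stab μ E) : stab μ E = ⊤ := by
  apply eq_top_of_unip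
  · intro s
    refine mem_stab_of_tendsto μ hE (a := fun n => (geo n)⁻¹) (b := fun n => geo n)
      (fun n => (stab μ E).inv_mem (geo_nat_mem μ h n)) (fun n => geo_nat_mem μ h n) ?_
    have : (fun n : ℕ => (geo n)⁻¹ * hor s * geo n)
        = fun n : ℕ => hor (Real.exp (-2 * (n : ℝ)) * s) := by
      funext n
      rw [mul_assoc, hor_mul_geo, inv_mul_cancel_left]
    rw [this, ← hor_zero]
    exact (continuous_hor.tendsto 0).comp (tendsto_exp_nat s)
  · intro s
    refine mem_stab_of_tendsto μ hE (a := fun n => geo n) (b := fun n => (geo n)⁻¹)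
      (fun n => geo_nat_mem μ h n) (fun n => (stab μ E).inv_mem (geo_nat_mem μ h n)) ?_
    have : (fun n : ℕ => geo n * low s * (geo n)⁻¹)
        = fun n : ℕ => low (Real.exp (-2 * (n : ℝ)) * s) := by
      funext n
      rw [geo_mul_low, mul_inv_cancel_right]
    rw [this, ← low_zero]
    exact (continuous_low.tendsto 0).comp (tendsto_exp_nat s)

/-- the points that visit `W` at an integer time `k < N` -/
def visit (W : Set X) (N : ℕ) : Set X := {y | ∃ k : ℕ, k < N ∧ geo k • y ∈ W}

theorem isOpen_visit {W : Set X} (hW : IsOpen W) (N : ℕ) : IsOpen (visit W N) := by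
  have : visit W N = ⋃ k : ℕ, ⋃ _ : k < N, (fun y : X => geo k • y) ⁻¹' W := by
    ext y; simp [visit]
  rw [this]
  exact isOpen_iUnion fun k => isOpen_iUnion fun _ => hW.preimage (continuous_const_smul _)

theorem exists_visit [ErgodicSMul SL(2, ℝ) X μ] [μ.IsOpenPosMeasure] {W : Set X}
    (hW : IsOpen W) (hne : W.Nonempty) {η : ℝ} (hη : 0 < η) :
    ∃ N : ℕ, 1 - η < μ.real (visit W N) := by
  have hmono : Monotone (visit W) := by
    intro a b hab y hy
    obtain ⟨k, hk, hy⟩ := hy
    exact ⟨k, hk.trans_le hab, hy⟩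
  set E : Set X := ⋃ N, visit W N with hEdef
  have hEo : IsOpen E := isOpen_iUnion fun N => isOpen_visit hW N
  have hE : MeasurableSet E := hEo.measurableSet
  have hsub : (fun y : X => geo 1 • y) ⁻¹' E ⊆ E := by
    intro y hy
    obtain ⟨N, k, hk, hy⟩ := mem_iUnion.1 hy
    refine mem_iUnion.2 ⟨N + 1, k + 1, by omega, ?_⟩
    rw [Nat.cast_succ, geo_add, mul_smul]
    exact hy
  have h1 : geo 1 ∈ stab μ E := by
    refine ae_eq_of_subset_of_measure_ge hsub ?_ ((mp_smul μ _).measurable hE).nullMeasurableSet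
      (measure_ne_top _ _)
    rw [(mp_smul μ (geo 1)).measure_preimage hE.nullMeasurableSet]
  have htop := stab_eq_top μ hE h1
  have hc : EventuallyConst E (ae μ) := by
    refine aeconst_of_forall_preimage_smul_ae_eq SL(2, ℝ) hE.nullMeasurableSet fun g => ?_
    have : g ∈ stab μ E := htop ▸ Subgroup.mem_top g
    exact this
  have hWE : W ⊆ E := by
    intro y hy
    exact mem_iUnion.2 ⟨1, 0, by omega, by simpa [geo_zero] using hy⟩
  have hE1 : μ E = 1 := by
    rcases eventuallyConst_set'.1 hc with h | h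
    · exfalso
      have : μ W = 0 := measure_mono_null hWE (ae_eq_empty.1 h)
      exact (hW.measure_pos μ hne).ne' this
    · rw [measure_congr h, measure_univ]
  have hlim := tendsto_measure_iUnion_atTop (μ := μ) hmono
  rw [← hEdef, hE1] at hlim
  have hlim' : Tendsto (fun N => μ.real (visit W N)) atTop (𝓝 1) := by
    have := (ENNReal.tendsto_toReal ENNReal.one_ne_top).comp hlim
    simpa [Function.comp_def, Measure.real] using this
  exact (hlim'.eventually (lt_mem_nhds (by linarith))).exists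

end Pool.Agent.Lib.MP_3615e3_an
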